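import Pool.Agent.Lib.MP_bd65ca_an_S.Defs
import Pool.Agent.Lib.MP_bd65ca_an.CosT
import Pool.Agent.Lib.MP_bd65ca_an_F.Vol

/-!
# Damping functions

PROOF. `exists_damp`: `W = (δ / 2) • bip d` is compact, symmetric, of positive volume
(`isBody_bip`);
`Φ = (cosT W / volume.real W) ^ 2` and `cosT_props`, `abs_cosT_le` (CosT.lean); `W + W ⊆ δ • bip
d` by
convexity.  `bip_add`: `|u i| + |u last| ≤ 1` and `|v i| + |v last| ≤ δ` add up.
`fourier_scale`: substitution in the Fourier integral (cf. `cls_smul` in Scale.lean).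
-/

open MeasureTheory FourierTransform Pointwise Set Finset Polynomial Filter Topology
open scoped RealInnerProductSpace

namespace Pool.Agent.MPbd65ca.Sp

open Pool.Agent.MPbd65ca.Oct Pool.Agent.MPbd65ca.Bp

private theorem four_mul {d : ℕ} (a : ℂ) (f : E d → ℂ) (ξ : E d) :
    𝓕 (fun w => a * f w) ξ = a * 𝓕 f ξ := by
  rw [Real.fourier_eq, Real.fourier_eq, ← integral_const_mul]
  refine integral_congr_ae (Filter.Eventually.of_forall fun x => ?_)
  simp only [Circle.smul_def, smul_eq_mul]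
  ring

theorem exists_damp (d : ℕ) {δ : ℝ} (hδ : 0 < δ) : ∃ Φ : E (d + 1) → ℝ, Continuous Φ ∧
    Integrable Φ ∧ (∀ w, 0 ≤ Φ w ∧ Φ w ≤ 1) ∧ Φ 0 = 1 ∧
    ∀ ξ ∉ δ • bip d, 𝓕 (fun w => (Φ w : ℂ)) ξ = 0 := by
  have hb := isBody_bip d
  set W : Set (E (d + 1)) := (δ / 2) • bip d with hWdef
  have hδ2 : (0 : ℝ) < δ / 2 := by positivity
  have hW : IsCompact W := hb.isCompact.smul (δ / 2)
  have hs : ∀ x ∈ W, -x ∈ W := by
    rintro x ⟨y, hy, rfl⟩
    exact ⟨-y, hb.neg_mem y hy, by simp⟩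
  have hV : 0 < volume.real W := by
    rw [measureReal_def]
    refine ENNReal.toReal_pos ?_ hW.measure_lt_top.ne
    have h1 : (interior W).Nonempty := by
      rw [hWdef, interior_smul₀ hδ2.ne']
      exact hb.nonempty_interior.image _
    exact ((isOpen_interior.measure_pos volume h1).trans_le
      (measure_mono interior_subset)).ne'
  obtain ⟨h1, h2, h3, -, h5⟩ := cosT_props hW hs
  have hle := CosTAux.abs_cosT_le hW
  refine ⟨fun w => (cosT W w / volume.real W) ^ 2, (h1.div_const _).pow 2, ?_, fun w =>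
    ⟨sq_nonneg _, ?_⟩, ?_, fun ξ hξ => ?_⟩
  · have e : (fun w => (cosT W w / volume.real W) ^ 2) =
        fun w => cosT W w ^ 2 * ((volume.real W) ^ 2)⁻¹ := by
      funext w
      rw [div_pow, div_eq_mul_inv]
    rw [e]
    exact h3.mul_const _
  · show (cosT W w / volume.real W) ^ 2 ≤ 1
    rw [← sq_abs, abs_div, abs_of_pos hV]
    exact pow_le_one₀ (by positivity) ((div_le_one hV).2 (hle w))
  · show (cosT W 0 / volume.real W) ^ 2 = 1
    rw [h2, div_self hV.ne', one_pow]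
  · have hξ' : ξ ∉ W + W := by
      intro hmem
      apply hξ
      obtain ⟨x, ⟨u, hu, rfl⟩, y, ⟨v, hv, rfl⟩, rfl⟩ := hmem
      refine ⟨(1 / 2 : ℝ) • u + (1 / 2 : ℝ) • v,
        hb.convex hu hv (by norm_num) (by norm_num) (by norm_num), ?_⟩
      simp only [smul_add, smul_smul]
      congr 2 <;> ring_nf
    have h6 := h5.2 ξ hξ'
    have e : (fun w => (((cosT W w / volume.real W) ^ 2 : ℝ) : ℂ)) =
        fun w => ((((volume.real W) ^ 2)⁻¹ : ℝ) : ℂ) * ((cosT W w ^ 2 : ℝ) : ℂ) := by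
      funext w
      rw [← Complex.ofReal_mul]
      congr 1
      rw [div_pow, div_eq_mul_inv]
      ring
    rw [e, four_mul, h6, mul_zero]

theorem bip_add {d : ℕ} {δ : ℝ} (hδ : 0 < δ) {u v : E (d + 1)} (hu : u ∈ bip d)
    (hv : v ∈ δ • bip d) : u + v ∈ (1 + δ) • bip d := by
  obtain ⟨w, hw, rfl⟩ := hv
  have h1 : 0 < 1 + δ := by positivity
  refine ⟨(1 / (1 + δ)) • u + (δ / (1 + δ)) • w,
    (isBody_bip d).convex hu hw (by positivity) (by positivity) (by field_simp), ?_⟩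
  simp only [smul_add, smul_smul]
  congr 2
  · rw [mul_one_div_cancel h1.ne', one_smul]
  · field_simp

theorem fourier_scale {d : ℕ} {G : E d → ℝ} {c : ℝ} (hc : 0 < c) {B : Set (E d)}
    (h : ∀ ξ ∉ c⁻¹ • B, 𝓕 (fun w => (G w : ℂ)) ξ = 0) :
    ∀ ξ ∉ B, 𝓕 (fun w => (G (c • w) : ℂ)) ξ = 0 := by
  intro ξ hξ
  have hfr : Module.finrank ℝ (E d) = d := by simp
  have habs : |(c ^ d)⁻¹| = (c ^ d)⁻¹ := abs_of_pos (by positivity)
  have e : 𝓕 (fun x => ((G (c • x) : ℝ) : ℂ)) ξ =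
      (c ^ d)⁻¹ • 𝓕 (fun x => (G x : ℂ)) (c⁻¹ • ξ) := by
    rw [Real.fourier_eq, Real.fourier_eq]
    have h6 := Measure.integral_comp_smul (volume : Measure (E d))
      (fun v : E d => Real.fourierChar (-⟪v, c⁻¹ • ξ⟫) • (G v : ℂ)) c
    rw [hfr, habs] at h6
    rw [← h6]
    congr 1
    funext x
    congr 3
    rw [inner_smul_left, inner_smul_right]
    simp only [conj_trivial]
    field_simp
  rw [e, h (c⁻¹ • ξ), smul_zero]
  intro hmem
  apply hξ
  exact (Set.smul_mem_smul_set_iff₀ (inv_ne_zero hc.ne') _ _).1 hmem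

end Pool.Agent.MPbd65ca.Sp
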