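import Pool.Agent.Lib.MP_bd65ca_an_S.Defs
import Pool.Agent.Lib.MP_bd65ca_an.CosT

/-!
# Restriction to a subspace with a damping factor

PROOF. `rs_fourier`: the transform `φ = 𝓕 F` is continuous and vanishes outside the compact set
`K`, so it
is integrable, and `F x = ∫ φ ξ e^{2 π i ⟪x, ξ⟫} dξ`
(`MeasureTheory.Integrable.fourierInv_fourier_eq` or
`Continuous.fourierInv_fourier_eq`); in particular `|F| ≤ ∫ |φ|` is bounded, so `F (L w) * Φ w` is
integrable.  By Fubini (`|φ ξ| |Φ w|` is integrable on the product) and `hLL`: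
`𝓕 (F (L ·) Φ) η = ∫ w, (∫ ξ, φ ξ e^{2 π i ⟪w, L' ξ⟫}) Φ w e^{-2 π i ⟪w, η⟫}
  = ∫ ξ, φ ξ * 𝓕 Φ (η - L' ξ)`, and for every `ξ` one of the two factors is zero.
-/

open MeasureTheory FourierTransform Pointwise Set Finset Polynomial Filter Topology
open scoped RealInnerProductSpace

namespace Pool.Agent.MPbd65ca.Sp

open Pool.Agent.MPbd65ca.Oct Pool.Agent.MPbd65ca.Bp

theorem rs_fourier {m n : ℕ} {K : Set (E n)} (hK : IsCompact K) {F : E n → ℝ}
    (hc : Continuous F) (hi : Integrable F) (h : ∀ ξ ∉ K, 𝓕 (fun x => (F x : ℂ)) ξ = 0)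
    {Φ : E m → ℝ} (hΦc : Continuous Φ) (hΦi : Integrable Φ) {L : E m → E n} (hL : Continuous L)
    {L' : E n → E m} (hL' : Continuous L') (hLL : ∀ w ξ, ⟪L w, ξ⟫ = ⟪w, L' ξ⟫) :
    Integrable (fun w => F (L w) * Φ w) ∧ ∀ η : E m,
      (∀ ξ ∈ K, 𝓕 (fun w => (Φ w : ℂ)) (η - L' ξ) = 0) →
        𝓕 (fun w => ((F (L w) * Φ w : ℝ) : ℂ)) η = 0 := by
  have hFi : Integrable (fun x => (F x : ℂ)) := hi.ofReal
  have hFc : Continuous (fun x => (F x : ℂ)) := Complex.continuous_ofReal.comp hc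
  obtain ⟨φ, hφ⟩ : ∃ φ : E n → ℂ, φ = 𝓕 (fun x => (F x : ℂ)) := ⟨_, rfl⟩
  have hφc : Continuous φ := by
    rw [hφ]
    exact VectorFourier.fourierIntegral_continuous Real.continuous_fourierChar
      (L := innerₗ (E n)) continuous_inner hFi
  have hφs : ∀ ξ ∉ K, φ ξ = 0 := by
    rw [hφ]
    exact h
  have hφi : Integrable φ :=
    hφc.integrable_of_hasCompactSupport (HasCompactSupport.intro hK hφs)
  have hinv : ∀ x, (F x : ℂ) =
      ∫ ξ, Complex.exp (((2 * Real.pi * ⟪ξ, x⟫ : ℝ) : ℂ) * Complex.I) • φ ξ := by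
    intro x
    have h1 := congrFun (hFc.fourierInv_fourier_eq hFi (hφ ▸ hφi)) x
    rw [← hφ, Real.fourierInv_eq'] at h1
    exact h1.symm
  have hexp : ∀ r : ℝ, ‖Complex.exp ((r : ℂ) * Complex.I)‖ = 1 := fun r =>
    Complex.norm_exp_ofReal_mul_I r
  have hbd : ∀ x, ‖F x‖ ≤ ∫ ξ, ‖φ ξ‖ := by
    intro x
    have h1 : ‖(F x : ℂ)‖ ≤ ∫ ξ, ‖φ ξ‖ := by
      rw [hinv x]
      refine (norm_integral_le_integral_norm _).trans (le_of_eq ?_)
      refine integral_congr_ae (Eventually.of_forall fun ξ => ?_)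
      simp only [norm_smul, hexp, one_mul]
    rwa [Complex.norm_real] at h1
  have hint : Integrable (fun w => F (L w) * Φ w) :=
    hΦi.bdd_mul (hc.comp hL).aestronglyMeasurable (Eventually.of_forall fun w => hbd (L w))
  refine ⟨hint, fun η hη => ?_⟩
  have hΦC : Integrable (fun w => (Φ w : ℂ)) := hΦi.ofReal
  have h1 : ∀ w : E m, Complex.exp (((-2 * Real.pi * ⟪w, η⟫ : ℝ) : ℂ) * Complex.I) •
      ((F (L w) * Φ w : ℝ) : ℂ) = ∫ ξ, φ ξ *
        (Complex.exp (((-2 * Real.pi * ⟪w, η - L' ξ⟫ : ℝ) : ℂ) * Complex.I) * (Φ w : ℂ)) := by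
    intro w
    have e : ((F (L w) * Φ w : ℝ) : ℂ) = (F (L w) : ℂ) * (Φ w : ℂ) := Complex.ofReal_mul _ _
    rw [e, hinv (L w), smul_eq_mul, mul_left_comm, ← integral_mul_const]
    refine integral_congr_ae (Eventually.of_forall fun ξ => ?_)
    simp only [smul_eq_mul]
    have h2 : Complex.exp (((-2 * Real.pi * ⟪w, η - L' ξ⟫ : ℝ) : ℂ) * Complex.I) =
        Complex.exp (((2 * Real.pi * ⟪ξ, L w⟫ : ℝ) : ℂ) * Complex.I) *
          Complex.exp (((-2 * Real.pi * ⟪w, η⟫ : ℝ) : ℂ) * Complex.I) := by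
      rw [← Complex.exp_add, inner_sub_right, real_inner_comm (L w) ξ, hLL]
      congr 1
      push_cast
      ring
    rw [h2]
    ring
  rw [Real.fourier_eq', integral_congr_ae (Eventually.of_forall h1), integral_integral_swap]
  · have h3 : ∀ ξ : E n, ∫ w : E m, φ ξ *
        (Complex.exp (((-2 * Real.pi * ⟪w, η - L' ξ⟫ : ℝ) : ℂ) * Complex.I) * (Φ w : ℂ)) = 0 := by
      intro ξ
      rw [integral_const_mul]
      by_cases hξ : ξ ∈ K
      · have h4 := hη ξ hξ
        rw [Real.fourier_eq'] at h4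
        simp only [smul_eq_mul] at h4
        rw [h4, mul_zero]
      · rw [hφs ξ hξ, zero_mul]
    rw [integral_congr_ae (Eventually.of_forall h3), integral_zero]
  · have hprod : Integrable (fun z : E m × E n => ‖Φ z.1‖ * ‖φ z.2‖) :=
      hΦi.norm.mul_prod hφi.norm
    refine hprod.mono' ?_ (Eventually.of_forall fun z => ?_)
    · refine Continuous.aestronglyMeasurable ?_
      refine (hφc.comp continuous_snd).mul ((Complex.continuous_exp.comp ?_).mul
        (Complex.continuous_ofReal.comp (hΦc.comp continuous_fst)))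
      refine (Complex.continuous_ofReal.comp ?_).mul continuous_const
      exact continuous_const.mul
        (continuous_fst.inner (continuous_const.sub (hL'.comp continuous_snd)))
    · simp only [Function.uncurry, norm_mul, hexp, one_mul, Complex.norm_real]
      rw [mul_comm]

end Pool.Agent.MPbd65ca.Sp
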