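import Pool.Agent.Lib.MP_bd65ca_an_S.Emb
import Pool.Agent.Lib.MP_bd65ca_an_F.Vol

/-!
# The double cones are symmetric convex bodies

PROOF. As `isBody_bip` (F/Vol.lean).  Closed: preimages of closed sets under continuous maps;
bounded: all
blocks have norm at most `1` and `sndE x` lies in the compact set `bip a`; so compact.  Convex:
the norm and
the absolute value are convex.  The interior contains `0`: a ball of radius `1 / 4` (or: the open
set given
by the strict inequalities).
-/

open MeasureTheory FourierTransform Pointwise Set Finset Polynomial Filter Topology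
open scoped RealInnerProductSpace

namespace Pool.Agent.MPbd65ca.Sp

open Pool.Agent.MPbd65ca.Oct Pool.Agent.MPbd65ca.Bp

private theorem bodys_snd_apply {m n : ℕ} (x : E (m + n)) (i : Fin n) :
    sndE x i = x (Fin.natAdd m i) := rfl

private theorem bodys_blk_apply {a b : ℕ} (x : E (b * 3 + (a + 1))) (j : Fin b) (i : Fin 3) :
    blk (fstE x) j i = x (Fin.castAdd (a + 1) (finProdFinEquiv (j, i))) := rfl

private theorem bodys_snd_comb {m n : ℕ} (x y : E (m + n)) (s t : ℝ) :
    sndE (s • x + t • y) = s • sndE x + t • sndE y := by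
  ext i
  simp [bodys_snd_apply]

private theorem bodys_blk_comb {a b : ℕ} (x y : E (b * 3 + (a + 1))) (s t : ℝ) (j : Fin b) :
    blk (fstE (s • x + t • y)) j = s • blk (fstE x) j + t • blk (fstE y) j := by
  ext i
  simp [bodys_blk_apply]

private theorem bodys_snd_neg {m n : ℕ} (x : E (m + n)) : sndE (-x) = -sndE x := by
  ext i
  simp [bodys_snd_apply]

private theorem bodys_blk_neg {a b : ℕ} (x : E (b * 3 + (a + 1))) (j : Fin b) :
    blk (fstE (-x)) j = -blk (fstE x) j := by
  ext i
  simp [bodys_blk_apply]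

private theorem bodys_cont_snd {m n : ℕ} : Continuous (sndE : E (m + n) → E n) := by
  refine (PiLp.continuous_toLp 2 _).comp (continuous_pi fun i => ?_)
  fun_prop

private theorem bodys_cont_blk {a b : ℕ} (j : Fin b) :
    Continuous fun x : E (b * 3 + (a + 1)) => blk (fstE x) j := by
  refine (PiLp.continuous_toLp 2 _).comp (continuous_pi fun i => ?_)
  have h : Continuous fun x : E (b * 3 + (a + 1)) =>
      x (Fin.castAdd (a + 1) (finProdFinEquiv (j, i))) := by fun_prop
  exact h

private theorem bodys_abs_comb {a b x y : ℝ} (ha : 0 ≤ a) (hb : 0 ≤ b) :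
    |a * x + b * y| ≤ a * |x| + b * |y| := by
  refine (abs_add_le _ _).trans (le_of_eq ?_)
  rw [abs_mul, abs_mul, abs_of_nonneg ha, abs_of_nonneg hb]

private theorem bodys_closed (a b : ℕ) : IsClosed (dc a b) := by
  have h : dc a b = {x : E (b * 3 + (a + 1)) | sndE x ∈ bip a} ∩
      ⋂ j : Fin b, {x : E (b * 3 + (a + 1)) |
        ‖blk (fstE x) j‖ + |sndE x (Fin.last a)| ≤ 1} := by
    ext x
    simp [dc]
  rw [h]
  refine IsClosed.inter ((isBody_bip a).isCompact.isClosed.preimage bodys_cont_snd) ?_
  refine isClosed_iInter fun j => isClosed_le ?_ continuous_const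
  have h1 : Continuous fun x : E (b * 3 + (a + 1)) => sndE x (Fin.last a) := by
    have h2 : Continuous fun x : E (b * 3 + (a + 1)) => x (Fin.natAdd (b * 3) (Fin.last a)) := by
      fun_prop
    exact h2
  exact (bodys_cont_blk j).norm.add h1.abs

private theorem bodys_coord {a b : ℕ} {x : E (b * 3 + (a + 1))} (hx : x ∈ dc a b)
    (k : Fin (b * 3 + (a + 1))) : |x k| ≤ 1 := by
  refine Fin.addCases (fun q => ?_) (fun i => ?_) k
  · have h1 := hx.2 (finProdFinEquiv.symm q).1
    have h2 : |blk (fstE x) (finProdFinEquiv.symm q).1 (finProdFinEquiv.symm q).2| ≤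
        ‖blk (fstE x) (finProdFinEquiv.symm q).1‖ := by
      rw [← Real.norm_eq_abs]
      exact PiLp.norm_apply_le _ _
    rw [bodys_blk_apply, Prod.mk.eta, Equiv.apply_symm_apply] at h2
    have h3 := abs_nonneg (sndE x (Fin.last a))
    linarith
  · have h1 := hx.1
    have h4 : ∀ j : Fin (a + 1), |sndE x j| ≤ 1 := by
      intro j
      refine Fin.lastCases h1.1 (fun i => ?_) j
      have h5 := h1.2 i
      have h6 := abs_nonneg (sndE x (Fin.last a))
      linarith
    exact h4 i

theorem isBody_dc (a b : ℕ) : IsBody (dc a b) := by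
  refine ⟨?_, ?_, ⟨0, ?_⟩, fun x hx => ?_⟩
  · refine (isCompact_closedBall (0 : E (b * 3 + (a + 1)))
      (Real.sqrt ((b * 3 + (a + 1) : ℕ) : ℝ))).of_isClosed_subset
      (bodys_closed a b) fun x hx => ?_
    rw [mem_closedBall_zero_iff, EuclideanSpace.norm_eq]
    refine Real.sqrt_le_sqrt ?_
    have h : ∀ i ∈ (Finset.univ : Finset (Fin (b * 3 + (a + 1)))), ‖x i‖ ^ 2 ≤ 1 := fun i _ =>
      pow_le_one₀ (norm_nonneg _) (bodys_coord hx i)
    refine (Finset.sum_le_sum h).trans (le_of_eq ?_)
    simp
  · intro x hx y hy s t hs ht hst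
    refine ⟨?_, fun j => ?_⟩
    · rw [bodys_snd_comb]
      exact (isBody_bip a).convex hx.1 hy.1 hs ht hst
    · rw [bodys_blk_comb, bodys_snd_comb]
      have e : (s • sndE x + t • sndE y) (Fin.last a) =
          s * sndE x (Fin.last a) + t * sndE y (Fin.last a) := by simp
      rw [e]
      have h1 := bodys_abs_comb (x := sndE x (Fin.last a)) (y := sndE y (Fin.last a)) hs ht
      have h2 : ‖s • blk (fstE x) j + t • blk (fstE y) j‖ ≤
          s * ‖blk (fstE x) j‖ + t * ‖blk (fstE y) j‖ := by
        refine (norm_add_le _ _).trans (le_of_eq ?_)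
        rw [norm_smul, norm_smul, Real.norm_of_nonneg hs, Real.norm_of_nonneg ht]
      have h3 := mul_le_mul_of_nonneg_left (hx.2 j) hs
      have h4 := mul_le_mul_of_nonneg_left (hy.2 j) ht
      linarith
  · rw [mem_interior]
    refine ⟨Metric.ball 0 (1 / 4), fun x hx => ?_, Metric.isOpen_ball, by simp⟩
    rw [mem_ball_zero_iff] at hx
    have h : ∀ i, |x i| ≤ 1 / 4 := fun i => (PiLp.norm_apply_le x i).trans hx.le
    refine ⟨⟨?_, fun i => ?_⟩, fun j => ?_⟩
    · have := h (Fin.natAdd (b * 3) (Fin.last a))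
      rw [bodys_snd_apply]
      linarith
    · have h1 := h (Fin.natAdd (b * 3) (Fin.last a))
      have h2 := h (Fin.natAdd (b * 3) i.castSucc)
      rw [bodys_snd_apply, bodys_snd_apply]
      linarith
    · have h1 := h (Fin.natAdd (b * 3) (Fin.last a))
      have h2 : ‖blk (fstE x) j‖ ≤ 1 / 2 := by
        rw [EuclideanSpace.norm_eq]
        refine Real.sqrt_le_iff.2 ⟨by norm_num, ?_⟩
        have h3 : ∀ i ∈ (Finset.univ : Finset (Fin 3)), ‖blk (fstE x) j i‖ ^ 2 ≤ 1 / 16 := by
          intro i _
          have h4 := h (Fin.castAdd (a + 1) (finProdFinEquiv (j, i)))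
          rw [bodys_blk_apply, Real.norm_eq_abs]
          have h5 := abs_nonneg (x (Fin.castAdd (a + 1) (finProdFinEquiv (j, i))))
          nlinarith
        refine (Finset.sum_le_sum h3).trans ?_
        simp
        norm_num
      rw [bodys_snd_apply]
      linarith
  · refine ⟨?_, fun j => ?_⟩
    · rw [bodys_snd_neg]
      exact (isBody_bip a).neg_mem _ hx.1
    · rw [bodys_snd_neg, bodys_blk_neg, norm_neg]
      have e : (-sndE x) (Fin.last a) = -(sndE x (Fin.last a)) := rfl
      rw [e, abs_neg]
      exact hx.2 j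

end Pool.Agent.MPbd65ca.Sp
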