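import Pool.Agent.Lib.MP_bd65ca_an_S.Emb

/-!
# Fubini in block coordinates

PROOF. `cat_mp`: `cat` is a linear bijection `(Fin b → E 3) → E (b * 3)`.  Either compose the
measure
preserving equivalences `(Fin b → E 3) → (Fin b → Fin 3 → ℝ)` (`measurePreserving_pi`,
`PiLp.volume_preserving_ofLp`), `→ (Fin b × Fin 3 → ℝ)` (uncurrying; `Measure.pi_eq` on boxes, or
induction), `→ (Fin (b * 3) → ℝ)` (`volume_measurePreserving_piCongrLeft`), `→ E (b * 3)`
(`PiLp.volume_preserving_toLp`); or: the image of `volume` under `cat` is an additive Haar measure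
(`ContinuousLinearEquiv.isAddHaarMeasure_map`), hence a multiple of `volume`
(`Measure.isAddHaarMeasure_eq_smul`), and the factor is `1` because both give mass `1` to the unit
cube (its preimage is the product of the unit cubes of the blocks).
`lint_big`: `ProdAux.Phi_mp` (its inverse is `pairE`), `lintegral_prod_symm`, `cat_mp`.
`lint_small`: the
same with `PiLp.volume_preserving_toLp (Fin b)` in place of `cat_mp`.
-/

open MeasureTheory FourierTransform Pointwise Set Finset Polynomial Filter Topology
open scoped RealInnerProductSpace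

namespace Pool.Agent.MPbd65ca.Sp

open Pool.Agent.MPbd65ca.Oct Pool.Agent.MPbd65ca.Bp

private theorem Crd_flat (b : ℕ) : MeasurePreserving
    (fun (w : Fin b → Fin 3 → ℝ) (q : Fin (b * 3)) =>
      w (finProdFinEquiv.symm q).1 (finProdFinEquiv.symm q).2) := by
  have hm : Measurable (fun (w : Fin b → Fin 3 → ℝ) (q : Fin (b * 3)) =>
      w (finProdFinEquiv.symm q).1 (finProdFinEquiv.symm q).2) := by fun_prop
  refine ⟨hm, ?_⟩
  symm
  rw [volume_pi]
  refine Measure.pi_eq fun s hs => ?_
  rw [Measure.map_apply hm (MeasurableSet.univ_pi hs)]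
  have h : (fun (w : Fin b → Fin 3 → ℝ) (q : Fin (b * 3)) =>
      w (finProdFinEquiv.symm q).1 (finProdFinEquiv.symm q).2) ⁻¹' (Set.univ.pi s) =
      Set.univ.pi fun j : Fin b => Set.univ.pi fun i : Fin 3 => s (finProdFinEquiv (j, i)) := by
    ext w
    simp only [Set.mem_preimage, Set.mem_pi, Set.mem_univ, true_implies]
    constructor
    · intro h j i
      have := h (finProdFinEquiv (j, i))
      rwa [Equiv.symm_apply_apply] at this
    · intro h q
      have := h (finProdFinEquiv.symm q).1 (finProdFinEquiv.symm q).2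
      rwa [Prod.mk.eta, Equiv.apply_symm_apply] at this
  rw [h, volume_pi_pi]
  simp only [volume_pi_pi]
  rw [← Fintype.prod_prod_type' (f := fun (j : Fin b) (i : Fin 3) =>
    volume (s (finProdFinEquiv (j, i))))]
  exact Fintype.prod_equiv finProdFinEquiv _ _ fun _ => rfl

theorem cat_mp (b : ℕ) : MeasurePreserving (cat : (Fin b → E 3) → E (b * 3)) := by
  have h1 : MeasurePreserving (fun (v : Fin b → E 3) (j : Fin b) => (v j).ofLp) :=
    volume_preserving_pi fun _ : Fin b => PiLp.volume_preserving_ofLp (Fin 3)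
  have h3 := PiLp.volume_preserving_toLp (Fin (b * 3))
  exact h3.comp ((Crd_flat b).comp h1)

theorem lint_big {a b : ℕ} {f : E (b * 3 + (a + 1)) → ENNReal} (hf : Measurable f) :
    ∫⁻ x, f x = ∫⁻ z : E (a + 1), ∫⁻ v : Fin b → E 3, f (ProdAux.pairE (cat v, z)) := by
  have hp : Measurable (ProdAux.pairE : E (b * 3) × E (a + 1) → E (b * 3 + (a + 1))) :=
    ProdAux.continuous_pair.measurable
  have hg : Measurable (fun z : E (b * 3) × E (a + 1) => f (ProdAux.pairE z)) := hf.comp hp
  have e0 := (ProdAux.Phi_mp (m := b * 3) (n := a + 1)).lintegral_comp hg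
  have e1 : ∫⁻ x, f x = ∫⁻ z : E (b * 3) × E (a + 1), f (ProdAux.pairE z) := by
    rw [← e0]
    refine lintegral_congr fun x => ?_
    rw [ProdAux.Phi_apply, ProdAux.pair_eta]
  rw [e1, Measure.volume_eq_prod, lintegral_prod_symm _ hg.aemeasurable]
  refine lintegral_congr fun z => ?_
  rw [← (cat_mp b).lintegral_comp (f := fun x => f (ProdAux.pairE (x, z)))]
  exact hf.comp (hp.comp (measurable_id.prodMk measurable_const))

theorem lint_small {a b : ℕ} {f : E (b + (a + 1)) → ENNReal} (hf : Measurable f) :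
    ∫⁻ w, f w = ∫⁻ z : E (a + 1), ∫⁻ r : Fin b → ℝ,
      f (ProdAux.pairE (WithLp.toLp 2 r, z)) := by
  have hp : Measurable (ProdAux.pairE : E b × E (a + 1) → E (b + (a + 1))) :=
    ProdAux.continuous_pair.measurable
  have hg : Measurable (fun z : E b × E (a + 1) => f (ProdAux.pairE z)) := hf.comp hp
  have e0 := (ProdAux.Phi_mp (m := b) (n := a + 1)).lintegral_comp hg
  have e1 : ∫⁻ x, f x = ∫⁻ z : E b × E (a + 1), f (ProdAux.pairE z) := by
    rw [← e0]
    refine lintegral_congr fun x => ?_
    rw [ProdAux.Phi_apply, ProdAux.pair_eta]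
  rw [e1, Measure.volume_eq_prod, lintegral_prod_symm _ hg.aemeasurable]
  refine lintegral_congr fun z => ?_
  rw [← (PiLp.volume_preserving_toLp (Fin b)).lintegral_comp
    (f := fun x => f (ProdAux.pairE (x, z)))]
  exact hf.comp (hp.comp (measurable_id.prodMk measurable_const))

end Pool.Agent.MPbd65ca.Sp
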