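import Pool.Agent.Lib.MP_bd65ca_an_S.Defs

/-!
# Polar coordinates in several three-dimensional blocks

`sph` is half of the surface measure of the sphere in `E 3`, of total mass `2 π`.

PROOF. `sph_univ`: `toSphere_apply_univ`, `EuclideanSpace.volume_ball_fin_three`.
`polar_one`: `measurePreserving_homeomorphUnitSphereProd` (Mathlib, HaarToSphere) gives for
measurable `g`
`∫⁻ v : E 3, g v = ∫⁻ ω ∂toSphere, ∫⁻ r in Ioi 0, ofReal (r ^ 2) * g (r • ω)` (the point `0` is
null);
apply it to `g` and to `v ↦ g (-v)` and add: the second one gives the part `r < 0`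
(`g (-(r • ω)) = g ((-r) • ω)`), so `∫⁻ ω ∂toSphere, ∫⁻ r : ℝ, ... = 2 * ∫⁻ g`.
`polar_pi`: induction on `b` with `MeasurableEquiv.piFinSuccAbove` /
`volume_preserving_piFinSuccAbove`
(and `measurePreserving_piFinSuccAbove` for `Measure.pi fun _ => sph`), Tonelli
(`lintegral_prod`, `lintegral_lintegral_swap`); or with `measurePreserving_pi`.
-/

open MeasureTheory FourierTransform Pointwise Set Finset Polynomial Filter Topology
open scoped RealInnerProductSpace

namespace Pool.Agent.MPbd65ca.Sp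

open Pool.Agent.MPbd65ca.Oct Pool.Agent.MPbd65ca.Bp

theorem sph_univ : sph Set.univ = ENNReal.ofReal (2 * Real.pi) := by
  unfold sph
  rw [Measure.smul_apply, Measure.toSphere_apply_univ, EuclideanSpace.volume_ball_fin_three,
    finrank_euclideanSpace, Fintype.card_fin, ENNReal.ofReal_one, one_pow, one_mul, smul_eq_mul]
  have h3 : ((3 : ℕ) : ENNReal) = ENNReal.ofReal 3 := by norm_num
  have h2 : (1 / 2 : ENNReal) = ENNReal.ofReal (1 / 2) := by
    rw [ENNReal.ofReal_div_of_pos (by norm_num)]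
    norm_num
  rw [h3, h2, ← ENNReal.ofReal_mul (by norm_num), ← ENNReal.ofReal_mul (by norm_num)]
  congr 1
  ring

instance : IsFiniteMeasure sph := by
  refine ⟨?_⟩
  rw [sph_univ]
  exact ENNReal.ofReal_lt_top

/-- Polar coordinates for positive radii. -/
private theorem Pol_half {g : E 3 → ENNReal} (hg : Measurable g) :
    ∫⁻ v, g v = ∫⁻ ω, ∫⁻ r in Set.Ioi (0 : ℝ), ENNReal.ofReal (r ^ 2) * g (r • (ω : E 3))
      ∂volume ∂(volume : Measure (E 3)).toSphere := by
  have hsm : Measurable fun p : Metric.sphere (0 : E 3) 1 × ℝ => p.2 • (p.1 : E 3) := by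
    fun_prop
  have hf : Measurable fun p : Metric.sphere (0 : E 3) 1 × Set.Ioi (0 : ℝ) =>
      g ((p.2 : ℝ) • (p.1 : E 3)) :=
    hg.comp (hsm.comp (measurable_fst.prodMk (measurable_subtype_coe.comp measurable_snd)))
  have hmp := (volume : Measure (E 3)).measurePreserving_homeomorphUnitSphereProd
  have h1 := hmp.lintegral_comp hf
  have e1 : ∀ v : ({0}ᶜ : Set (E 3)),
      g (((homeomorphUnitSphereProd (E 3) v).2 : ℝ) •
        ((homeomorphUnitSphereProd (E 3) v).1 : E 3)) = g v := by
    intro v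
    rw [← homeomorphUnitSphereProd_symm_apply_coe, Homeomorph.symm_apply_apply]
  simp only [e1] at h1
  rw [lintegral_subtype_comap (measurableSet_singleton _).compl, restrict_compl_singleton] at h1
  rw [h1, lintegral_prod _ hf.aemeasurable]
  refine lintegral_congr fun ω => ?_
  have hdim : Module.finrank ℝ (E 3) - 1 = 2 := by
    rw [finrank_euclideanSpace, Fintype.card_fin]
  rw [hdim, Measure.volumeIoiPow, lintegral_withDensity_eq_lintegral_mul]
  · have h2 := lintegral_subtype_comap (μ := (volume : Measure ℝ)) measurableSet_Ioi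
      (fun r : ℝ => ENNReal.ofReal (r ^ 2) * g (r • (ω : E 3))) (s := Set.Ioi (0 : ℝ))
    rw [← h2]
    rfl
  · exact ENNReal.measurable_ofReal.comp ((measurable_subtype_coe).pow_const 2)
  · exact hf.comp measurable_prodMk_left

theorem polar_one {g : E 3 → ENNReal} (hg : Measurable g) :
    ∫⁻ v, g v = ∫⁻ ω, ∫⁻ r : ℝ, ENNReal.ofReal (r ^ 2) * g (r • (ω : E 3)) ∂volume ∂sph := by
  have hgn : Measurable fun v : E 3 => g (-v) := hg.comp measurable_neg
  have h1 := Pol_half hg
  have h2 := Pol_half hgn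
  rw [lintegral_neg_eq_self] at h2
  have hF : Measurable fun p : Metric.sphere (0 : E 3) 1 × ℝ =>
      ENNReal.ofReal (p.2 ^ 2) * g (p.2 • (p.1 : E 3)) := by
    fun_prop
  have h3 : ∀ ω : Metric.sphere (0 : E 3) 1,
      ∫⁻ r in Set.Ioi (0 : ℝ), ENNReal.ofReal (r ^ 2) * g (-(r • (ω : E 3))) =
        ∫⁻ r in Set.Iic (0 : ℝ), ENNReal.ofReal (r ^ 2) * g (r • (ω : E 3)) := by
    intro ω
    have h4 := (Measure.measurePreserving_neg (volume : Measure ℝ)).setLIntegral_comp_preimage
      (s := Set.Iio (0 : ℝ)) measurableSet_Iio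
      (f := fun r : ℝ => ENNReal.ofReal (r ^ 2) * g (r • (ω : E 3)))
      (hF.comp measurable_prodMk_left)
    have h5 : (Neg.neg ⁻¹' Set.Iio (0 : ℝ)) = Set.Ioi (0 : ℝ) := by
      ext x
      simp
    rw [h5] at h4
    rw [← Measure.restrict_congr_set (Iio_ae_eq_Iic (μ := (volume : Measure ℝ)) (a := (0 : ℝ))),
      ← h4]
    refine lintegral_congr fun r => ?_
    rw [neg_sq, neg_smul]
  simp only [h3] at h2
  have h6 : ∫⁻ ω, ∫⁻ r : ℝ, ENNReal.ofReal (r ^ 2) * g (r • (ω : E 3)) ∂volume
      ∂(volume : Measure (E 3)).toSphere = 2 * ∫⁻ v, g v := by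
    rw [two_mul]
    nth_rewrite 1 [h1]
    rw [h2, ← lintegral_add_left]
    · refine lintegral_congr fun ω => ?_
      have h7 := lintegral_add_compl (μ := (volume : Measure ℝ))
        (fun r : ℝ => ENNReal.ofReal (r ^ 2) * g (r • (ω : E 3)))
        (measurableSet_Ioi (a := (0 : ℝ)))
      rw [← h7, Set.compl_Ioi]
    · exact hF.lintegral_prod_right' (ν := (volume : Measure ℝ).restrict (Set.Ioi 0))
  unfold sph
  rw [lintegral_smul_measure, h6, smul_eq_mul, ← mul_assoc, one_div,
    ENNReal.inv_mul_cancel (by norm_num) (by norm_num), one_mul]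

private theorem Pol_succ {α : Type} [MeasurableSpace α] (μ : Measure α) [SigmaFinite μ] {b : ℕ}
    {f : (Fin (b + 1) → α) → ENNReal} (hf : Measurable f) :
    ∫⁻ v, f v ∂(Measure.pi fun _ => μ) =
      ∫⁻ a, ∫⁻ w, f (Fin.cons a w) ∂(Measure.pi fun _ : Fin b => μ) ∂μ := by
  have h1 := (measurePreserving_piFinSuccAbove (fun _ : Fin (b + 1) => μ) 0).symm
  have h2 := h1.lintegral_comp hf
  rw [← h2, lintegral_prod]
  · refine lintegral_congr fun a => lintegral_congr fun w => ?_
    rw [MeasurableEquiv.piFinSuccAbove_symm_apply]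
    simp [Fin.insertNthEquiv]
  · exact (hf.comp h1.measurable).aemeasurable

theorem polar_pi {b : ℕ} {g : (Fin b → E 3) → ENNReal} (hg : Measurable g) :
    ∫⁻ v, g v = ∫⁻ ω : Fin b → Metric.sphere (0 : E 3) 1, ∫⁻ r : Fin b → ℝ,
      (∏ j, ENNReal.ofReal (r j ^ 2)) * g (fun j => r j • (ω j : E 3)) ∂volume
        ∂(Measure.pi fun _ => sph) := by
  induction b with
  | zero =>
    rw [volume_pi, volume_pi, Measure.pi_of_empty, Measure.pi_of_empty, Measure.pi_of_empty]
    rw [lintegral_dirac, lintegral_dirac, lintegral_dirac]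
    simp only [Finset.univ_eq_empty, Finset.prod_empty, one_mul]
    congr 1
    exact Subsingleton.elim _ _
  | succ b ih =>
    have hcons : Measurable fun p : E 3 × (Fin b → E 3) =>
        (Fin.cons p.1 p.2 : Fin (b + 1) → E 3) := by
      refine measurable_pi_lambda _ fun i => ?_
      refine Fin.cases ?_ (fun i => ?_) i
      · exact measurable_fst
      · exact (measurable_pi_apply i).comp measurable_snd
    have hgc : Measurable fun p : E 3 × (Fin b → E 3) =>
        g (Fin.cons p.1 p.2 : Fin (b + 1) → E 3) := hg.comp hcons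
    have hbl : ∀ n : ℕ, Measurable fun p : (Fin n → Metric.sphere (0 : E 3) 1) × (Fin n → ℝ) =>
        (fun j => p.2 j • (p.1 j : E 3) : Fin n → E 3) := by
      intro n
      refine measurable_pi_lambda _ fun j => ?_
      exact ((measurable_pi_apply j).comp measurable_snd).smul
        (measurable_subtype_coe.comp ((measurable_pi_apply j).comp measurable_fst))
    have hpr : ∀ n : ℕ, Measurable fun r : Fin n → ℝ => ∏ j, ENNReal.ofReal (r j ^ 2) := by
      intro n
      refine Finset.measurable_fun_prod _ fun j _ => ?_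
      fun_prop
    obtain ⟨Φ, hΦd⟩ : ∃ Φ : E 3 × ((Fin b → Metric.sphere (0 : E 3) 1) × (Fin b → ℝ)) → ENNReal,
        Φ = fun q => (∏ j, ENNReal.ofReal (q.2.2 j ^ 2)) *
          g (Fin.cons q.1 (fun j => q.2.2 j • (q.2.1 j : E 3))) := ⟨_, rfl⟩
    have hΦ : Measurable Φ := by
      rw [hΦd]
      exact ((hpr b).comp (measurable_snd.comp measurable_snd)).mul
        (hgc.comp (measurable_fst.prodMk ((hbl b).comp measurable_snd)))
    have hΦ1 : Measurable fun q : (E 3 × (Fin b → Metric.sphere (0 : E 3) 1)) × (Fin b → ℝ) =>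
        Φ (q.1.1, (q.1.2, q.2)) :=
      hΦ.comp ((measurable_fst.comp measurable_fst).prodMk
        ((measurable_snd.comp measurable_fst).prodMk measurable_snd))
    have hK : Measurable fun q : E 3 × (Fin b → Metric.sphere (0 : E 3) 1) =>
        ∫⁻ r', Φ (q.1, (q.2, r')) := hΦ1.lintegral_prod_right'
    have hG : Measurable fun a : E 3 =>
        ∫⁻ ω', ∫⁻ r', Φ (a, (ω', r')) ∂volume ∂(Measure.pi fun _ => sph) :=
      hK.lintegral_prod_right'
    have e1 : ∫⁻ v, g v = ∫⁻ ω0, ∫⁻ r0 : ℝ, ENNReal.ofReal (r0 ^ 2) *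
        ∫⁻ ω', ∫⁻ r', Φ (r0 • (ω0 : E 3), (ω', r')) ∂volume ∂(Measure.pi fun _ => sph)
          ∂volume ∂sph := by
      rw [← polar_one hG, volume_pi, Pol_succ _ hg]
      refine lintegral_congr fun a => ?_
      have h1 := ih (g := fun w => g (Fin.cons a w)) (hgc.comp measurable_prodMk_left)
      rw [volume_pi] at h1
      rw [h1, hΦd]
    have hR : Measurable fun ω : Fin (b + 1) → Metric.sphere (0 : E 3) 1 =>
        ∫⁻ r : Fin (b + 1) → ℝ, (∏ j, ENNReal.ofReal (r j ^ 2)) *
          g (fun j => r j • (ω j : E 3)) := by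
      have h1 : Measurable fun q : (Fin (b + 1) → Metric.sphere (0 : E 3) 1) ×
          (Fin (b + 1) → ℝ) => (∏ j, ENNReal.ofReal (q.2 j ^ 2)) *
            g (fun j => q.2 j • (q.1 j : E 3)) :=
        ((hpr (b + 1)).comp measurable_snd).mul (hg.comp (hbl (b + 1)))
      exact h1.lintegral_prod_right'
    rw [e1, Pol_succ _ hR]
    refine lintegral_congr fun ω0 => ?_
    have e2 : ∀ ω' : Fin b → Metric.sphere (0 : E 3) 1,
        ∫⁻ r : Fin (b + 1) → ℝ, (∏ j, ENNReal.ofReal (r j ^ 2)) *
          g (fun j => r j • ((Fin.cons ω0 ω' : Fin (b + 1) → Metric.sphere (0 : E 3) 1) j : E 3)) =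
        ∫⁻ r0 : ℝ, ENNReal.ofReal (r0 ^ 2) * ∫⁻ r', Φ (r0 • (ω0 : E 3), (ω', r')) := by
      intro ω'
      have h1 : Measurable fun r : Fin (b + 1) → ℝ => (∏ j, ENNReal.ofReal (r j ^ 2)) *
          g (fun j => r j •
            ((Fin.cons ω0 ω' : Fin (b + 1) → Metric.sphere (0 : E 3) 1) j : E 3)) :=
        (hpr (b + 1)).mul (hg.comp ((hbl (b + 1)).comp measurable_prodMk_left))
      rw [volume_pi, Pol_succ _ h1]
      refine lintegral_congr fun r0 => ?_
      have hΦr : Measurable fun r' : Fin b → ℝ => Φ (r0 • (ω0 : E 3), (ω', r')) :=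
        hΦ.comp (measurable_const.prodMk (measurable_const.prodMk measurable_id))
      rw [← lintegral_const_mul _ hΦr]
      refine lintegral_congr fun r' => ?_
      rw [hΦd, Fin.prod_univ_succ, ← mul_assoc]
      simp only [Fin.cons_zero, Fin.cons_succ]
      congr 2
      funext j
      refine Fin.cases ?_ (fun i => ?_) j
      · rfl
      · rfl
    simp only [e2]
    have hm : Measurable fun q : ℝ × (Fin b → Metric.sphere (0 : E 3) 1) =>
        ENNReal.ofReal (q.1 ^ 2) * ∫⁻ r', Φ (q.1 • (ω0 : E 3), (q.2, r')) := by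
      refine Measurable.mul (by fun_prop) (hK.comp ((measurable_fst.smul_const _).prodMk
        measurable_snd))
    have hsw := lintegral_lintegral_swap
      (μ := Measure.pi fun _ : Fin b => sph) (ν := (volume : Measure ℝ))
      (f := fun ω' r0 => ENNReal.ofReal (r0 ^ 2) * ∫⁻ r', Φ (r0 • (ω0 : E 3), (ω', r')))
      (hm.comp measurable_swap).aemeasurable
    rw [hsw]
    refine lintegral_congr fun r0 => ?_
    have hK0 : Measurable fun ω' : Fin b → Metric.sphere (0 : E 3) 1 =>
        ∫⁻ r', Φ (r0 • (ω0 : E 3), (ω', r')) := hK.comp measurable_prodMk_left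
    rw [lintegral_const_mul _ hK0]

end Pool.Agent.MPbd65ca.Sp
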