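import Pool.Agent.Lib.MP_bd65ca_an_S.Fix
import Pool.Agent.Lib.MP_bd65ca_an_S.Pol
import Pool.Agent.Lib.MP_bd65ca_an_S.Crd
import Pool.Agent.Lib.MP_bd65ca_an_S.BodyS

/-!
# The average over the directions

PROOF. `lint_avg`: `lint_big`, then `polar_pi` for the inner integral, Tonelli
(`lintegral_lintegral_swap`; measurability of all integrands: `F` is continuous, `Lw` is jointly
continuous), and `lint_small`: with `w = pairE (toLp r, z)`: `fstE w j = r j`, `sndE w = z`,
`Lw ω w = pairE (cat (fun j => r j • ω j), z)`; `∏ ofReal (r j ^ 2) = ofReal (∏ r j ^ 2)`.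
`dc_ineq`: integrate `fixdir` over `ω` (total mass `(2 π) ^ b`: `Measure.pi_univ`, `sph_univ`):
`(2 π) ^ b F 0 ≤ (π ^ 2 / 3) ^ b / (3 b + a + 1) * ∫ F`, and `(π ^ 2 / 3) / (2 π) = π / 6`.
-/

open MeasureTheory FourierTransform Pointwise Set Finset Polynomial Filter Topology
open scoped RealInnerProductSpace

namespace Pool.Agent.MPbd65ca.Sp

open Pool.Agent.MPbd65ca.Oct Pool.Agent.MPbd65ca.Bp

theorem lint_avg {a b : ℕ} {F : E (b * 3 + (a + 1)) → ℝ} (hc : Continuous F)
    (h0 : ∀ w, 0 ≤ F w) :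
    ∫⁻ x, ENNReal.ofReal (F x) = ∫⁻ ω : Fin b → Metric.sphere (0 : E 3) 1,
      ∫⁻ w : E (b + (a + 1)), ENNReal.ofReal (F (Lw (fun j => (ω j : E 3)) w) *
        ∏ j : Fin b, fstE w j ^ 2) ∂volume ∂(Measure.pi fun _ => sph) := by
  have hpair : Continuous (ProdAux.pairE : E (b * 3) × E (a + 1) → E (b * 3 + (a + 1))) :=
    ProdAux.continuous_pair
  have h1 : ∫⁻ x, ENNReal.ofReal (F x) = ∫⁻ z : E (a + 1), ∫⁻ v : Fin b → E 3,
      ENNReal.ofReal (F (ProdAux.pairE (cat v, z))) :=
    lint_big hc.measurable.ennreal_ofReal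
  have h2 : ∀ z : E (a + 1), ∫⁻ v : Fin b → E 3, ENNReal.ofReal (F (ProdAux.pairE (cat v, z))) =
      ∫⁻ ω : Fin b → Metric.sphere (0 : E 3) 1, ∫⁻ r : Fin b → ℝ,
        (∏ j, ENNReal.ofReal (r j ^ 2)) *
          ENNReal.ofReal (F (ProdAux.pairE (cat (fun j => r j • (ω j : E 3)), z))) ∂volume
          ∂(Measure.pi fun _ => sph) := by
    intro z
    refine polar_pi (g := fun v => ENNReal.ofReal (F (ProdAux.pairE (cat v, z)))) ?_
    refine Measurable.ennreal_ofReal (Continuous.measurable ?_)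
    exact hc.comp (hpair.comp (continuous_cat.prodMk continuous_const))
  have hmeas : Measurable fun q : (E (a + 1) × (Fin b → Metric.sphere (0 : E 3) 1)) ×
      (Fin b → ℝ) => (∏ j, ENNReal.ofReal (q.2 j ^ 2)) *
        ENNReal.ofReal (F (ProdAux.pairE (cat (fun j => q.2 j • (q.1.2 j : E 3)), q.1.1))) := by
    refine Measurable.mul ?_ ?_
    · refine Finset.measurable_prod _ fun j _ => ?_
      refine Measurable.ennreal_ofReal (Continuous.measurable ?_)
      fun_prop
    · refine Measurable.ennreal_ofReal (Continuous.measurable ?_)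
      refine hc.comp (hpair.comp ((continuous_cat.comp ?_).prodMk ?_))
      · fun_prop
      · fun_prop
  rw [h1, lintegral_congr h2, lintegral_lintegral_swap]
  · refine lintegral_congr fun ω => ?_
    have hms : Measurable fun w : E (b + (a + 1)) =>
        ENNReal.ofReal (F (Lw (fun j => (ω j : E 3)) w) * ∏ j : Fin b, fstE w j ^ 2) := by
      refine Measurable.ennreal_ofReal (Continuous.measurable ?_)
      refine (hc.comp (continuous_Lw _)).mul (continuous_finsetProd _ fun j _ => ?_)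
      have h3 : Continuous fun w : E (b + (a + 1)) => fstE w j := by
        have h4 : Continuous (fstE : E (b + (a + 1)) → E b) := ProdAux.fst_mp
        fun_prop
      exact h3.pow 2
    rw [lint_small hms]
    refine lintegral_congr fun z => lintegral_congr fun r => ?_
    have e1 : Lw (fun j => (ω j : E 3)) (ProdAux.pairE (WithLp.toLp 2 r, z)) =
        (ProdAux.pairE (cat (fun j => r j • (ω j : E 3)), z) : E (b * 3 + (a + 1))) := by
      rw [Lw, ProdAux.fst_pair, ProdAux.snd_pair]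
    have e2 : ∀ j : Fin b, fstE (ProdAux.pairE (WithLp.toLp 2 r, z) : E (b + (a + 1))) j =
        r j := by
      intro j
      rw [ProdAux.fst_pair]
    rw [e1, mul_comm, ENNReal.ofReal_mul (h0 _), ENNReal.ofReal_prod_of_nonneg]
    · simp only [e2]
    · intro j _
      positivity
  · exact (Measurable.lintegral_prod_right' hmeas).aemeasurable

theorem dc_ineq {a b : ℕ} {F : E (b * 3 + (a + 1)) → ℝ} (hc : Continuous F)
    (hi : Integrable F) (h0 : ∀ w, 0 ≤ F w)
    (h : ∀ ξ ∉ dc a b, 𝓕 (fun w => (F w : ℂ)) ξ = 0) :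
    F 0 ≤ (Real.pi / 6) ^ b / (3 * b + a + 1) * ∫ x, F x := by
  have hK : IsCompact (dc a b) := (isBody_dc a b).isCompact
  have h1 : ∀ ω : Fin b → Metric.sphere (0 : E 3) 1, ENNReal.ofReal (F 0) ≤
      ENNReal.ofReal ((Real.pi ^ 2 / 3) ^ b / (3 * b + a + 1)) *
      ∫⁻ w : E (b + (a + 1)), ENNReal.ofReal (F (Lw (fun j => (ω j : E 3)) w) *
        ∏ j : Fin b, fstE w j ^ 2) := by
    intro ω
    refine fixdir hK hc hi h0 h fun j => ?_
    exact mem_sphere_zero_iff_norm.1 (ω j).2
  have h2 := lintegral_mono (μ := Measure.pi fun _ : Fin b => sph) h1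
  rw [lintegral_const, lintegral_const_mul' _ _ ENNReal.ofReal_ne_top, ← lint_avg hc h0,
    ← ofReal_integral_eq_lintegral_ofReal hi (ae_of_all _ h0), Measure.pi_univ,
    Finset.prod_const, sph_univ, Finset.card_univ, Fintype.card_fin,
    ← ENNReal.ofReal_pow (by positivity), ← ENNReal.ofReal_mul (h0 0),
    ← ENNReal.ofReal_mul (by positivity)] at h2
  have h3 : 0 ≤ (Real.pi ^ 2 / 3) ^ b / (3 * b + a + 1) * ∫ x, F x :=
    mul_nonneg (by positivity) (integral_nonneg h0)
  have h4 := (ENNReal.ofReal_le_ofReal_iff h3).1 h2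
  have h5 : (0 : ℝ) < (2 * Real.pi) ^ b := by positivity
  have h6 : (Real.pi ^ 2 / 3) ^ b = (Real.pi / 6) ^ b * (2 * Real.pi) ^ b := by
    rw [← mul_pow]
    congr 1
    ring
  rw [h6] at h4
  refine le_of_mul_le_mul_right ?_ h5
  calc F 0 * (2 * Real.pi) ^ b ≤ _ := h4
    _ = _ := by ring

end Pool.Agent.MPbd65ca.Sp
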