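import Pool.Agent.Lib.MP_bd65ca_an_S.Defs

/-!
# The polynomials `Hq`, `Hp`, `Jp`: identities

PROOF. `Hq_mul`: `Polynomial.mul_divByMonic_eq_iff_isRoot` (`(X - C a) * (p /ₘ (X - C a)) = p`).
Differentiating `(x - c) Hq x = T x - T c` once: `Hq x + (x - c) Hp x = T' x`, `T' = N * UU N`
(`Polynomial.Chebyshev.T_derivative_eq_U`), so `Hq_self` (x = c) and `Hp_sq` (multiply by `x - c`);
once more: `2 Hp x + (x - c) Hp' x = T'' x`, so `Hp_self`.  `Jp_mul` as `Hq_mul`, then `Jp_sq`;
`Jp_self`: differentiate `(x - c) Jp x = Hq x - Hq c` at `x = c`: `Jp c = Hp c`.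
Degrees: `Polynomial.natDegree_divByMonic`, `natDegree_derivative_le`, `natDegree_T`
(`Polynomial.Chebyshev.natDegree_T`).  `Hp_lead`: the leading coefficient of `Hq` is that of `TT`,
i.e.
`2 ^ (N - 1)` (`Polynomial.Chebyshev.leadingCoeff_T`); `coeff_derivative`.
`Hp_neg`: `T (-x) = (-1)^N T x` (`Polynomial.Chebyshev.T_eval_neg`); hence
`(Hq (-c)).comp (-X) = (-1) ^ (N + 1) • Hq c` (cancel the factor `X - C c`), differentiate.
-/

open MeasureTheory FourierTransform Pointwise Set Finset Polynomial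
open scoped RealInnerProductSpace

namespace Pool.Agent.MPbd65ca.Sp

open Pool.Agent.MPbd65ca.Oct Pool.Agent.MPbd65ca.Bp

theorem TT_cos (N : ℕ) (θ : ℝ) : (TT N).eval (Real.cos θ) = Real.cos (N * θ) := by
  have h := Polynomial.Chebyshev.T_real_cos θ (N : ℤ)
  rw [Int.cast_natCast] at h
  exact h

theorem UU_sin (N : ℕ) (θ : ℝ) :
    (UU N).eval (Real.cos θ) * Real.sin θ = Real.sin (N * θ) := by
  have h := Polynomial.Chebyshev.U_real_cos θ ((N : ℤ) - 1)
  rw [Int.cast_sub, Int.cast_natCast, Int.cast_one, sub_add_cancel] at h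
  exact h

private theorem CT_derT (N : ℕ) : derivative (TT N) = C (N : ℝ) * UU N := by
  have h := Polynomial.Chebyshev.T_derivative_eq_U (R := ℝ) (N : ℤ)
  unfold TT UU
  rw [h, Int.cast_natCast, C_eq_natCast]

theorem Hq_mul (N : ℕ) (c : ℝ) : (X - C c) * Hq N c = TT N - C ((TT N).eval c) := by
  unfold Hq
  rw [mul_divByMonic_eq_iff_isRoot, IsRoot.def, eval_sub, eval_C, sub_self]

private theorem CT_d1 (N : ℕ) (c : ℝ) : Hq N c + (X - C c) * Hp N c = C (N : ℝ) * UU N := by
  have h := congrArg derivative (Hq_mul N c)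
  rw [derivative_mul, derivative_sub, derivative_X, derivative_C, sub_zero, one_mul,
    derivative_sub, derivative_C, sub_zero, CT_derT] at h
  exact h

private theorem CT_d1e (N : ℕ) (c x : ℝ) :
    (Hq N c).eval x + (x - c) * (Hp N c).eval x = N * (UU N).eval x := by
  have h := congrArg (eval x) (CT_d1 N c)
  rw [eval_add, eval_mul, eval_sub, eval_X, eval_C, eval_mul, eval_C] at h
  exact h

private theorem CT_Hqe (N : ℕ) (c x : ℝ) :
    (x - c) * (Hq N c).eval x = (TT N).eval x - (TT N).eval c := by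
  have h := congrArg (eval x) (Hq_mul N c)
  rw [eval_mul, eval_sub, eval_X, eval_C, eval_sub, eval_C] at h
  exact h

theorem Hq_self (N : ℕ) (c : ℝ) : (Hq N c).eval c = N * (UU N).eval c := by
  have h := CT_d1e N c c
  rw [sub_self, zero_mul, add_zero] at h
  exact h

theorem Jp_mul (N : ℕ) (c : ℝ) : (X - C c) * Jp N c = Hq N c - C ((Hq N c).eval c) := by
  unfold Jp
  rw [mul_divByMonic_eq_iff_isRoot, IsRoot.def, eval_sub, eval_C, sub_self]

private theorem CT_Jpe (N : ℕ) (c x : ℝ) :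
    (x - c) * (Jp N c).eval x = (Hq N c).eval x - (Hq N c).eval c := by
  have h := congrArg (eval x) (Jp_mul N c)
  rw [eval_mul, eval_sub, eval_X, eval_C, eval_sub, eval_C] at h
  exact h

theorem Hp_sq (N : ℕ) (c x : ℝ) : (x - c) ^ 2 * (Hp N c).eval x =
    N * (UU N).eval x * (x - c) - ((TT N).eval x - (TT N).eval c) := by
  linear_combination (x - c) * CT_d1e N c x - CT_Hqe N c x

theorem Jp_sq (N : ℕ) (c x : ℝ) : (x - c) ^ 2 * (Jp N c).eval x =
    (TT N).eval x - (TT N).eval c - N * (UU N).eval c * (x - c) := by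
  linear_combination (x - c) * CT_Jpe N c x + CT_Hqe N c x - (x - c) * Hq_self N c

theorem Hp_self (N : ℕ) (c : ℝ) :
    (Hp N c).eval c = (derivative (derivative (TT N))).eval c / 2 := by
  have h := congrArg derivative (CT_d1 N c)
  rw [derivative_add, derivative_mul, derivative_sub, derivative_X, derivative_C, sub_zero,
    one_mul, ← CT_derT] at h
  have h1 := congrArg (eval c) h
  rw [eval_add, eval_add, eval_mul, eval_sub, eval_X, eval_C, sub_self, zero_mul, add_zero] at h1
  have h2 : (derivative (Hq N c)).eval c = (Hp N c).eval c := rfl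
  rw [h2] at h1
  linarith

theorem Jp_self (N : ℕ) (c : ℝ) : (Jp N c).eval c = (Hp N c).eval c := by
  have h := congrArg derivative (Jp_mul N c)
  rw [derivative_mul, derivative_sub, derivative_X, derivative_C, sub_zero, one_mul,
    derivative_sub, derivative_C, sub_zero] at h
  have h1 := congrArg (eval c) h
  rw [eval_add, eval_mul, eval_sub, eval_X, eval_C, sub_self, zero_mul, add_zero] at h1
  exact h1

/-- The second derivative at the zeros of `UU N`. -/
theorem TT_two (N : ℕ) {θ : ℝ} (hs : Real.sin θ ≠ 0) (hN : Real.sin (N * θ) = 0) :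
    (derivative (derivative (TT N))).eval (Real.cos θ) =
      -(N : ℝ) ^ 2 * Real.cos (N * θ) / Real.sin θ ^ 2 := by
  have hU : (UU N).eval (Real.cos θ) = 0 := by
    have h := UU_sin N θ
    rw [hN] at h
    exact (mul_eq_zero.mp h).resolve_right hs
  have h := Polynomial.Chebyshev.one_sub_X_sq_mul_derivative_derivative_T_eq_poly_in_T
    (R := ℝ) (N : ℤ)
  have h1 := congrArg (eval (Real.cos θ)) h
  have h2 : derivative^[2] (Polynomial.Chebyshev.T ℝ (N : ℤ)) =
      derivative (derivative (TT N)) := rfl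
  have h3 : derivative (Polynomial.Chebyshev.T ℝ (N : ℤ)) = C (N : ℝ) * UU N := CT_derT N
  have h4 : Polynomial.Chebyshev.T ℝ (N : ℤ) = TT N := rfl
  rw [h2, h3, h4, Int.cast_natCast, ← C_eq_natCast, ← C_pow, eval_mul, eval_sub, eval_one,
    eval_pow, eval_X, eval_sub, eval_mul, eval_X, eval_mul, eval_C, hU, eval_mul, eval_C,
    TT_cos] at h1
  have h5 : 1 - Real.cos θ ^ 2 = Real.sin θ ^ 2 := by
    have := Real.sin_sq_add_cos_sq θ
    linarith
  rw [h5] at h1
  rw [eq_div_iff (pow_ne_zero 2 hs)]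
  linarith

theorem Hq_natDegree (N : ℕ) (c : ℝ) : (Hq N c).natDegree ≤ N - 1 := by
  unfold Hq
  rw [natDegree_divByMonic _ (monic_X_sub_C c), natDegree_X_sub_C, natDegree_sub_C]
  have h : (TT N).natDegree = N := by
    unfold TT
    rw [Polynomial.Chebyshev.natDegree_T, Int.natAbs_natCast]
  rw [h]

theorem Hp_natDegree (N : ℕ) (c : ℝ) : (Hp N c).natDegree ≤ N - 2 := by
  unfold Hp
  have h1 := natDegree_derivative_le (Hq N c)
  have h2 := Hq_natDegree N c
  omega

theorem Jp_natDegree (N : ℕ) (c : ℝ) : (Jp N c).natDegree ≤ N - 2 := by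
  unfold Jp
  rw [natDegree_divByMonic _ (monic_X_sub_C c), natDegree_X_sub_C, natDegree_sub_C]
  have h2 := Hq_natDegree N c
  omega

theorem Hp_lead {N : ℕ} (hN : 2 ≤ N) (c : ℝ) :
    (Hp N c).coeff (N - 2) = (N - 1) * 2 ^ (N - 1) := by
  obtain ⟨M, rfl⟩ : ∃ M, N = M + 2 := ⟨N - 2, by omega⟩
  have e : M + 2 - 2 = M := by omega
  have e' : M + 2 - 1 = M + 1 := by omega
  unfold Hp
  rw [e, e', coeff_derivative]
  have h1 : (TT (M + 2)).coeff (M + 2) = 2 ^ (M + 1) := by
    have h2 : (TT (M + 2)).natDegree = M + 2 := by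
      unfold TT
      rw [Polynomial.Chebyshev.natDegree_T, Int.natAbs_natCast]
    have h3 : (TT (M + 2)).leadingCoeff = 2 ^ (M + 2 - 1) := by
      unfold TT
      rw [Polynomial.Chebyshev.leadingCoeff_T, Int.natAbs_natCast]
    rw [leadingCoeff, h2, e'] at h3
    exact h3
  have h4 := congrArg (fun p : ℝ[X] => p.coeff (M + 2)) (Hq_mul (M + 2) c)
  have h5 : (Hq (M + 2) c).coeff (M + 2) = 0 := by
    apply coeff_eq_zero_of_natDegree_lt
    have := Hq_natDegree (M + 2) c
    omega
  have h6 : ((X - C c) * Hq (M + 2) c).coeff (M + 2) = (Hq (M + 2) c).coeff (M + 1) := by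
    rw [sub_mul, coeff_sub, coeff_X_mul, coeff_C_mul, h5, mul_zero, sub_zero]
  have h7 : (TT (M + 2) - C ((TT (M + 2)).eval c)).coeff (M + 2) = 2 ^ (M + 1) := by
    rw [coeff_sub, h1, coeff_C_of_ne_zero (by omega), sub_zero]
  have h8 : (Hq (M + 2) c).coeff (M + 1) = 2 ^ (M + 1) := by
    rw [← h6, ← h7]
    exact h4
  rw [h8]
  push_cast
  ring

theorem Hp_neg (N : ℕ) (c x : ℝ) :
    (Hp N (-c)).eval (-x) = (-1) ^ N * (Hp N c).eval x := by
  have hT : ∀ y : ℝ, (TT N).eval (-y) = (-1) ^ N * (TT N).eval y := by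
    intro y
    have h := Polynomial.Chebyshev.T_eval_neg (R := ℝ) (N : ℤ) y
    rw [Int.cast_negOnePow_natCast] at h
    exact h
  have hTc : (TT N).comp (-X) = C ((-1) ^ N) * TT N := by
    apply Polynomial.funext
    intro y
    rw [eval_comp, eval_neg, eval_X, eval_mul, eval_C, hT]
  have h1 := congrArg (fun p : ℝ[X] => p.comp (-X)) (Hq_mul N (-c))
  have h2 : (-X - C (-c)) * (Hq N (-c)).comp (-X) =
      C ((-1) ^ N) * TT N - C ((-1) ^ N * (TT N).eval c) := by
    have h3 : ((X - C (-c)) * Hq N (-c)).comp (-X) =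
        (TT N - C ((TT N).eval (-c))).comp (-X) := h1
    rw [mul_comp, sub_comp, X_comp, C_comp, sub_comp, C_comp, hTc, hT] at h3
    exact h3
  have h4 : (X - C c) * ((Hq N (-c)).comp (-X)) = (X - C c) * (-(C ((-1) ^ N) * Hq N c)) := by
    have h5 := Hq_mul N c
    rw [C_neg] at h2
    rw [C_mul] at h2
    linear_combination -h2 + C ((-1) ^ N) * h5
  have h6 : (Hq N (-c)).comp (-X) = -(C ((-1) ^ N) * Hq N c) :=
    mul_left_cancel₀ (X_sub_C_ne_zero c) h4
  have h7 := congrArg derivative h6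
  rw [derivative_comp, derivative_neg, derivative_X, derivative_neg, derivative_C_mul] at h7
  have h8 := congrArg (eval x) h7
  rw [eval_mul, eval_neg, eval_one, eval_comp, eval_neg, eval_X, eval_neg, eval_mul,
    eval_C] at h8
  have h9 : (derivative (Hq N (-c))).eval (-x) = (Hp N (-c)).eval (-x) := rfl
  have h10 : (derivative (Hq N c)).eval x = (Hp N c).eval x := rfl
  rw [h9, h10] at h8
  linarith

end Pool.Agent.MPbd65ca.Sp
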