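import Pool.Agent.Lib.MP_bd65ca_an_F.Ind
import Pool.Agent.Lib.MP_bd65ca_an.Prod

/-!
# The Turán problem for double cones over products of segments and three-dimensional balls
-/

open MeasureTheory FourierTransform Pointwise Set Finset Polynomial
open scoped RealInnerProductSpace

namespace Pool.Agent.MPbd65ca.Sp

open Pool.Agent.MPbd65ca.Oct Pool.Agent.MPbd65ca.Bp

/-! ## Trigonometric polynomials in a parameter -/

/-- Trigonometric polynomials of degree at most `d` in the parameter `s` (zero if `d < 0`). -/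
noncomputable def TD {α : Type*} (s : α → ℝ) (d : ℤ) : Submodule ℂ (α → ℂ) :=
  Submodule.span ℂ ((fun (j : ℤ) (a : α) => Complex.exp (Complex.I * (j * s a))) '' {j | |j| ≤ d})

/-- The residues of parity `c` modulo `4 N`. -/
abbrev Cl (N : ℕ) (c : ZMod 2) := {k : ZMod (4 * N) // par N k = c}

/-- The node of a residue of parity `c`. -/
noncomputable def ph {N : ℕ} {c : ZMod 2} (a : Cl N c) : ℝ := sg N a.1

/-! ## Sums over the roots of a polynomial -/

/-- The weighted power sums of the elements of a finite set. -/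
noncomputable def rt (R : Finset ℝ) (m : ℕ) : ℝ :=
  ∑ ρ ∈ R, ρ ^ m / ∏ q ∈ R.erase ρ, (ρ - q)

/-- The union of two families of nodes. -/
noncomputable def Rz (m : ℕ) (x z : ℕ → ℝ) : Finset ℝ :=
  Finset.image x (range (m + 1)) ∪ Finset.image z (range m)

/-! ## Chebyshev polynomials and the kernels -/

/-- The Chebyshev polynomial of the first kind of degree `N`. -/
noncomputable def TT (N : ℕ) : ℝ[X] := Polynomial.Chebyshev.T ℝ N

/-- The Chebyshev polynomial of the second kind of degree `N - 1`. -/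
noncomputable def UU (N : ℕ) : ℝ[X] := Polynomial.Chebyshev.U ℝ (N - 1)

/-- The quotient `(T x - T c) / (x - c)`. -/
noncomputable def Hq (N : ℕ) (c : ℝ) : ℝ[X] := (TT N - C ((TT N).eval c)) /ₘ (X - C c)

/-- The derivative of `Hq` with respect to `x`. -/
noncomputable def Hp (N : ℕ) (c : ℝ) : ℝ[X] := derivative (Hq N c)

/-- The quotient `(T x - T c - T' c (x - c)) / (x - c) ^ 2`. -/
noncomputable def Jp (N : ℕ) (c : ℝ) : ℝ[X] := (Hq N c - C ((Hq N c).eval c)) /ₘ (X - C c)

/-- The zeros of `UU N`: the points `cos (π (i + 1) / N)`. -/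
noncomputable def xt (N i : ℕ) : ℝ := Real.cos (Real.pi * (i + 1) / N)

/-- The kernel at the nodes: minus (plus) the value of `Hp (cos y)` at `cos t`. -/
noncomputable def kb (N : ℕ) (t y : ZMod (4 * N)) : ℝ :=
  if y = t ∨ y = -t then (N : ℝ) ^ 2 / (2 * Real.sin (sg N t) ^ 2)
  else (1 - Real.cos (N * sg N t) * Real.cos (N * sg N y)) /
    (Real.cos (sg N t) - Real.cos (sg N y)) ^ 2

/-- The kernel at the origin: the value of `Hp (cos y)` at `1`. -/
noncomputable def k3 (N : ℕ) (y : ZMod (4 * N)) : ℝ :=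
  ∑ n ∈ range (2 * N), (|(N : ℝ) - n| ^ 3 - |(N : ℝ) - n|) / 3 * Real.cos (n * sg N y)

/-- The function `(1 - T c * T x) / (x - c) ^ 2`, `c = cos y`. -/
noncomputable def gg (N : ℕ) (y : ZMod (4 * N)) (x : ℝ) : ℝ :=
  -Real.cos (N * sg N y) * ((Jp N (Real.cos (sg N y))).eval x +
    N * (UU N).eval (Real.cos (sg N y)) / (x - Real.cos (sg N y)))

/-- The polynomial of the masses `M` for the node `k`. -/
noncomputable def hh (N : ℕ) [NeZero N] (c : ZMod 2) (M : ZMod (4 * N) → ℝ) (k : ZMod (4 * N)) :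
    ℝ[X] :=
  ∑ k' with par N k' = c, C (M k') * Hp N (Real.cos (sg N (k - k')))

/-- Trigonometric polynomials `f w s` whose frequencies `(k, τ)` satisfy `|k| + |τ| ≤ 2 N - 4`. -/
def T3 (N : ℕ) (f : ℝ → ℝ → ℝ) : Prop :=
  ∃ a : ℤ → ℤ → ℂ, (∀ k τ, 2 * (N : ℤ) - 4 < |k| + |τ| → a k τ = 0) ∧
    ∀ w s : ℝ, (f w s : ℂ) = ∑ k ∈ Ioo (-(2 * N : ℤ)) (2 * N), ∑ τ ∈ Ioo (-(2 * N : ℤ)) (2 * N),
      a k τ * Complex.exp (Complex.I * (k * w + τ * s))

/-! ## The induction -/

/-- Nonnegative trigonometric polynomials in `x`, `s`: the variable `x i` belongs to a ball of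
dimension three if `ty i` is `true`, and to a segment if `ty i` is `false`. -/
structure TgM (d N : ℕ) (ty : Fin d → Bool) (p : (Fin d → ℝ) → ℝ → ℝ) : Prop where
  nonneg : ∀ x s, 0 ≤ p x s
  per : ∀ x s, p x (s + 2 * Real.pi) = p x s
  line : ∀ x s i (σ : ℝ), ty i = false → σ = 1 ∨ σ = -1 →
    TP (2 * N - 1) (fun t => p (Function.update x i t) (s + σ * t))
  leaf : ∀ x i, ty i = true → T3 N (fun w s => p (Function.update x i w) s)

/-- The weights of the nodes. -/
noncomputable def wt (N : ℕ) (b : Bool) (t : ZMod (4 * N)) : ℝ :=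
  if b then (if par N t = 0 then Real.sin (sg N t) ^ 2 / (2 * (N : ℝ) ^ 2) else 0)
  else (if par N t = 1 then 1 else 0)

/-- The weighted sum over the grid. -/
noncomputable def gsM (d N : ℕ) [NeZero N] (ty : Fin d → Bool) (p : (Fin d → ℝ) → ℝ → ℝ)
    (c : ZMod 2) : ℝ :=
  ∑ X : Fin d → ZMod (4 * N), (∏ i, wt N (ty i) (X i)) *
    ∑ k with par N k = c, p (fun i => sg N (X i)) (sg N k)

/-- The number of segments modulo 2. -/
def pc {d : ℕ} (ty : Fin d → Bool) : ZMod 2 := ∑ i, if ty i then 0 else 1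

/-- The sum of the dimensions of the segments and the balls. -/
def pd {d : ℕ} (ty : Fin d → Bool) : ℕ := ∑ i, if ty i then 3 else 1

/-- The number of the balls. -/
def nb {d : ℕ} (ty : Fin d → Bool) : ℕ := ∑ i, if ty i then 1 else 0

/-- The kernels of the induction. -/
noncomputable def KM (N : ℕ) [NeZero N] : (d : ℕ) → (Fin d → Bool) → ZMod (4 * N) → ℝ
  | 0, _, y => if y = 0 then 1 else 0
  | d + 1, ty, y => if ty 0 then ∑ z with par N z = 0, k3 N z * KM N d (Fin.tail ty) (y - z)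
    else 1 / 2 * (KM N d (Fin.tail ty) y +
      ∑ t with par N t = 1, kap N t * KM N d (Fin.tail ty) (y + 2 * t))

/-- Convolution with a kernel. -/
noncomputable def cw (N : ℕ) [NeZero N] (A m : ZMod (4 * N) → ℝ) (k : ZMod (4 * N)) : ℝ :=
  ∑ k', A (k - k') * m k'

/-- The inequality for several sources, with the kernel `A`. -/
def MS (N : ℕ) [NeZero N] (d : ℕ) (ty : Fin d → Bool) (A : ZMod (4 * N) → ℝ) : Prop :=
  ∀ p : (Fin d → ℝ) → ℝ → ℝ, TgM d N ty p → ∀ m : ZMod (4 * N) → ℝ, (∀ k, 0 ≤ m k) →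
    ∀ c : ZMod 2, (∀ k, par N k ≠ c → m k = 0) →
      ∑ k, m k / cw N A m k * p 0 (sg N k) ≤ gsM d N ty p (c + pc ty)

/-! ## The bodies -/

/-- The `j`-th three-dimensional block. -/
def blk {b : ℕ} (x : E (b * 3)) (j : Fin b) : E 3 :=
  WithLp.toLp 2 fun i => x (finProdFinEquiv (j, i))

/-- The vector with given blocks. -/
def cat {b : ℕ} (v : Fin b → E 3) : E (b * 3) :=
  WithLp.toLp 2 fun q => v (finProdFinEquiv.symm q).1 (finProdFinEquiv.symm q).2

/-- The double cone over the product of `b` unit balls of dimension three and a cube of dimension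
`a`: the points `(X, x, t)` with `‖X j‖ + |t| ≤ 1`, `|x i| + |t| ≤ 1`, `|t| ≤ 1`. -/
def dc (a b : ℕ) : Set (E (b * 3 + (a + 1))) :=
  {x | sndE x ∈ bip a ∧ ∀ j : Fin b, ‖blk (fstE x) j‖ + |sndE x (Fin.last a)| ≤ 1}

/-- The embedding given by the unit vectors `ω j`. -/
def Lw {a b : ℕ} (ω : Fin b → E 3) (w : E (b + (a + 1))) : E (b * 3 + (a + 1)) :=
  ProdAux.pairE (cat (fun j => fstE w j • ω j), sndE w)

/-- The transposed map. -/
noncomputable def Lt {a b : ℕ} (ω : Fin b → E 3) (x : E (b * 3 + (a + 1))) : E (b + (a + 1)) :=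
  ProdAux.pairE (WithLp.toLp 2 fun j => ⟪ω j, blk (fstE x) j⟫, sndE x)

/-- The types of the leaves: `b` balls, then `a` segments. -/
def tyab (a b : ℕ) (i : Fin (b + a)) : Bool := decide (i.val < b)

/-- Half of the surface measure of the unit sphere of dimension two. -/
noncomputable def sph : Measure (Metric.sphere (0 : E 3) 1) :=
  (1 / 2 : ENNReal) • (volume : Measure (E 3)).toSphere

end Pool.Agent.MPbd65ca.Sp
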