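import Pool.Agent.Lib.MP_bd65ca_an_S.Defs

/-!
# The embedding of the space of the leaves

PROOF. Coordinates: `ProdAux.inner_split`, `fst_pair`, `snd_pair`; `inner_cat`:
`⟪cat v, y⟫ = ∑ q, v (q.1) (q.2) * y q`, reindex the sum over `Fin (b * 3)` by `finProdFinEquiv`
(`Equiv.sum_comp`, `Fintype.sum_prod_type`); `blk_cat`: `simp [blk, cat]`.
`Lt_mem`: `|⟪ω j, blk x j⟫| ≤ ‖blk x j‖` (`abs_real_inner_le_norm`); a coordinate `i.castSucc` of
`E (b + a + 1)`, `i : Fin (b + a)`, is `Fin.castAdd` of `j : Fin b` or `Fin.natAdd b i'` with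
`i' = i''.castSucc` (`Fin.addCases`), the last one is `Fin.natAdd b (Fin.last a)`.
`Lw_zero`, continuity: `fun_prop` after unfolding.
`prod_ty`: for `w : E (b + (a + 1))`: the product over `Fin (b + a)` splits (`Fin.prod_univ_add`);
`tyab a b (Fin.castAdd a j) = true`, `tyab a b (Fin.natAdd b i) = false`.
-/

open MeasureTheory FourierTransform Pointwise Set Finset Polynomial Filter Topology
open scoped RealInnerProductSpace

namespace Pool.Agent.MPbd65ca.Sp

open Pool.Agent.MPbd65ca.Oct Pool.Agent.MPbd65ca.Bp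

theorem blk_cat {b : ℕ} (v : Fin b → E 3) (j : Fin b) : blk (cat v) j = v j := by
  ext i
  show v (finProdFinEquiv.symm (finProdFinEquiv (j, i))).1
    (finProdFinEquiv.symm (finProdFinEquiv (j, i))).2 = v j i
  rw [Equiv.symm_apply_apply]

theorem cat_blk {b : ℕ} (x : E (b * 3)) : cat (fun j => blk x j) = x := by
  ext q
  show x (finProdFinEquiv ((finProdFinEquiv.symm q).1, (finProdFinEquiv.symm q).2)) = x q
  rw [Prod.mk.eta, Equiv.apply_symm_apply]

theorem continuous_cat {b : ℕ} : Continuous (cat : (Fin b → E 3) → E (b * 3)) := by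
  unfold cat
  fun_prop

theorem continuous_blk {b : ℕ} (j : Fin b) : Continuous fun x : E (b * 3) => blk x j := by
  unfold blk
  fun_prop

theorem inner_cat {b : ℕ} (v : Fin b → E 3) (y : E (b * 3)) :
    ⟪cat v, y⟫ = ∑ j, ⟪v j, blk y j⟫ := by
  simp only [PiLp.inner_apply]
  rw [← Equiv.sum_comp finProdFinEquiv, Fintype.sum_prod_type]
  refine Finset.sum_congr rfl fun j _ => Finset.sum_congr rfl fun i _ => ?_
  have h : cat v (finProdFinEquiv (j, i)) = v j i := by
    show blk (cat v) j i = v j i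
    rw [blk_cat]
  rw [h]
  rfl

theorem continuous_Lw {a b : ℕ} (ω : Fin b → E 3) :
    Continuous (Lw ω : E (b + (a + 1)) → E (b * 3 + (a + 1))) := by
  unfold Lw
  refine ProdAux.continuous_pair.comp (Continuous.prodMk (continuous_cat.comp ?_) ?_)
  · refine continuous_pi fun j => ?_
    have h : Continuous fun w : E (b + (a + 1)) => fstE w j := by
      unfold fstE
      fun_prop
    exact h.smul continuous_const
  · exact ProdAux.snd_mp

theorem continuous_Lt {a b : ℕ} (ω : Fin b → E 3) :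
    Continuous (Lt ω : E (b * 3 + (a + 1)) → E (b + (a + 1))) := by
  unfold Lt
  refine ProdAux.continuous_pair.comp (Continuous.prodMk ?_ ?_)
  · refine (PiLp.continuous_toLp 2 _).comp (continuous_pi fun j => ?_)
    exact continuous_const.inner ((continuous_blk j).comp ProdAux.fst_mp)
  · exact ProdAux.snd_mp

theorem Lw_zero {a b : ℕ} (ω : Fin b → E 3) :
    (Lw ω (0 : E (b + (a + 1))) : E (b * 3 + (a + 1))) = 0 := by
  have h1 : cat (fun j => fstE (0 : E (b + (a + 1))) j • ω j) = 0 := by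
    ext q
    simp [cat, fstE]
  have h2 : sndE (0 : E (b + (a + 1))) = 0 := ProdAux.snd_zero
  unfold Lw
  rw [h1, h2, ← ProdAux.fst_zero (m := b * 3) (n := a + 1), ← ProdAux.snd_zero (m := b * 3)
    (n := a + 1), ProdAux.pair_eta]

theorem inner_Lw {a b : ℕ} (ω : Fin b → E 3) (w : E (b + (a + 1)))
    (ξ : E (b * 3 + (a + 1))) : ⟪Lw ω w, ξ⟫ = ⟪w, Lt ω ξ⟫ := by
  rw [ProdAux.inner_split, ProdAux.inner_split w]
  unfold Lw Lt
  rw [ProdAux.fst_pair, ProdAux.snd_pair, ProdAux.fst_pair, ProdAux.snd_pair, inner_cat]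
  congr 1
  simp only [PiLp.inner_apply (𝕜 := ℝ) (f := fun _ : Fin b => ℝ)]
  refine Finset.sum_congr rfl fun j _ => ?_
  rw [real_inner_smul_left]
  simp [mul_comm]

theorem Lt_mem {a b : ℕ} {ω : Fin b → E 3} (hω : ∀ j, ‖ω j‖ = 1) {ξ : E (b * 3 + (a + 1))}
    (hξ : ξ ∈ dc a b) : Lt ω ξ ∈ (bip (b + a) : Set (E (b + (a + 1)))) := by
  obtain ⟨⟨h1, h2⟩, h3⟩ := hξ
  have hl : (Lt ω ξ : E (b + (a + 1))) (Fin.natAdd b (Fin.last a)) = sndE ξ (Fin.last a) :=
    Fin.append_right _ _ _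
  have hc : ∀ j : Fin b, (Lt ω ξ : E (b + (a + 1))) (Fin.castAdd (a + 1) j)
      = ⟪ω j, blk (fstE ξ) j⟫ := by
    intro j
    simp [Lt, ProdAux.pairE]
  have hr : ∀ i : Fin a, (Lt ω ξ : E (b + (a + 1))) (Fin.natAdd b i.castSucc)
      = sndE ξ i.castSucc := by
    intro i
    simp [Lt, ProdAux.pairE]
  refine ⟨?_, ?_⟩
  · show |(Lt ω ξ : E (b + (a + 1))) (Fin.natAdd b (Fin.last a))| ≤ 1
    rw [hl]
    exact h1
  · intro i
    show |(Lt ω ξ : E (b + (a + 1))) i.castSucc| +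
      |(Lt ω ξ : E (b + (a + 1))) (Fin.natAdd b (Fin.last a))| ≤ 1
    rw [hl]
    refine Fin.addCases (fun j => ?_) (fun j => ?_) i
    · show |(Lt ω ξ : E (b + (a + 1))) (Fin.castAdd (a + 1) j)| + _ ≤ 1
      rw [hc]
      have h4 := abs_real_inner_le_norm (ω j) (blk (fstE ξ) j)
      rw [hω j, one_mul] at h4
      linarith [h3 j]
    · show |(Lt ω ξ : E (b + (a + 1))) (Fin.natAdd b j.castSucc)| + _ ≤ 1
      rw [hr]
      exact h2 j

private theorem ty_cast (a b : ℕ) (j : Fin b) : tyab a b (Fin.castAdd a j) = true := by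
  simp [tyab]

private theorem ty_nat (a b : ℕ) (i : Fin a) : tyab a b (Fin.natAdd b i) = false := by
  simp [tyab]

theorem nb_tyab (a b : ℕ) : nb (tyab a b) = b := by
  unfold nb
  rw [Fin.sum_univ_add]
  simp [ty_cast, ty_nat]

theorem pd_tyab (a b : ℕ) : pd (tyab a b) = 3 * b + a := by
  unfold pd
  rw [Fin.sum_univ_add]
  simp [ty_cast, ty_nat, mul_comm]

theorem prod_tyab {a b : ℕ} (w : E (b + (a + 1))) :
    ∏ i : Fin (b + a), (if tyab a b i then (show E (b + a + 1) from w) i.castSucc ^ 2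
      else (1 : ℝ)) = ∏ j : Fin b, fstE w j ^ 2 := by
  rw [Fin.prod_univ_add]
  simp only [ty_cast, ty_nat, if_true]
  simp only [Bool.false_eq_true, if_false, Finset.prod_const_one, mul_one]
  rfl

end Pool.Agent.MPbd65ca.Sp
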