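import Pool.Agent.Lib.MP_bd65ca_an_S.Crd
import Pool.Agent.Lib.MP_bd65ca_an_S.BodyS

/-!
# The volume of the double cones

PROOF. `lint_big` for the indicator of `dc a b` (closed, so measurable): for `z ∈ bip a`, `t = z
last`,
the inner integral is the volume of `{v | ∀ j, ‖v j‖ ≤ 1 - |t|}`, i.e. (`Measure.pi_pi`,
`EuclideanSpace.volume_closedBall_fin_three` or `volume_ball_fin_three`)
`(ofReal (4 π / 3 * (1 - |t|) ^ 3)) ^ b`.  Then
`∫ z ∈ bip a, (1 - |t|) ^ (3 b) = ∫ t in -1..1, (2 (1 - |t|)) ^ a (1 - |t|) ^ (3 b) = 2 ^ (a + 1)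
/ (3 b + a + 1)`
as in `vol_SS`, `vol_bip` (F/Vol.lean).
-/

open MeasureTheory FourierTransform Pointwise Set Finset Polynomial Filter Topology
open scoped RealInnerProductSpace

namespace Pool.Agent.MPbd65ca.Sp

open Pool.Agent.MPbd65ca.Oct Pool.Agent.MPbd65ca.Bp

private def SV (d : ℕ) : Set (ℝ × (Fin d → ℝ)) := {p | |p.1| ≤ 1 ∧ ∀ i, |p.2 i| + |p.1| ≤ 1}

private theorem closed_SV (d : ℕ) : IsClosed (SV d) := by
  have h : SV d = {p : ℝ × (Fin d → ℝ) | |p.1| ≤ 1} ∩
      ⋂ i : Fin d, {p : ℝ × (Fin d → ℝ) | |p.2 i| + |p.1| ≤ 1} := by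
    ext x
    simp [SV]
  rw [h]
  refine IsClosed.inter (isClosed_le (by fun_prop) (by fun_prop)) ?_
  exact isClosed_iInter fun i => isClosed_le (by fun_prop) (by fun_prop)

private theorem int_pow (n : ℕ) : ∫ τ in (-1 : ℝ)..1, (1 - |τ|) ^ n = 2 / (n + 1) := by
  have hc : Continuous fun τ : ℝ => (1 - |τ|) ^ n := by fun_prop
  have h1 : ∫ τ in (-1 : ℝ)..0, (1 - |τ|) ^ n = 1 / (n + 1) := by
    have h : ∫ τ in (-1 : ℝ)..0, (1 - |τ|) ^ n = ∫ τ in (-1 : ℝ)..0, (τ + 1) ^ n := by
      refine intervalIntegral.integral_congr fun τ hτ => ?_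
      rw [Set.uIcc_of_le (by norm_num)] at hτ
      simp only [abs_of_nonpos hτ.2, sub_neg_eq_add, add_comm]
    rw [h, intervalIntegral.integral_comp_add_right (fun x => x ^ n), integral_pow]
    norm_num
  have h2 : ∫ τ in (0 : ℝ)..1, (1 - |τ|) ^ n = 1 / (n + 1) := by
    have h : ∫ τ in (0 : ℝ)..1, (1 - |τ|) ^ n = ∫ τ in (0 : ℝ)..1, (1 - τ) ^ n := by
      refine intervalIntegral.integral_congr fun τ hτ => ?_
      rw [Set.uIcc_of_le (by norm_num)] at hτ
      simp only [abs_of_nonneg hτ.1]
    rw [h, intervalIntegral.integral_comp_sub_left (fun x => x ^ n), integral_pow]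
    norm_num
  rw [← intervalIntegral.integral_add_adjacent_intervals (b := 0)
    (hc.intervalIntegrable _ _) (hc.intervalIntegrable _ _), h1, h2]
  ring

/-- The volume of the product of the balls. -/
private noncomputable def KV (b : ℕ) (τ : ℝ) : ENNReal :=
  (ENNReal.ofReal (1 - |τ|) ^ 3 * ENNReal.ofReal (Real.pi * 4 / 3)) ^ b

private theorem meas_KV (b : ℕ) : Measurable (KV b) := by
  unfold KV
  fun_prop

private theorem inner_int (a b : ℕ) (z : E (a + 1)) :
    ∫⁻ v : Fin b → E 3, (dc a b).indicator 1 (ProdAux.pairE (cat v, z)) =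
      (bip a).indicator (fun z => KV b (z (Fin.last a))) z := by
  have hmem : ∀ v : Fin b → E 3, ProdAux.pairE (cat v, z) ∈ dc a b ↔
      z ∈ bip a ∧ ∀ j, ‖v j‖ + |z (Fin.last a)| ≤ 1 := by
    intro v
    simp only [dc, Set.mem_ofPred_eq, ProdAux.snd_pair, ProdAux.fst_pair, blk_cat]
  by_cases hz : z ∈ bip a
  · rw [indicator_of_mem hz]
    have e : ∀ v : Fin b → E 3,
        (dc a b).indicator (1 : E (b * 3 + (a + 1)) → ENNReal) (ProdAux.pairE (cat v, z)) =
        (Set.pi univ fun _ : Fin b => Metric.closedBall (0 : E 3)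
          (1 - |z (Fin.last a)|)).indicator 1 v := by
      intro v
      have h : ProdAux.pairE (cat v, z) ∈ dc a b ↔ v ∈ Set.pi univ fun _ : Fin b =>
          Metric.closedBall (0 : E 3) (1 - |z (Fin.last a)|) := by
        rw [hmem]
        simp only [hz, true_and, Set.mem_pi, Set.mem_univ, true_implies,
          mem_closedBall_zero_iff]
        exact forall_congr' fun j => le_sub_iff_add_le.symm
      by_cases hv : ProdAux.pairE (cat v, z) ∈ dc a b
      · rw [indicator_of_mem hv, indicator_of_mem (h.1 hv)]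
        rfl
      · rw [indicator_of_notMem hv, indicator_of_notMem fun h' => hv (h.2 h')]
    rw [lintegral_congr e, lintegral_indicator_one
      (MeasurableSet.univ_pi fun _ => Metric.isClosed_closedBall.measurableSet), volume_pi_pi]
    simp only [EuclideanSpace.volume_closedBall_fin_three, prod_const, Finset.card_univ,
      Fintype.card_fin]
    rfl
  · rw [indicator_of_notMem hz]
    have e : ∀ v : Fin b → E 3,
        (dc a b).indicator (1 : E (b * 3 + (a + 1)) → ENNReal) (ProdAux.pairE (cat v, z)) = 0 :=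
      fun v => indicator_of_notMem (fun h => hz ((hmem v).1 h).1) _
    rw [lintegral_congr e, lintegral_zero]

private theorem int_SV (a b : ℕ) :
    ∫⁻ p, (SV a).indicator (fun p => KV b p.1) p =
      ENNReal.ofReal (2 ^ (a + 1) * (4 * Real.pi / 3) ^ b / (3 * b + a + 1)) := by
  have hm : MeasurableSet (SV a) := (closed_SV a).measurableSet
  have hK : Measurable fun p : ℝ × (Fin a → ℝ) => KV b p.1 := (meas_KV b).comp measurable_fst
  rw [Measure.volume_eq_prod, lintegral_prod _ (hK.indicator hm).aemeasurable]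
  have hsec : ∀ τ : ℝ, ∫⁻ y : Fin a → ℝ,
      (SV a).indicator (fun p => KV b p.1) (τ, y) =
      (Icc (-1 : ℝ) 1).indicator (fun τ => ENNReal.ofReal
        ((1 - |τ|) ^ (3 * b + a) * (2 ^ a * (4 * Real.pi / 3) ^ b))) τ := by
    intro τ
    have e0 : ∀ y : Fin a → ℝ, (SV a).indicator (fun p => KV b p.1) (τ, y) =
        (Prod.mk τ ⁻¹' SV a).indicator (fun _ => KV b τ) y := fun y => rfl
    rw [lintegral_congr e0, lintegral_indicator (measurable_prodMk_left hm), setLIntegral_const]
    by_cases hτ : τ ∈ Icc (-1 : ℝ) 1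
    · have hτ' : |τ| ≤ 1 := abs_le.2 hτ
      have h0 : 0 ≤ 1 - |τ| := by linarith
      rw [indicator_of_mem hτ]
      have e : Prod.mk τ ⁻¹' SV a =
          Set.pi univ (fun _ : Fin a => Icc (-(1 - |τ|)) (1 - |τ|)) := by
        ext y
        simp only [SV, Set.mem_preimage, Set.mem_ofPred_eq, Set.mem_pi, Set.mem_univ, true_implies,
          Set.mem_Icc, hτ', true_and]
        refine forall_congr' fun i => ?_
        rw [← abs_le]
        constructor
        · intro h
          linarith
        · intro h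
          linarith
      rw [e, volume_pi_pi]
      simp only [Real.volume_Icc, prod_const, Finset.card_univ, Fintype.card_fin, KV]
      rw [← ENNReal.ofReal_pow h0, ← ENNReal.ofReal_mul (by positivity),
        ← ENNReal.ofReal_pow (by positivity), ← ENNReal.ofReal_pow (by linarith),
        ← ENNReal.ofReal_mul (by positivity)]
      congr 1
      have h2 : 1 - |τ| - -(1 - |τ|) = 2 * (1 - |τ|) := by ring
      rw [h2, mul_pow, mul_pow, pow_add, pow_mul]
      ring
    · rw [indicator_of_notMem hτ]
      have e : Prod.mk τ ⁻¹' SV a = ∅ := by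
        ext y
        simp only [SV, Set.mem_preimage, Set.mem_ofPred_eq, Set.mem_empty_iff_false, iff_false]
        intro h
        exact hτ (abs_le.1 h.1)
      rw [e, measure_empty, mul_zero]
  rw [lintegral_congr hsec, lintegral_indicator measurableSet_Icc]
  have hc : Continuous fun τ : ℝ =>
      (1 - |τ|) ^ (3 * b + a) * (2 ^ a * (4 * Real.pi / 3) ^ b) := by fun_prop
  rw [← ofReal_integral_eq_lintegral_ofReal]
  · congr 1
    rw [integral_Icc_eq_integral_Ioc, ← intervalIntegral.integral_of_le (by norm_num),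
      intervalIntegral.integral_mul_const, int_pow]
    push_cast
    rw [pow_succ]
    ring
  · exact hc.continuousOn.integrableOn_compact isCompact_Icc
  · refine (ae_restrict_iff' measurableSet_Icc).2 (Eventually.of_forall fun τ hτ => ?_)
    have hτ' : |τ| ≤ 1 := abs_le.2 hτ
    have h0 : 0 ≤ 1 - |τ| := by linarith
    have hpi := Real.pi_pos
    positivity

theorem vol_dc (a b : ℕ) : volume.real (dc a b) =
    2 ^ (a + 1) * (4 * Real.pi / 3) ^ b / (3 * b + a + 1) := by
  have hd : MeasurableSet (dc a b) := (isBody_dc a b).isCompact.isClosed.measurableSet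
  have h1 : volume (dc a b) =
      ENNReal.ofReal (2 ^ (a + 1) * (4 * Real.pi / 3) ^ b / (3 * b + a + 1)) := by
    rw [← lintegral_indicator_one hd, lint_big (measurable_one.indicator hd),
      lintegral_congr (inner_int a b), ← int_SV]
    have hK : Measurable fun p : ℝ × (Fin a → ℝ) => KV b p.1 := (meas_KV b).comp measurable_fst
    have hG : Measurable ((SV a).indicator fun p => KV b p.1) :=
      hK.indicator (closed_SV a).measurableSet
    have h2 := (EuclideanSpace.volume_preserving_symm_measurableEquiv_toLp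
      (Fin (a + 1)))
    have h3 := volume_preserving_piFinSuccAbove (fun _ : Fin (a + 1) => ℝ) (Fin.last a)
    rw [← (h3.comp h2).lintegral_comp hG]
    refine lintegral_congr fun z => ?_
    have hmem : z ∈ bip a ↔ (MeasurableEquiv.piFinSuccAbove (fun _ => ℝ) (Fin.last a))
        ((MeasurableEquiv.toLp 2 (Fin (a + 1) → ℝ)).symm z) ∈ SV a := by
      simp only [bip, SV, Set.mem_ofPred_eq, MeasurableEquiv.piFinSuccAbove_apply,
        Fin.insertNthEquiv_symm_apply, Fin.removeNth_last]
      rfl
    by_cases hz : z ∈ bip a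
    · rw [indicator_of_mem hz]
      exact (indicator_of_mem (hmem.1 hz) fun p : ℝ × (Fin a → ℝ) => KV b p.1).symm
    · rw [indicator_of_notMem hz]
      exact (indicator_of_notMem (fun h => hz (hmem.2 h))
        fun p : ℝ × (Fin a → ℝ) => KV b p.1).symm
  rw [measureReal_def, h1, ENNReal.toReal_ofReal]
  have hpi := Real.pi_pos
  positivity

end Pool.Agent.MPbd65ca.Sp
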