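import Pool.Agent.Lib.MP_bd65ca_an_S.Avg
import Pool.Agent.Lib.MP_bd65ca_an_S.VolS
import Pool.Agent.Lib.MP_bd65ca_an_F.Final

/-!
# The double cones over products of segments and three-dimensional balls

PROOF. `turan_dc`: as `turan_bip` (F/Main.lean) with `dc_ineq`, `vol_dc`:
`2 ^ (3 b + a + 1) / volume.real (dc a b) = (3 b + a + 1) * (6 / π) ^ b`.
`dcone_final`: `turan_lin_eq`, `body_lin` (F/Final.lean, Z/Inv.lean).
-/

open MeasureTheory FourierTransform Pointwise Set Finset Polynomial Filter Topology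
open scoped RealInnerProductSpace

namespace Pool.Agent.MPbd65ca.Sp

open Pool.Agent.MPbd65ca.Oct Pool.Agent.MPbd65ca.Bp Pool.Agent.MPbd65ca.Zo

private theorem finS_const (a b : ℕ) : (2 : ℝ) ^ (b * 3 + (a + 1)) / volume.real (dc a b) =
    (3 * b + a + 1) * (6 / Real.pi) ^ b := by
  have hpi : Real.pi ≠ 0 := Real.pi_ne_zero
  have hd : (3 * (b : ℝ) + a + 1) ≠ 0 := by positivity
  have hv : (2 : ℝ) ^ (a + 1) * (4 * Real.pi / 3) ^ b / (3 * b + a + 1) ≠ 0 := by
    have : (0 : ℝ) < (2 : ℝ) ^ (a + 1) * (4 * Real.pi / 3) ^ b / (3 * b + a + 1) := by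
      have := Real.pi_pos
      positivity
    exact this.ne'
  have h8 : (6 / Real.pi) ^ b * (4 * Real.pi / 3) ^ b = 2 ^ (b * 3) := by
    rw [← mul_pow, mul_comm b 3, pow_mul]
    congr 1
    field_simp
    norm_num
  rw [vol_dc, div_eq_iff hv, pow_add, ← h8]
  field_simp

theorem turan_dc (a b : ℕ) :
    turan (dc a b) = 2 ^ (b * 3 + (a + 1)) / volume.real (dc a b) := by
  have hB : IsBody (dc a b) := isBody_dc a b
  refine le_antisymm ?_ ?_
  · obtain ⟨F, hF, hFi⟩ := cls_trivial hB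
    exact (turan_le_integral hF).trans hFi
  · obtain ⟨F₀, hF₀, -⟩ := cls_trivial hB
    refine le_csInf ⟨_, ⟨F₀, hF₀, rfl⟩⟩ ?_
    rintro _ ⟨F, ⟨hc, hi, h0, h1, hs⟩, rfl⟩
    simp only
    have hf0 : ∀ ξ ∉ dc a b, 𝓕 (fun w => (F w : ℂ)) ξ = 0 := fun ξ hξ => by
      by_contra hne
      exact hξ (hs (subset_tsupport _ hne))
    have h2 := h1.trans (dc_ineq hc hi h0 hf0)
    have hpi := Real.pi_pos
    have hd : (0 : ℝ) < 3 * (b : ℝ) + a + 1 := by positivity
    have h6 : (6 / Real.pi) ^ b * (Real.pi / 6) ^ b = 1 := by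
      rw [← mul_pow, div_mul_div_cancel₀ hpi.ne', div_self (by norm_num), one_pow]
    have hq : (0 : ℝ) < (3 * (b : ℝ) + a + 1) * (6 / Real.pi) ^ b := by positivity
    rw [finS_const]
    have h3 := mul_le_mul_of_nonneg_left h2 hq.le
    have h4 : (3 * (b : ℝ) + a + 1) * (6 / Real.pi) ^ b *
        ((Real.pi / 6) ^ b / (3 * b + a + 1) * ∫ x, F x) = ∫ x, F x := by
      have h5 : (3 * (b : ℝ) + a + 1) * (6 / Real.pi) ^ b *
          ((Real.pi / 6) ^ b / (3 * b + a + 1) * ∫ x, F x) =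
          ((6 / Real.pi) ^ b * (Real.pi / 6) ^ b) *
            ((3 * (b : ℝ) + a + 1) / (3 * b + a + 1)) * ∫ x, F x := by ring
      rw [h5, h6, div_self hd.ne', one_mul, one_mul]
    rwa [mul_one, h4] at h3

theorem dcone_final (a b : ℕ) (A : E (b * 3 + (a + 1)) ≃L[ℝ] E (b * 3 + (a + 1))) :
    IsBody (A '' dc a b) ∧
      turan (A '' dc a b) = 2 ^ (b * 3 + (a + 1)) / volume.real (A '' dc a b) :=
  ⟨body_lin A (isBody_dc a b), turan_lin_eq A (isBody_dc a b) (turan_dc a b)⟩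

end Pool.Agent.MPbd65ca.Sp
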