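import Pool.Agent.Lib.MP_bd65ca_an_S.Mn3
import Pool.Agent.Lib.MP_bd65ca_an_S.RSp
import Pool.Agent.Lib.MP_bd65ca_an_S.Dmp
import Pool.Agent.Lib.MP_bd65ca_an_S.Emb

/-!
# The inequality for fixed directions

PROOF. Let `d = b + a`, `δ > 0`, `Φ` from `exists_damp d hδ`, `G w = F (Lw ω w) * Φ w` on
`E (d + 1) = E (b + (a + 1))`.  By `rs_fourier` (`K = dc a b`, `L = Lw ω`, `L' = Lt ω`) `G` is
integrable and
`𝓕 G η = 0` for `η ∉ (1 + δ) • bip d`: if `ξ ∈ dc a b` then `Lt ω ξ ∈ bip d` (`Lt_mem`), so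
`η - Lt ω ξ ∉ δ • bip d` (`bip_add`).  With `c = (1 + δ)⁻¹` `main3L` applies to `w ↦ G (c • w)`
(`fourier_scale`, `c⁻¹ = 1 + δ`): `ofReal (F 0) ≤ ofReal C * ∫⁻ ofReal (G (c w) * ∏ (w j) ^ 2)`,
`C = (π ^ 2 / 3) ^ b / (3 b + a + 1)` (`nb_tyab`, `pd_tyab`, `prod_tyab`); substitute `w = c⁻¹ w'`
(`Measure.map_addHaar_smul` / `lintegral_map`): the lintegral is
`c⁻¹ ^ (d + 1 + 2 b) * ∫⁻ ofReal (G w * ∏ ...)` and `G w ≤ F (Lw ω w)`.  Let `δ → 0`
(`(1 + δ) ^ k → 1`; if the lintegral is `⊤` nothing is to prove).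
-/

open MeasureTheory FourierTransform Pointwise Set Finset Polynomial Filter Topology
open scoped RealInnerProductSpace

namespace Pool.Agent.MPbd65ca.Sp

open Pool.Agent.MPbd65ca.Oct Pool.Agent.MPbd65ca.Bp

/-- The function `w ↦ ofReal (F (Lw ω w) * ∏ (w j) ^ 2)`. -/
private noncomputable def fixH {a b : ℕ} (g : E (b + (a + 1)) → ℝ) (w : E (b + (a + 1))) :
    ENNReal := ENNReal.ofReal (g w * ∏ j : Fin b, fstE w j ^ 2)

private theorem fix_prod_nonneg {a b : ℕ} (w : E (b + (a + 1))) :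
    0 ≤ ∏ j : Fin b, fstE w j ^ 2 := Finset.prod_nonneg fun _ _ => sq_nonneg _

private theorem fix_cont {a b : ℕ} : Continuous fun w : E (b + (a + 1)) =>
    ∏ j : Fin b, fstE w j ^ 2 := by
  refine continuous_finsetProd _ fun j _ => ?_
  have h1 : Continuous (fstE : E (b + (a + 1)) → E b) := ProdAux.fst_mp
  have h2 : Continuous fun v : E b => v j := by fun_prop
  exact (h2.comp h1).pow 2

/-- Substitution `w ↦ c • w`. -/
private theorem fix_subst {a b : ℕ} {g : E (b + (a + 1)) → ℝ} (hg : Continuous g) {c : ℝ}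
    (hc : 0 < c) :
    ∫⁻ w : E (b + (a + 1)), ENNReal.ofReal (g (c • w) * ∏ j : Fin b, fstE w j ^ 2) =
      ENNReal.ofReal (c⁻¹ ^ (b + (a + 1) + 2 * b)) * ∫⁻ w, fixH g w := by
  have h1 : ∀ w : E (b + (a + 1)), ENNReal.ofReal (g (c • w) * ∏ j : Fin b, fstE w j ^ 2) =
      ENNReal.ofReal (c⁻¹ ^ (2 * b)) * fixH g (c • w) := by
    intro w
    unfold fixH
    rw [← ENNReal.ofReal_mul (by positivity)]
    congr 1
    have h2 : ∏ j : Fin b, fstE (c • w) j ^ 2 = c ^ (2 * b) * ∏ j : Fin b, fstE w j ^ 2 := by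
      rw [ProdAux.fst_smul]
      have : ∀ j : Fin b, (c • fstE w) j ^ 2 = c ^ 2 * fstE w j ^ 2 := by
        intro j
        rw [PiLp.smul_apply, smul_eq_mul, mul_pow]
      simp only [this]
      rw [Finset.prod_mul_distrib, Finset.prod_const, Finset.card_univ, Fintype.card_fin,
        ← pow_mul]
    rw [h2]
    have h3 : c⁻¹ ^ (2 * b) * c ^ (2 * b) = 1 := by
      rw [← mul_pow, inv_mul_cancel₀ hc.ne', one_pow]
    calc g (c • w) * ∏ j : Fin b, fstE w j ^ 2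
        = (c⁻¹ ^ (2 * b) * c ^ (2 * b)) * (g (c • w) * ∏ j : Fin b, fstE w j ^ 2) := by
          rw [h3, one_mul]
      _ = _ := by ring
  simp only [h1]
  have hm : Measurable (fixH g) := by
    unfold fixH
    exact ((hg.mul fix_cont).measurable).ennreal_ofReal
  have hm' : Measurable fun w : E (b + (a + 1)) => fixH g (c • w) :=
    hm.comp (measurable_const_smul c)
  rw [lintegral_const_mul _ hm']
  have h4 : ∫⁻ w : E (b + (a + 1)), fixH g (c • w) =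
      ENNReal.ofReal (c⁻¹ ^ (b + (a + 1))) * ∫⁻ w, fixH g w := by
    have h5 := Measure.map_addHaar_smul (volume : Measure (E (b + (a + 1)))) hc.ne'
    rw [finrank_euclideanSpace_fin] at h5
    have h6 : ∫⁻ w, fixH g w ∂(Measure.map (c • ·) (volume : Measure (E (b + (a + 1))))) =
        ∫⁻ w : E (b + (a + 1)), fixH g (c • w) :=
      lintegral_map hm (measurable_const_smul c)
    rw [← h6, h5, lintegral_smul_measure, smul_eq_mul]
    congr 2
    rw [abs_of_nonneg (by positivity), inv_pow]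
  rw [h4, ← mul_assoc, ← ENNReal.ofReal_mul (by positivity), ← pow_add]
  congr 3
  ring

/-- The inequality with the factor `(1 + δ) ^ k`. -/
private theorem fix_delta {a b : ℕ} (hK : IsCompact (dc a b)) {F : E (b * 3 + (a + 1)) → ℝ}
    (hc : Continuous F) (hi : Integrable F) (h0 : ∀ w, 0 ≤ F w)
    (h : ∀ ξ ∉ dc a b, 𝓕 (fun w => (F w : ℂ)) ξ = 0) {ω : Fin b → E 3} (hω : ∀ j, ‖ω j‖ = 1)
    {δ : ℝ} (hδ : 0 < δ) :
    ENNReal.ofReal (F 0) ≤ ENNReal.ofReal ((Real.pi ^ 2 / 3) ^ b / (3 * b + a + 1)) *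
      (ENNReal.ofReal ((1 + δ) ^ (b + (a + 1) + 2 * b)) *
      ∫⁻ w : E (b + (a + 1)), ENNReal.ofReal (F (Lw ω w) * ∏ j : Fin b, fstE w j ^ 2)) := by
  obtain ⟨Φ, hΦc, hΦi, hΦ01, hΦ0, hΦ⟩ : ∃ Φ : E (b + (a + 1)) → ℝ, Continuous Φ ∧
      Integrable Φ ∧ (∀ w, 0 ≤ Φ w ∧ Φ w ≤ 1) ∧ Φ 0 = 1 ∧
      ∀ ξ ∉ (δ • bip (b + a) : Set (E (b + (a + 1)))), 𝓕 (fun w => (Φ w : ℂ)) ξ = 0 :=
    exists_damp (b + a) hδ
  obtain ⟨hGi, hG⟩ := rs_fourier hK hc hi h hΦc hΦi (continuous_Lw ω) (continuous_Lt ω)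
    (inner_Lw ω)
  obtain ⟨G, hGdef⟩ : ∃ G : E (b + (a + 1)) → ℝ, G = fun w => F (Lw ω w) * Φ w := ⟨_, rfl⟩
  have hGc : Continuous G := by
    rw [hGdef]
    exact (hc.comp (continuous_Lw ω)).mul hΦc
  have hGi' : Integrable G := by
    rw [hGdef]
    exact hGi
  have hG0 : ∀ w, 0 ≤ G w := by
    intro w
    rw [hGdef]
    exact mul_nonneg (h0 _) (hΦ01 w).1
  have hGle : ∀ w, G w ≤ F (Lw ω w) := by
    intro w
    rw [hGdef]
    exact mul_le_of_le_one_right (h0 _) (hΦ01 w).2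
  have hG00 : G 0 = F 0 := by
    rw [hGdef]
    change F (Lw ω 0) * Φ 0 = F 0
    rw [hΦ0, Lw_zero, mul_one]
  have hGf : ∀ ξ ∉ ((1 + δ) • bip (b + a) : Set (E (b + (a + 1)))),
      𝓕 (fun w => (G w : ℂ)) ξ = 0 := by
    intro η hη
    rw [hGdef]
    refine hG η fun ξ hξ => hΦ _ ?_
    intro hmem
    apply hη
    have h1 := bip_add hδ (Lt_mem hω hξ) hmem
    have h2 : Lt ω ξ + (η - Lt ω ξ) = η := by abel
    have h3 : (Lt ω ξ + (η - Lt ω ξ) : E (b + (a + 1))) ∈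
        ((1 + δ) • bip (b + a) : Set (E (b + (a + 1)))) := h1
    rwa [h2] at h3
  have hc0 : (0 : ℝ) < (1 + δ)⁻¹ := by positivity
  have hsc : ∀ ξ ∉ (bip (b + a) : Set (E (b + (a + 1)))),
      𝓕 (fun w => (G ((1 + δ)⁻¹ • w) : ℂ)) ξ = 0 := by
    refine fourier_scale hc0 ?_
    rw [inv_inv]
    exact hGf
  have hmain := main3L (tyab a b) (G := fun w : E (b + a + 1) => G ((1 + δ)⁻¹ • w))
    (hGc.comp (continuous_const_smul _)) (hGi'.comp_smul hc0.ne') (fun w => hG0 _) hsc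
  rw [nb_tyab, pd_tyab] at hmain
  have e1 : G ((1 + δ)⁻¹ • (0 : E (b + a + 1))) = F 0 := by
    rw [smul_zero]
    exact hG00
  rw [e1] at hmain
  have e2 : ((3 * b + a : ℕ) : ℝ) + 1 = 3 * b + a + 1 := by push_cast; ring
  rw [e2] at hmain
  refine hmain.trans ?_
  refine mul_le_mul_right ?_ _
  have e3 : ∫⁻ w : E (b + a + 1), ENNReal.ofReal (G ((1 + δ)⁻¹ • w) *
      ∏ i, (if tyab a b i then w i.castSucc ^ 2 else 1)) =
      ∫⁻ w : E (b + (a + 1)), ENNReal.ofReal (G ((1 + δ)⁻¹ • w) *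
        ∏ j : Fin b, fstE w j ^ 2) := by
    refine lintegral_congr fun w => ?_
    exact congrArg (fun z : ℝ => ENNReal.ofReal (G ((1 + δ)⁻¹ • w) * z))
      (prod_tyab (a := a) (b := b) w)
  rw [e3, fix_subst hGc hc0, inv_inv]
  refine mul_le_mul_right ?_ _
  refine lintegral_mono fun w => ?_
  unfold fixH
  refine ENNReal.ofReal_le_ofReal ?_
  exact mul_le_mul_of_nonneg_right (hGle w) (fix_prod_nonneg w)

theorem fixdir {a b : ℕ} (hK : IsCompact (dc a b)) {F : E (b * 3 + (a + 1)) → ℝ}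
    (hc : Continuous F) (hi : Integrable F) (h0 : ∀ w, 0 ≤ F w)
    (h : ∀ ξ ∉ dc a b, 𝓕 (fun w => (F w : ℂ)) ξ = 0) {ω : Fin b → E 3} (hω : ∀ j, ‖ω j‖ = 1) :
    ENNReal.ofReal (F 0) ≤ ENNReal.ofReal ((Real.pi ^ 2 / 3) ^ b / (3 * b + a + 1)) *
      ∫⁻ w : E (b + (a + 1)), ENNReal.ofReal (F (Lw ω w) * ∏ j : Fin b, fstE w j ^ 2) := by
  obtain ⟨I, hI⟩ : ∃ I : ENNReal, I =
    ∫⁻ w : E (b + (a + 1)), ENNReal.ofReal (F (Lw ω w) * ∏ j : Fin b, fstE w j ^ 2) := ⟨_, rfl⟩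
  rw [← hI]
  have hC : (0 : ℝ) < (Real.pi ^ 2 / 3) ^ b / (3 * b + a + 1) := by positivity
  by_cases htop : I = ⊤
  · rw [htop, ENNReal.mul_top (by simpa using hC)]
    exact le_top
  · have hd : ∀ δ : ℝ, 0 < δ → ENNReal.ofReal (F 0) ≤
        ENNReal.ofReal ((Real.pi ^ 2 / 3) ^ b / (3 * b + a + 1)) *
          (ENNReal.ofReal ((1 + δ) ^ (b + (a + 1) + 2 * b)) * I) := by
      intro δ hδ
      rw [hI]
      exact fix_delta hK hc hi h0 h hω hδ
    have h1 : Tendsto (fun δ : ℝ => ENNReal.ofReal ((Real.pi ^ 2 / 3) ^ b / (3 * b + a + 1)) *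
        (ENNReal.ofReal ((1 + δ) ^ (b + (a + 1) + 2 * b)) * I)) (𝓝[>] 0)
        (𝓝 (ENNReal.ofReal ((Real.pi ^ 2 / 3) ^ b / (3 * b + a + 1)) * I)) := by
      have h2 : Tendsto (fun δ : ℝ => (1 + δ) ^ (b + (a + 1) + 2 * b)) (𝓝[>] 0) (𝓝 1) := by
        have h3 : Continuous fun δ : ℝ => (1 + δ) ^ (b + (a + 1) + 2 * b) := by fun_prop
        have h4 := h3.tendsto 0
        rw [add_zero, one_pow] at h4
        exact h4.mono_left nhdsWithin_le_nhds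
      have h5 := (ENNReal.continuous_ofReal.tendsto 1).comp h2
      rw [ENNReal.ofReal_one] at h5
      have h6 := ENNReal.Tendsto.mul_const (b := I) h5 (Or.inr htop)
      rw [one_mul] at h6
      exact ENNReal.Tendsto.const_mul h6 (Or.inr ENNReal.ofReal_ne_top)
    refine ge_of_tendsto h1 ?_
    filter_upwards [self_mem_nhdsWithin] with δ hδ
    exact hd δ hδ

end Pool.Agent.MPbd65ca.Sp
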