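import Pool.Agent.Lib.MP_bd65ca_an_S.TDm

/-!
# The even part in the first variable is a polynomial in the cosine

PROOF. With the coefficients `a k τ` of `T3 N f` let
`A a' = ∑ k, ∑ τ, C (2 * a k τ * e^{i τ s a'}) * Polynomial.Chebyshev.T ℂ k` (sums over the same
`Ioo`).
`T ℂ k` at `cos w` is `cos (k w)` (`Polynomial.Chebyshev.T_complex_cos`), `e^{i k w} + e^{-i k w}
= 2 cos (k w)`.
The coefficient `i` of `T ℂ k` vanishes if `i > |k|` (`natDegree_T`), so in the coefficient `i` of
`A`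
only `|τ| ≤ 2 N - 4 - |k| ≤ 2 N - 4 - i` occur: `TD_exp`, `Submodule.sum_mem`, `smul_mem`.
`natDegree`: `|k| ≤ 2 N - 4` when `a k τ ≠ 0`.
-/

open MeasureTheory FourierTransform Pointwise Set Finset Polynomial
open scoped RealInnerProductSpace

namespace Pool.Agent.MPbd65ca.Sp

open Pool.Agent.MPbd65ca.Oct Pool.Agent.MPbd65ca.Bp

theorem exists_Fp {N : ℕ} (hN : 2 ≤ N) {f : ℝ → ℝ → ℝ} (hf : T3 N f) {α : Type*} (s : α → ℝ) :
    ∃ A : α → ℂ[X], (∀ a, (A a).natDegree ≤ 2 * N - 4) ∧
      (∀ i : ℕ, (fun a => (A a).coeff i) ∈ TD s (2 * (N : ℤ) - 4 - i)) ∧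
      ∀ a (w : ℝ), (A a).eval ((Real.cos w : ℝ) : ℂ) =
        ((f w (s a) + f (-w) (s a) : ℝ) : ℂ) := by
  obtain ⟨c, hc, hf⟩ := hf
  let A : α → ℂ[X] := fun a => ∑ k ∈ Ioo (-(2 * N : ℤ)) (2 * N), ∑ τ ∈ Ioo (-(2 * N : ℤ)) (2 * N),
    C (2 * c k τ * Complex.exp (Complex.I * (τ * s a))) * Polynomial.Chebyshev.T ℂ k
  refine ⟨A, fun a => ?_, fun i => ?_, fun a w => ?_⟩
  · refine natDegree_sum_le_of_forall_le _ _ fun k _ =>
      natDegree_sum_le_of_forall_le _ _ fun τ _ => ?_
    by_cases h : 2 * (N : ℤ) - 4 < |k| + |τ|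
    · rw [hc k τ h]
      simp
    · refine (natDegree_C_mul_le _ _).trans ?_
      rw [Polynomial.Chebyshev.natDegree_T]
      have h1 := abs_nonneg τ
      have h2 : ((k.natAbs : ℕ) : ℤ) = |k| := Int.natCast_natAbs k
      omega
  · have e : (fun a => (A a).coeff i) =
        ∑ k ∈ Ioo (-(2 * N : ℤ)) (2 * N), ∑ τ ∈ Ioo (-(2 * N : ℤ)) (2 * N),
          (2 * c k τ * (Polynomial.Chebyshev.T ℂ k).coeff i) •
            (fun a => Complex.exp (Complex.I * (τ * s a))) := by
      funext a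
      simp only [A, finsetSum_coeff, coeff_C_mul, Finset.sum_apply, Pi.smul_apply, smul_eq_mul]
      refine Finset.sum_congr rfl fun k _ => Finset.sum_congr rfl fun τ _ => ?_
      ring
    rw [e]
    refine Submodule.sum_mem _ fun k _ => Submodule.sum_mem _ fun τ _ => ?_
    by_cases h : 2 * (N : ℤ) - 4 < |k| + |τ|
    · rw [hc k τ h, mul_zero, zero_mul, zero_smul]
      exact Submodule.zero_mem _
    · by_cases h' : k.natAbs < i
      · rw [coeff_eq_zero_of_natDegree_lt (by rw [Polynomial.Chebyshev.natDegree_T]; exact h'),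
          mul_zero, zero_smul]
        exact Submodule.zero_mem _
      · refine Submodule.smul_mem _ _ (TD_exp ?_)
        have h2 : ((k.natAbs : ℕ) : ℤ) = |k| := Int.natCast_natAbs k
        omega
  · have e1 : ((Real.cos w : ℝ) : ℂ) = Complex.cos (w : ℂ) := Complex.ofReal_cos w
    rw [Complex.ofReal_add, hf w (s a), hf (-w) (s a), ← Finset.sum_add_distrib]
    simp only [A, eval_finsetSum, eval_mul, eval_C, e1, Polynomial.Chebyshev.T_complex_cos]
    refine Finset.sum_congr rfl fun k _ => ?_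
    rw [← Finset.sum_add_distrib]
    refine Finset.sum_congr rfl fun τ _ => ?_
    rw [Complex.cos, ← mul_add]
    have e2 : Complex.exp (Complex.I * (k * w + τ * s a)) =
        Complex.exp (Complex.I * (τ * s a)) * Complex.exp (k * w * Complex.I) := by
      rw [← Complex.exp_add]
      congr 1
      ring
    have e3 : Complex.exp (Complex.I * (k * ((-w : ℝ) : ℂ) + τ * s a)) =
        Complex.exp (Complex.I * (τ * s a)) * Complex.exp (-(k * w) * Complex.I) := by
      rw [← Complex.exp_add]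
      congr 1
      push_cast
      ring
    rw [e2, e3]
    ring

end Pool.Agent.MPbd65ca.Sp
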