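import Pool.Agent.Lib.MP_bd65ca_an_S.Defs
import Pool.Agent.Lib.MP_bd65ca_an_F.PFc

/-!
# The weighted grid sum of the periodization

`N = n + 4`, `m = 2 (n + 2)`, so the frequencies `j` of `Dk m` satisfy `|j| ≤ 2 N - 5`.

PROOF. `grid_one`: as `grid` in F/PFc.lean (only `|j| < 2 N` is used).  `grid_sq`:
`sin θ ^ 2 = (1 - cos (2 θ)) / 2`; `∑_{par t = 0} cos (K sg t + φ)` is `2 N cos φ` if `K = 0` and
`0` for
`0 < |K| < 2 N` (`sum_par`, `csum_phase`), used for `K = j`, `j + 2`, `j - 2` (`|K| ≤ 2 N - 3`):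
`∑ sin ^ 2 Dk = N - (N / 2) (2 cos (2 y)) = N (1 - cos 2 y) = 2 N sin y ^ 2`
(`j = ± 2` do occur in `Dk m`, `m ≥ 4`).
`gsM_PF`: as `PF_grid`: interchange the finite sums with the integral (`PF_int`), factor with
`Finset.prod_univ_sum` (`Fintype.piFinset_univ`): for each coordinate
`∑_t wt N (ty i) t * Dk m (sg N t - y) = 2 N` if `ty i = false`, `sin y ^ 2 / N` if `ty i = true`.
-/

open MeasureTheory FourierTransform Pointwise Set Finset Polynomial
open scoped RealInnerProductSpace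

namespace Pool.Agent.MPbd65ca.Sp

open Pool.Agent.MPbd65ca.Oct Pool.Agent.MPbd65ca.Bp

open PFcAux

private theorem GrP_cs (N : ℕ) [NeZero N] (c : ZMod 2) (K : ℤ) (hK : |K| < 2 * N) (φ : ℝ) :
    ∑ k with par N k = c, Real.cos (K * sg N k + φ) =
      if K = 0 then 2 * (N : ℝ) * Real.cos φ else 0 := by
  have hN : 0 < N := Nat.pos_of_ne_zero (NeZero.ne N)
  have hN' : (N : ℝ) ≠ 0 := by exact_mod_cast hN.ne'
  have hc : c.val < 2 := ZMod.val_lt c
  rw [sum_par]
  split_ifs with h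
  · subst h
    simp
  · have hs : ∀ l ∈ Finset.range (2 * N), sg N ((2 * l + c.val : ℕ) : ZMod (4 * N)) =
        Real.pi * l / N + Real.pi * c.val / (2 * N) := by
      intro l hl
      rw [Finset.mem_range] at hl
      unfold sg
      rw [ZMod.val_cast_of_lt (by omega)]
      push_cast
      field_simp
    have h1 : ¬ (2 * N : ℤ) ∣ K := fun hd => h (Int.eq_zero_of_abs_lt_dvd hd hK)
    rw [← csum_phase hN h1 (K * (Real.pi * c.val / (2 * N)) + φ)]
    refine Finset.sum_congr rfl fun l hl => ?_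
    rw [hs l hl]
    congr 1
    ring

theorem grid_one (n : ℕ) (c : ZMod 2) (y : ℝ) :
    ∑ k with par (n + 4) k = c, Dk (2 * (n + 2)) (sg (n + 4) k - y) = 2 * ((n + 4 : ℕ) : ℝ) := by
  unfold Dk
  rw [Finset.sum_comm, Finset.sum_eq_single (0 : ℤ)]
  · have h := GrP_cs (n + 4) c 0 (by simp; omega) 0
    simp only [Int.cast_zero, zero_mul, zero_add, if_true, Real.cos_zero, mul_one] at h
    simp only [Int.cast_zero, zero_mul, Real.cos_zero]
    exact h
  · intro j hj hj0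
    rw [Finset.mem_Ioo] at hj
    have h := GrP_cs (n + 4) c j (by rw [abs_lt]; push_cast at hj ⊢; constructor <;> omega)
      (-(j * y))
    rw [if_neg hj0] at h
    rw [← h]
    refine Finset.sum_congr rfl fun k _ => ?_
    congr 1
    ring
  · intro h
    exact absurd (by rw [Finset.mem_Ioo]; push_cast; omega) h

private theorem GrP_trig (θ y : ℝ) (j : ℤ) : Real.sin θ ^ 2 * Real.cos (j * (θ - y)) =
    1 / 2 * Real.cos (j * θ + -(j * y)) - 1 / 4 * Real.cos (((j + 2 : ℤ) : ℝ) * θ + -(j * y)) -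
      1 / 4 * Real.cos (((j - 2 : ℤ) : ℝ) * θ + -(j * y)) := by
  have h1 : (j : ℝ) * (θ - y) = j * θ + -(j * y) := by ring
  have h2 : ((j + 2 : ℤ) : ℝ) * θ + -(j * y) = (j * θ + -(j * y)) + 2 * θ := by
    push_cast
    ring
  have h3 : ((j - 2 : ℤ) : ℝ) * θ + -(j * y) = (j * θ + -(j * y)) - 2 * θ := by
    push_cast
    ring
  rw [h1, h2, h3, Real.cos_add _ (2 * θ), Real.cos_sub _ (2 * θ), Real.cos_two_mul,
    Real.sin_sq]
  ring

theorem grid_sq (n : ℕ) (y : ℝ) :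
    ∑ k with par (n + 4) k = 0, Real.sin (sg (n + 4) k) ^ 2 *
      Dk (2 * (n + 2)) (sg (n + 4) k - y) = 2 * ((n + 4 : ℕ) : ℝ) * Real.sin y ^ 2 := by
  have h1 : ∀ k : ZMod (4 * (n + 4)), Real.sin (sg (n + 4) k) ^ 2 *
      Dk (2 * (n + 2)) (sg (n + 4) k - y) =
      ∑ j ∈ Finset.Ioo (-((2 * (n + 2) : ℕ) : ℤ)) ((2 * (n + 2) : ℕ) : ℤ),
        (1 / 2 * Real.cos (j * sg (n + 4) k + -(j * y)) -
          1 / 4 * Real.cos (((j + 2 : ℤ) : ℝ) * sg (n + 4) k + -(j * y)) -
          1 / 4 * Real.cos (((j - 2 : ℤ) : ℝ) * sg (n + 4) k + -(j * y))) := by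
    intro k
    unfold Dk
    rw [Finset.mul_sum]
    exact Finset.sum_congr rfl fun j _ => GrP_trig _ _ _
  rw [Finset.sum_congr rfl fun k _ => h1 k, Finset.sum_comm]
  have h2 : ∀ j ∈ Finset.Ioo (-((2 * (n + 2) : ℕ) : ℤ)) ((2 * (n + 2) : ℕ) : ℤ),
      ∑ k with par (n + 4) k = 0, (1 / 2 * Real.cos (j * sg (n + 4) k + -(j * y)) -
          1 / 4 * Real.cos (((j + 2 : ℤ) : ℝ) * sg (n + 4) k + -(j * y)) -
          1 / 4 * Real.cos (((j - 2 : ℤ) : ℝ) * sg (n + 4) k + -(j * y))) =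
      1 / 2 * (if j = 0 then 2 * ((n + 4 : ℕ) : ℝ) * Real.cos (-(j * y)) else 0) -
        1 / 4 * (if j = -2 then 2 * ((n + 4 : ℕ) : ℝ) * Real.cos (-(j * y)) else 0) -
        1 / 4 * (if j = 2 then 2 * ((n + 4 : ℕ) : ℝ) * Real.cos (-(j * y)) else 0) := by
    intro j hj
    rw [Finset.mem_Ioo] at hj
    push_cast at hj
    rw [Finset.sum_sub_distrib, Finset.sum_sub_distrib, ← Finset.mul_sum, ← Finset.mul_sum,
      ← Finset.mul_sum, GrP_cs (n + 4) 0 j (by rw [abs_lt]; push_cast; constructor <;> omega),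
      GrP_cs (n + 4) 0 (j + 2) (by rw [abs_lt]; push_cast; constructor <;> omega),
      GrP_cs (n + 4) 0 (j - 2) (by rw [abs_lt]; push_cast; constructor <;> omega)]
    have e1 : (j + 2 = 0) = (j = -2) := propext ⟨fun h => by omega, fun h => by omega⟩
    have e2 : (j - 2 = 0) = (j = 2) := propext ⟨fun h => by omega, fun h => by omega⟩
    simp only [e1, e2]
  rw [Finset.sum_congr rfl h2, Finset.sum_sub_distrib, Finset.sum_sub_distrib,
    ← Finset.mul_sum, ← Finset.mul_sum, ← Finset.mul_sum,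
    Finset.sum_ite_eq', Finset.sum_ite_eq', Finset.sum_ite_eq',
    if_pos (by rw [Finset.mem_Ioo]; push_cast; constructor <;> omega),
    if_pos (by rw [Finset.mem_Ioo]; push_cast; constructor <;> omega),
    if_pos (by rw [Finset.mem_Ioo]; push_cast; constructor <;> omega)]
  have h3 : Real.cos (-(((-2 : ℤ) : ℝ) * y)) = Real.cos (2 * y) := by
    congr 1
    push_cast
    ring
  have h4 : Real.cos (-(((2 : ℤ) : ℝ) * y)) = Real.cos (2 * y) := by
    rw [Real.cos_neg]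
    congr 1
  rw [h3, h4, Real.cos_two_mul, Real.sin_sq]
  simp only [Int.cast_zero, zero_mul, neg_zero, Real.cos_zero]
  ring

private theorem GrP_wt (n : ℕ) (b : Bool) (y : ℝ) :
    ∑ t, wt (n + 4) b t * Dk (2 * (n + 2)) (sg (n + 4) t - y) =
      (if b then 1 / ((n + 4 : ℕ) : ℝ) else 2 * ((n + 4 : ℕ) : ℝ)) *
        (if b then Real.sin y ^ 2 else 1) := by
  have hN : ((n + 4 : ℕ) : ℝ) ≠ 0 := by positivity
  cases b with
  | false =>
    have h := grid_one n 1 y
    rw [Finset.sum_filter] at h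
    simp only [wt, Bool.false_eq_true, if_false, mul_one]
    rw [← h]
    refine Finset.sum_congr rfl fun t _ => ?_
    split_ifs <;> simp
  | true =>
    have h := grid_sq n y
    rw [Finset.sum_filter] at h
    simp only [wt, if_true]
    have e : 1 / ((n + 4 : ℕ) : ℝ) * Real.sin y ^ 2 =
        1 / (2 * ((n + 4 : ℕ) : ℝ) ^ 2) * (2 * ((n + 4 : ℕ) : ℝ) * Real.sin y ^ 2) := by
      field_simp
    rw [e, ← h, Finset.mul_sum]
    refine Finset.sum_congr rfl fun t _ => ?_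
    split_ifs
    · ring
    · ring

theorem gsM_PF {d n : ℕ} {F : E (d + 1) → ℝ} (hF : Integrable F) (ty : Fin d → Bool)
    (c : ZMod 2) : gsM d (n + 4) ty (PF d (n + 2) F) c =
      2 * ((n + 4 : ℕ) : ℝ) *
        (∏ i, if ty i then 1 / ((n + 4 : ℕ) : ℝ) else 2 * ((n + 4 : ℕ) : ℝ)) *
        ∫ w, F w * ∏ i, (if ty i then
          Real.sin (2 * Real.pi / (2 * ((n + 2 : ℕ) : ℝ) - 1) * w i.castSucc) ^ 2 else 1) := by
  unfold gsM
  have h1 : ∀ X : Fin d → ZMod (4 * (n + 4)), (∏ i, wt (n + 4) (ty i) (X i)) *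
      ∑ k with par (n + 4) k = c, PF d (n + 2) F (fun i => sg (n + 4) (X i)) (sg (n + 4) k) =
      ∫ w, F w * ((∏ i, wt (n + 4) (ty i) (X i) * Dk (2 * (n + 2)) (sg (n + 4) (X i) -
        2 * Real.pi / (2 * ((n + 2 : ℕ) : ℝ) - 1) * w i.castSucc)) *
        (2 * ((n + 4 : ℕ) : ℝ))) := by
    intro X
    unfold PF
    rw [← integral_finsetSum _ fun k _ => PF_int hF _ _, ← integral_const_mul]
    refine integral_congr_ae (ae_of_all _ fun w => ?_)
    simp only
    rw [← grid_one n c (2 * Real.pi / (2 * ((n + 2 : ℕ) : ℝ) - 1) * w (Fin.last d)),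
      Finset.prod_mul_distrib, Finset.mul_sum, Finset.mul_sum, Finset.mul_sum]
    refine Finset.sum_congr rfl fun k _ => ?_
    ring
  rw [Finset.sum_congr rfl fun X _ => h1 X, ← integral_finsetSum, ← integral_const_mul]
  · refine integral_congr_ae (ae_of_all _ fun w => ?_)
    simp only
    rw [← Finset.mul_sum, ← Finset.sum_mul]
    have h2 := Finset.prod_univ_sum (fun _ : Fin d => (Finset.univ : Finset (ZMod (4 * (n + 4)))))
      (fun i t => wt (n + 4) (ty i) t * Dk (2 * (n + 2)) (sg (n + 4) t -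
        2 * Real.pi / (2 * ((n + 2 : ℕ) : ℝ) - 1) * w i.castSucc))
    rw [Fintype.piFinset_univ] at h2
    rw [← h2]
    simp only [GrP_wt]
    rw [Finset.prod_mul_distrib]
    ring
  · intro X _
    have h3 : ∀ w : E (d + 1), F w * ((∏ i, wt (n + 4) (ty i) (X i) * Dk (2 * (n + 2))
        (sg (n + 4) (X i) - 2 * Real.pi / (2 * ((n + 2 : ℕ) : ℝ) - 1) * w i.castSucc)) *
        (2 * ((n + 4 : ℕ) : ℝ))) = (∏ i, wt (n + 4) (ty i) (X i)) *
        ∑ k with par (n + 4) k = c, F w * ((∏ i, Dk (2 * (n + 2)) (sg (n + 4) (X i) -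
          2 * Real.pi / (2 * ((n + 2 : ℕ) : ℝ) - 1) * w i.castSucc)) * Dk (2 * (n + 2))
          (sg (n + 4) k - 2 * Real.pi / (2 * ((n + 2 : ℕ) : ℝ) - 1) * w (Fin.last d))) := by
      intro w
      rw [← grid_one n c (2 * Real.pi / (2 * ((n + 2 : ℕ) : ℝ) - 1) * w (Fin.last d)),
        Finset.prod_mul_distrib, Finset.mul_sum, Finset.mul_sum, Finset.mul_sum]
      refine Finset.sum_congr rfl fun k _ => ?_
      ring
    simp only [h3]
    exact (integrable_finsetSum _ fun k _ => PF_int hF _ _).const_mul _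

end Pool.Agent.MPbd65ca.Sp
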