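import Pool.Agent.Lib.MP_bd65ca_an_S.TDm
import Pool.Agent.Lib.MP_bd65ca_an_S.CT

/-!
# The coefficients of `Hp` and `Jp` are trigonometric polynomials in the parameter

PROOF. `Polynomial.coeff_divByMonic_X_sub_C`: the coefficient `i` of `p /ₘ (X - C c)` is
`∑ j ∈ Icc (i + 1) p.natDegree, c ^ (j - (i + 1)) * p.coeff j`.  For `p = TT N - C _` of degree
`≤ N` the coefficient `i` of `Hq N c` is `Q_i(c)` with a polynomial `Q_i` (not depending on `c`) of
degree `≤ N - 1 - i` (zero if `i ≥ N`): here the coefficients `j ≥ i + 1 ≥ 1` of `p` are those of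
`TT N`.  So `Hq_TD` by `TD_poly` (or `TD_mul`, `Submodule.sum_mem`, with `c = cos (s a - θ)`).
`Hp_TD`: `coeff_derivative`.  `Jp_TD`: again `coeff_divByMonic_X_sub_C` with `p = Hq N c - C _`:
`∑ j ∈ Icc (i + 1) (N - 1), c ^ (j - (i + 1)) * (Hq N c).coeff j` (extend the sum to `N - 1` with
`coeff_eq_zero_of_natDegree_lt`), each term lies in `TD (j - i - 1 + N - 1 - j)`.
-/

open MeasureTheory FourierTransform Pointwise Set Finset Polynomial
open scoped RealInnerProductSpace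

namespace Pool.Agent.MPbd65ca.Sp

open Pool.Agent.MPbd65ca.Oct Pool.Agent.MPbd65ca.Bp

variable {α : Type*} {s : α → ℝ}

private theorem HTD_coeff {M : ℕ} (p : ℝ[X]) (hp : p.natDegree ≤ M) (c : ℝ) (n : ℕ) :
    (p /ₘ (X - C c)).coeff n = ∑ j ∈ Finset.Icc (n + 1) M, c ^ (j - (n + 1)) * p.coeff j := by
  rw [coeff_divByMonic_X_sub_C]
  refine Finset.sum_subset (Finset.Icc_subset_Icc le_rfl hp) ?_
  intro j hj hj'
  rw [Finset.mem_Icc] at hj hj'
  rw [coeff_eq_zero_of_natDegree_lt (by omega), mul_zero]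

private theorem HTD_TTdeg (N : ℕ) : (TT N).natDegree ≤ N := by
  have h : (TT N).natDegree = N := by
    unfold TT
    exact Polynomial.Chebyshev.natDegree_T ℝ (N : ℤ)
  exact h.le

private theorem HTD_pow (θ : ℝ) (k : ℕ) :
    (fun a => ((Real.cos (s a - θ) ^ k : ℝ) : ℂ)) ∈ TD s (k : ℤ) := by
  have h := TD_poly (s := s) (X ^ k : ℝ[X]) θ (d := (k : ℤ)) (by rw [natDegree_X_pow])
  have e : (fun a => ((Real.cos (s a - θ) ^ k : ℝ) : ℂ)) =
      fun a => (((X ^ k : ℝ[X]).eval (Real.cos (s a - θ)) : ℝ) : ℂ) := by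
    funext a
    rw [eval_pow, eval_X]
  rw [e]
  exact h

theorem Hq_TD (N : ℕ) (θ : ℝ) (i : ℕ) :
    (fun a => (((Hq N (Real.cos (s a - θ))).coeff i : ℝ) : ℂ)) ∈ TD s ((N : ℤ) - 1 - i) := by
  have e : (fun a => (((Hq N (Real.cos (s a - θ))).coeff i : ℝ) : ℂ)) =
      ∑ j ∈ Finset.Icc (i + 1) N, (((TT N).coeff j : ℝ) : ℂ) •
        fun a => ((Real.cos (s a - θ) ^ (j - (i + 1)) : ℝ) : ℂ) := by
    funext a
    rw [Finset.sum_apply]
    unfold Hq
    rw [HTD_coeff (M := N) _ ((natDegree_sub_C).le.trans (HTD_TTdeg N)), Complex.ofReal_sum]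
    refine Finset.sum_congr rfl fun j hj => ?_
    rw [Finset.mem_Icc] at hj
    rw [coeff_sub, coeff_C_ne_zero (by omega), sub_zero, Complex.ofReal_mul, mul_comm]
    rfl
  rw [e]
  refine Submodule.sum_mem _ fun j hj => ?_
  rw [Finset.mem_Icc] at hj
  refine Submodule.smul_mem _ _ (TD_mono ?_ (HTD_pow θ (j - (i + 1))))
  omega

theorem Hp_TD (N : ℕ) (θ : ℝ) (i : ℕ) :
    (fun a => (((Hp N (Real.cos (s a - θ))).coeff i : ℝ) : ℂ)) ∈ TD s ((N : ℤ) - 2 - i) := by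
  have h := Hq_TD (s := s) N θ (i + 1)
  have e : (fun a => (((Hp N (Real.cos (s a - θ))).coeff i : ℝ) : ℂ)) =
      ((i : ℂ) + 1) • fun a => (((Hq N (Real.cos (s a - θ))).coeff (i + 1) : ℝ) : ℂ) := by
    funext a
    unfold Hp
    rw [coeff_derivative]
    push_cast
    rw [mul_comm]
    rfl
  rw [e]
  refine Submodule.smul_mem _ _ (TD_mono ?_ h)
  push_cast
  omega

theorem Jp_TD (N : ℕ) (θ : ℝ) (i : ℕ) :
    (fun a => (((Jp N (Real.cos (s a - θ))).coeff i : ℝ) : ℂ)) ∈ TD s ((N : ℤ) - 2 - i) := by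
  have e : (fun a => (((Jp N (Real.cos (s a - θ))).coeff i : ℝ) : ℂ)) =
      ∑ j ∈ Finset.Icc (i + 1) (N - 1), fun a =>
        ((Real.cos (s a - θ) ^ (j - (i + 1)) : ℝ) : ℂ) *
          (((Hq N (Real.cos (s a - θ))).coeff j : ℝ) : ℂ) := by
    funext a
    rw [Finset.sum_apply]
    unfold Jp
    rw [HTD_coeff (M := N - 1) _ ((natDegree_sub_C).le.trans (Hq_natDegree N _)),
      Complex.ofReal_sum]
    refine Finset.sum_congr rfl fun j hj => ?_
    rw [Finset.mem_Icc] at hj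
    rw [coeff_sub, coeff_C_ne_zero (by omega), sub_zero, Complex.ofReal_mul]
  rw [e]
  refine Submodule.sum_mem _ fun j hj => ?_
  rw [Finset.mem_Icc] at hj
  refine TD_mono ?_ (TD_mul (HTD_pow θ (j - (i + 1))) (Hq_TD N θ j))
  omega

end Pool.Agent.MPbd65ca.Sp
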