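import Pool.Agent.Lib.MP_bd65ca_an_S.Val

/-!
# The kernel at the origin

Let `σ = sg N y`, `y` even, `c = cos σ`, `ε = cos (N σ)`, `r n = |N - n|`, `f n = (r n ^ 3 - r n)
/ 3`;
all sums over `n` modulo `2 N` (`2 N σ ∈ 2 π ℤ`, `f` and `r` extend `2 N`-periodically; with
`range (2 N)`: `f 0 = f (2 N)` etc.).

PROOF. Summation by parts twice: `2 cos σ cos (n σ) = cos ((n + 1) σ) + cos ((n - 1) σ)`.
`(2 - 2 c) ∑ r n cos (n σ) = 2 - 2 ε` (the second difference `2 r n - r (n-1) - r (n+1)` is `2` at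
`n = 0`, `-2` at `n = N`, else `0`), and
`(2 - 2 c) ∑ f n cos (n σ) = 2 N ^ 2 - 2 ∑ r n cos (n σ)` (the second difference of `f` is
`2 (N ^ 2 - N)` at `n = 0` and `-2 r n` else).  So for `c ≠ 1` (`y ≠ 0`):
`k3 N y = (N ^ 2 - (1 - ε) / (1 - c)) / (1 - c)`, and `Hp_sq` at `x = 1` (`UU N` at `1` is `N`,
`TT N` at
`1` is `1`: `Polynomial.Chebyshev.U_eval_one`, `T_eval_one`; `(TT N).eval c = ε`) is the same.
`y = 0`: `c = 1`: `k3 N 0 = ∑ f n = N ^ 2 (N ^ 2 - 1) / 6`, and `Hp_self` at `1`: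
`T''(1) / 2 = N ^ 2 (N ^ 2 - 1) / 6` (`T'' = N U'`;
`Polynomial.Chebyshev.derivative_U_eval_one_eq_div` or
`one_sub_X_sq...` differentiated; any way).
`k3_nonneg`: `y ≠ 0`: `1 - ε ≤ N ^ 2 (1 - c)` (`|sin (N u)| ≤ N |sin u|`, `u = σ / 2`; by
induction on
`N`, or because `∑ r n cos (n σ) ≤ ∑ r n = N ^ 2`); `y = 0`: terms `≥ 0` (`r n` is an integer:
`r ^ 3 - r = r (r ^ 2 - 1) ≥ 0`).  `k3_zero_pos`: the term `n = 0` is `(N ^ 3 - N) / 3 > 0`.
-/

open MeasureTheory FourierTransform Pointwise Set Finset Polynomial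
open scoped RealInnerProductSpace

namespace Pool.Agent.MPbd65ca.Sp

open Pool.Agent.MPbd65ca.Oct Pool.Agent.MPbd65ca.Bp

variable {N : ℕ} [NeZero N]

/-- The weights. -/
private noncomputable def g3 (k : ℕ) : ℝ := ((k : ℝ) ^ 3 - k) / 3

/-- The kernel as a sum over half of the period. -/
private noncomputable def QQ (σ : ℝ) (n : ℕ) : ℝ :=
  g3 n + 2 * ∑ k ∈ range n, g3 k * Real.cos (((n : ℝ) - k) * σ)

private theorem QQ_rec (σ : ℝ) (n : ℕ) : QQ σ (n + 2) =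
    2 * Real.cos σ * QQ σ (n + 1) - QQ σ n + 2 * ((n : ℝ) + 1) ^ 2 := by
  have h1 : ∀ k : ℕ, g3 k * Real.cos ((((n + 2 : ℕ) : ℝ) - k) * σ) =
      2 * Real.cos σ * (g3 k * Real.cos ((((n + 1 : ℕ) : ℝ) - k) * σ)) -
        g3 k * Real.cos (((n : ℝ) - k) * σ) := by
    intro k
    have e1 : (((n + 2 : ℕ) : ℝ) - k) * σ = (((n + 1 : ℕ) : ℝ) - k) * σ + σ := by
      push_cast
      ring
    have e2 : ((n : ℝ) - k) * σ = (((n + 1 : ℕ) : ℝ) - k) * σ - σ := by
      push_cast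
      ring
    rw [e1, e2, Real.cos_add, Real.cos_sub]
    ring
  have h2 : ∑ k ∈ range n, g3 k * Real.cos ((((n + 2 : ℕ) : ℝ) - k) * σ) =
      2 * Real.cos σ * ∑ k ∈ range n, g3 k * Real.cos ((((n + 1 : ℕ) : ℝ) - k) * σ) -
        ∑ k ∈ range n, g3 k * Real.cos (((n : ℝ) - k) * σ) := by
    rw [Finset.mul_sum, ← Finset.sum_sub_distrib]
    exact Finset.sum_congr rfl fun k _ => h1 k
  have h3 : Real.cos ((((n + 2 : ℕ) : ℝ) - n) * σ) = 2 * Real.cos σ ^ 2 - 1 := by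
    rw [← Real.cos_two_mul]
    congr 1
    push_cast
    ring
  have h4 : Real.cos ((((n + 2 : ℕ) : ℝ) - (n + 1 : ℕ)) * σ) = Real.cos σ := by
    congr 1
    push_cast
    ring
  have h5 : Real.cos ((((n + 1 : ℕ) : ℝ) - n) * σ) = Real.cos σ := by
    congr 1
    push_cast
    ring
  unfold QQ
  rw [Finset.sum_range_succ, Finset.sum_range_succ, Finset.sum_range_succ, h2, h3, h4, h5]
  unfold g3
  push_cast
  ring

private theorem QQ_zero (σ : ℝ) : QQ σ 0 = 0 := by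
  simp [QQ, g3]

private theorem QQ_one (σ : ℝ) : QQ σ 1 = 0 := by
  simp [QQ, g3]

private theorem k3_int (z : ℤ) : ∃ j : ℤ, sg N (z : ZMod (4 * N)) =
    Real.pi * z / (2 * N) + j * (2 * Real.pi) := by
  have hN : (0 : ℝ) < N := by
    have := NeZero.pos N
    exact_mod_cast this
  refine ⟨-(z / ((4 * N : ℕ) : ℤ)), ?_⟩
  have h1 : (((z : ZMod (4 * N)).val : ℤ)) = z % ((4 * N : ℕ) : ℤ) := ZMod.val_intCast z
  have h2 : (((z : ZMod (4 * N)).val : ℤ)) = z - ((4 * N : ℕ) : ℤ) * (z / ((4 * N : ℕ) : ℤ)) := by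
    rw [h1, Int.emod_def]
  have h3 : (((z : ZMod (4 * N)).val : ℕ) : ℝ) = z - 4 * N * ((z / ((4 * N : ℕ) : ℤ) : ℤ) : ℝ) := by
    have h4 := congrArg (fun w : ℤ => (w : ℝ)) h2
    push_cast at h4
    push_cast
    exact h4
  unfold sg
  rw [h3, Int.cast_neg]
  field_simp
  ring

private theorem k3_ng (t : ZMod (4 * N)) :
    ∃ j : ℤ, sg N (-t) = -sg N t + j * (2 * Real.pi) := by
  obtain ⟨j, hj⟩ := k3_int (N := N) (-(t.val : ℤ))
  refine ⟨j, ?_⟩
  rw [Int.cast_neg, Int.cast_natCast, ZMod.natCast_zmod_val] at hj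
  rw [hj]
  unfold sg
  push_cast
  ring

private theorem k3_even {t : ZMod (4 * N)} (ht : par N t = 0) :
    ∃ m : ℕ, N * sg N t = m * Real.pi := by
  have hN : (0 : ℝ) < N := by
    have := NeZero.pos N
    exact_mod_cast this
  have h1 : ((t.val : ℕ) : ZMod 2) = 0 := by
    have h2 : par N ((t.val : ℕ) : ZMod (4 * N)) = ((t.val : ℕ) : ZMod 2) := map_natCast _ _
    rw [← h2, ZMod.natCast_zmod_val, ht]
  rw [ZMod.natCast_eq_zero_iff] at h1
  obtain ⟨m, hm⟩ := h1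
  refine ⟨m, ?_⟩
  unfold sg
  rw [hm]
  push_cast
  field_simp

private theorem k3_QQ {y : ZMod (4 * N)} (hy : par N y = 0) : k3 N y = QQ (sg N y) N := by
  obtain ⟨m, hm⟩ := k3_even hy
  unfold k3
  rw [two_mul, Finset.sum_range_add]
  have h1 : ∑ n ∈ range N, (|(N : ℝ) - n| ^ 3 - |(N : ℝ) - n|) / 3 * Real.cos (n * sg N y) =
      ∑ k ∈ range N, g3 (k + 1) * Real.cos (((N : ℝ) - (k + 1 : ℕ)) * sg N y) := by
    rw [← Finset.sum_range_reflect]
    refine Finset.sum_congr rfl fun k hk => ?_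
    rw [Finset.mem_range] at hk
    have e1 : ((N - 1 - k : ℕ) : ℝ) = N - (k + 1 : ℕ) := by
      rw [Nat.sub_sub, Nat.cast_sub (by omega)]
      push_cast
      ring
    rw [e1]
    have e2 : (N : ℝ) - (N - (k + 1 : ℕ)) = (k + 1 : ℕ) := by ring
    rw [e2, Nat.abs_cast]
    rfl
  have h2 : ∑ k ∈ range N, g3 (k + 1) * Real.cos (((N : ℝ) - (k + 1 : ℕ)) * sg N y) =
      ∑ k ∈ range N, g3 k * Real.cos (((N : ℝ) - k) * sg N y) + g3 N := by
    have h3 := Finset.sum_range_succ'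
      (fun k : ℕ => g3 k * Real.cos (((N : ℝ) - k) * sg N y)) N
    rw [Finset.sum_range_succ, sub_self, zero_mul, Real.cos_zero, mul_one] at h3
    have h4 : g3 0 = 0 := by simp [g3]
    rw [h4, zero_mul, add_zero] at h3
    exact h3.symm
  have h3 : ∑ k ∈ range N, (|(N : ℝ) - (N + k : ℕ)| ^ 3 - |(N : ℝ) - (N + k : ℕ)|) / 3 *
      Real.cos ((N + k : ℕ) * sg N y) =
      ∑ k ∈ range N, g3 k * Real.cos (((N : ℝ) - k) * sg N y) := by
    refine Finset.sum_congr rfl fun k _ => ?_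
    have e1 : (N : ℝ) - (N + k : ℕ) = -(k : ℝ) := by
      push_cast
      ring
    have e2 : ((N + k : ℕ) : ℝ) * sg N y =
        -(((N : ℝ) - k) * sg N y) + (m : ℤ) * (2 * Real.pi) := by
      push_cast
      linear_combination 2 * hm
    rw [e1, e2, Real.cos_add_int_mul_two_pi, Real.cos_neg, abs_neg, Nat.abs_cast]
    rfl
  rw [h1, h2, h3]
  unfold QQ
  ring

private theorem k3_T (n : ℕ) : TT (n + 2) = 2 * X * TT (n + 1) - TT n := by
  unfold TT
  have h := Polynomial.Chebyshev.T_add_two ℝ (n : ℤ)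
  push_cast
  exact h

private theorem k3_Hq (n : ℕ) (c : ℝ) : Hq (n + 2) c =
    2 * X * Hq (n + 1) c - Hq n c + 2 * C ((TT (n + 1)).eval c) := by
  have h0 := Hq_mul n c
  have h1 := Hq_mul (n + 1) c
  have h2 := Hq_mul (n + 2) c
  have h3 : (TT (n + 2)).eval c = 2 * c * (TT (n + 1)).eval c - (TT n).eval c := by
    rw [k3_T]
    simp
  refine mul_left_cancel₀ (X_sub_C_ne_zero c) ?_
  rw [h2, h3, k3_T, C_sub, C_mul, C_mul]
  have h4 : (C (2 : ℝ)) = 2 := rfl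
  rw [h4]
  linear_combination -2 * X * h1 + h0

private theorem k3_Hp (n : ℕ) (c : ℝ) : (Hp (n + 2) c).eval 1 =
    2 * (Hp (n + 1) c).eval 1 + 2 * (Hq (n + 1) c).eval 1 - (Hp n c).eval 1 := by
  have h := congrArg derivative (k3_Hq n c)
  have h1 := congrArg (eval 1) h
  have h2 : ∀ m, derivative (Hq m c) = Hp m c := fun _ => rfl
  rw [derivative_add, derivative_sub, derivative_mul, derivative_mul, derivative_mul, h2, h2,
    h2] at h1
  simp at h1
  linarith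

private theorem k3_U1 (n : ℕ) : (UU n).eval 1 = n := by
  unfold UU
  rw [Polynomial.Chebyshev.U_eval_one]
  push_cast
  ring

private theorem k3_d1 (n : ℕ) (c : ℝ) :
    (Hq n c).eval 1 + (1 - c) * (Hp n c).eval 1 = (n : ℝ) ^ 2 := by
  have h := congrArg derivative (Hq_mul n c)
  have hT : derivative (TT n) = C (n : ℝ) * UU n := by
    have h := Polynomial.Chebyshev.T_derivative_eq_U (R := ℝ) (n : ℤ)
    unfold TT UU
    rw [h, Int.cast_natCast, C_eq_natCast]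
  have h2 : derivative (Hq n c) = Hp n c := rfl
  rw [derivative_mul, derivative_sub, derivative_X, derivative_C, sub_zero, one_mul,
    derivative_sub, derivative_C, sub_zero, hT, h2] at h
  have h1 := congrArg (eval 1) h
  rw [eval_add, eval_mul, eval_sub, eval_X, eval_C, eval_mul, eval_C, k3_U1] at h1
  rw [h1]
  ring

private theorem k3_Hp' (n : ℕ) (c : ℝ) : (Hp (n + 2) c).eval 1 =
    2 * c * (Hp (n + 1) c).eval 1 - (Hp n c).eval 1 + 2 * ((n : ℝ) + 1) ^ 2 := by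
  have h1 := k3_Hp n c
  have h2 := k3_d1 (n + 1) c
  push_cast at h2
  linarith

private theorem k3_Hp0 (c : ℝ) : (Hp 0 c).eval 1 = 0 := by
  unfold Hp Hq TT
  simp

private theorem k3_Hp1 (c : ℝ) : (Hp 1 c).eval 1 = 0 := by
  have h := Hp_natDegree 1 c
  have h2 : Hp 1 c = C ((Hp 1 c).coeff 0) := eq_C_of_natDegree_le_zero (by omega)
  have h3 : (Hp 1 c).coeff 0 = 0 := by
    unfold Hp
    rw [coeff_derivative]
    rw [coeff_eq_zero_of_natDegree_lt]
    · simp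
    · have := Hq_natDegree 1 c
      omega
  rw [h2, h3]
  simp

private theorem QQ_Hp (σ : ℝ) (n : ℕ) : QQ σ n = (Hp n (Real.cos σ)).eval 1 ∧
    QQ σ (n + 1) = (Hp (n + 1) (Real.cos σ)).eval 1 := by
  induction n with
  | zero => exact ⟨by rw [QQ_zero, k3_Hp0], by rw [zero_add, QQ_one, k3_Hp1]⟩
  | succ n ih =>
    refine ⟨ih.2, ?_⟩
    rw [QQ_rec, k3_Hp', ih.1, ih.2]

theorem k3_eq {y : ZMod (4 * N)} (hy : par N y = 0) :
    k3 N y = (Hp N (Real.cos (sg N y))).eval 1 := by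
  rw [k3_QQ hy]
  exact (QQ_Hp (sg N y) N).1

private theorem k3_sin (u : ℝ) (n : ℕ) : |Real.sin (n * u)| ≤ n * |Real.sin u| := by
  induction n with
  | zero => simp
  | succ n ih =>
    have e : ((n + 1 : ℕ) : ℝ) * u = n * u + u := by
      push_cast
      ring
    rw [e, Real.sin_add]
    have h1 := Real.abs_cos_le_one u
    have h2 := Real.abs_cos_le_one (n * u)
    calc |Real.sin (n * u) * Real.cos u + Real.cos (n * u) * Real.sin u|
        ≤ |Real.sin (n * u) * Real.cos u| + |Real.cos (n * u) * Real.sin u| := abs_add_le _ _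
      _ = |Real.sin (n * u)| * |Real.cos u| + |Real.cos (n * u)| * |Real.sin u| := by
        rw [abs_mul, abs_mul]
      _ ≤ |Real.sin (n * u)| * 1 + 1 * |Real.sin u| := by
        gcongr
      _ ≤ ((n + 1 : ℕ) : ℝ) * |Real.sin u| := by
        push_cast
        linarith

private theorem k3_cos (σ : ℝ) (n : ℕ) :
    1 - Real.cos (n * σ) ≤ (n : ℝ) ^ 2 * (1 - Real.cos σ) := by
  have h := k3_sin (σ / 2) n
  have h1 : Real.cos (n * σ) = 1 - 2 * Real.sin (n * (σ / 2)) ^ 2 := by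
    have e : (n : ℝ) * σ = 2 * (n * (σ / 2)) := by ring
    rw [e, Real.cos_two_mul, Real.cos_sq']
    ring
  have h2 : Real.cos σ = 1 - 2 * Real.sin (σ / 2) ^ 2 := by
    have e : σ = 2 * (σ / 2) := by ring
    conv_lhs => rw [e]
    rw [Real.cos_two_mul, Real.cos_sq']
    ring
  have h3 : Real.sin (n * (σ / 2)) ^ 2 ≤ (n : ℝ) ^ 2 * Real.sin (σ / 2) ^ 2 := by
    have h4 := pow_le_pow_left₀ (abs_nonneg _) h 2
    rw [mul_pow, sq_abs, sq_abs] at h4
    exact h4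
  rw [h1, h2]
  linarith

private theorem k3_one (n : ℕ) : 0 ≤ (Hp n 1).eval 1 ∧ (Hp n 1).eval 1 ≤ (Hp (n + 1) 1).eval 1 := by
  induction n with
  | zero =>
    rw [zero_add, k3_Hp0, k3_Hp1]
    exact ⟨le_rfl, le_rfl⟩
  | succ n ih =>
    refine ⟨ih.1.trans ih.2, ?_⟩
    have h := k3_Hp' n 1
    have h1 := sq_nonneg ((n : ℝ) + 1)
    linarith [ih.2]

theorem k3_nonneg {y : ZMod (4 * N)} (hy : par N y = 0) : 0 ≤ k3 N y := by
  rw [k3_eq hy]
  by_cases hc : Real.cos (sg N y) = 1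
  · rw [hc]
    exact (k3_one N).1
  · have h1 : 0 < 1 - Real.cos (sg N y) :=
      lt_of_le_of_ne (by linarith [Real.cos_le_one (sg N y)]) (fun h => hc (by linarith))
    have h2 := Hp_sq N (Real.cos (sg N y)) 1
    have h3 : (TT N).eval 1 = 1 := by
      have h4 := TT_cos N 0
      rw [Real.cos_zero, mul_zero, Real.cos_zero] at h4
      exact h4
    rw [k3_U1, h3, TT_cos] at h2
    have h4 := k3_cos (sg N y) N
    have h5 : 0 ≤ (1 - Real.cos (sg N y)) ^ 2 * (Hp N (Real.cos (sg N y))).eval 1 := by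
      rw [h2]
      linarith
    exact nonneg_of_mul_nonneg_right h5 (by positivity)

theorem k3_zero_pos (hN : 2 ≤ N) : 0 < k3 N 0 := by
  have h0 : par N (0 : ZMod (4 * N)) = 0 := map_zero _
  have hs : sg N 0 = 0 := by
    unfold sg
    rw [ZMod.val_zero]
    simp
  rw [k3_eq h0, hs, Real.cos_zero]
  have h2 : (Hp 2 1).eval 1 = 2 := by
    have h := k3_Hp' 0 1
    rw [zero_add, zero_add, k3_Hp0, k3_Hp1] at h
    rw [h]
    norm_num
  have hm : ∀ m : ℕ, 2 ≤ (Hp (2 + m) 1).eval 1 := by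
    intro m
    induction m with
    | zero => rw [add_zero, h2]
    | succ m ih => exact ih.trans (k3_one (2 + m)).2
  obtain ⟨m, rfl⟩ : ∃ m, N = 2 + m := ⟨N - 2, by omega⟩
  linarith [hm m]

theorem k3_neg (y : ZMod (4 * N)) : k3 N (-y) = k3 N y := by
  obtain ⟨j, hj⟩ := k3_ng y
  unfold k3
  refine Finset.sum_congr rfl fun n _ => ?_
  rw [hj]
  have h : (n : ℝ) * (-sg N y + j * (2 * Real.pi)) =
      -(n * sg N y) + ((n * j : ℤ) : ℝ) * (2 * Real.pi) := by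
    push_cast
    ring
  rw [h, Real.cos_add_int_mul_two_pi, Real.cos_neg]

end Pool.Agent.MPbd65ca.Sp
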