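import Pool.Agent.Lib.MP_bd65ca_an_S.TDm

/-!
# Power sums over the roots

PROOF. Let `B a = Lagrange.nodal (R a) id = ∏ q ∈ R a, (X - C q)`, monic of degree `b`.
`rt_mem`: strong induction on `m`.  For `m < b` use `Lagrange.coeff_eq_sum` (with `v = id`,
`P = X ^ m`): `rt (R a) m = (X ^ m).coeff (b - 1)`, which is `0` for `m < b - 1` (and `0 ∈ TD`)
and `1`
for `m = b - 1` (`TD_const`, degree `m - b + 1 = 0`).  For `m ≥ b` and `ρ ∈ R a`:
`ρ ^ b = -∑ i ∈ range b, (B a).coeff i * ρ ^ i` since `(B a).eval ρ = 0`, so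
`rt (R a) m = -∑ i ∈ range b, (B a).coeff i * rt (R a) (m - b + i)`, and
`TD (b - i) * TD (m - b + i - b + 1) ⊆ TD (m - b + 1)` by `TD_mul`.
If `b = 0` everything is zero.
`rt_poly`: `(A a).eval ρ = ∑ i ∈ range (n + 1), (A a).coeff i * ρ ^ i`
(`Polynomial.eval_eq_sum_range'`), so the function is `∑ i, (A a).coeff i * rt (R a) i`; `TD_mul`,
`Submodule.sum_mem`.
-/

open MeasureTheory FourierTransform Pointwise Set Finset Polynomial
open scoped RealInnerProductSpace

namespace Pool.Agent.MPbd65ca.Sp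

open Pool.Agent.MPbd65ca.Oct Pool.Agent.MPbd65ca.Bp

variable {α : Type*} {s : α → ℝ}

/-- Small exponents. -/
private theorem Rt_small {R : Finset ℝ} {m : ℕ} (hm : m < R.card) :
    rt R m = if R.card - 1 = m then 1 else 0 := by
  have h := Lagrange.coeff_eq_sum (s := R) (v := id) (Set.injOn_id _) (P := (X : ℝ[X]) ^ m)
    (lt_of_le_of_lt (degree_X_pow_le m) (by exact_mod_cast hm))
  rw [coeff_X_pow] at h
  rw [h, rt]
  refine Finset.sum_congr rfl fun ρ _ => ?_
  rw [eval_pow, eval_X]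
  rfl

/-- Large exponents. -/
private theorem Rt_large {R : Finset ℝ} {b m : ℕ} (hb : R.card = b) (hm : b ≤ m) :
    rt R m = -∑ i ∈ range b, (Lagrange.nodal R id).coeff i * rt R (m - b + i) := by
  have h1 : ∀ ρ ∈ R, ρ ^ m = -∑ i ∈ range b, (Lagrange.nodal R id).coeff i * ρ ^ (m - b + i) := by
    intro ρ hρ
    have h2 : (Lagrange.nodal R id).eval ρ = 0 := Lagrange.eval_nodal_at_node (v := id) hρ
    have h3 : (Lagrange.nodal R (id : ℝ → ℝ)).natDegree = b := by
      rw [Lagrange.natDegree_nodal, hb]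
    have h4 : (Lagrange.nodal R (id : ℝ → ℝ)).coeff b = 1 := by
      have h5 := (Lagrange.nodal_monic (s := R) (v := (id : ℝ → ℝ))).coeff_natDegree
      rwa [h3] at h5
    rw [eval_eq_sum_range, h3, Finset.sum_range_succ, h4, one_mul] at h2
    have h6 : ρ ^ b = -∑ i ∈ range b, (Lagrange.nodal R id).coeff i * ρ ^ i := by linarith
    calc ρ ^ m = ρ ^ (m - b) * ρ ^ b := by rw [← pow_add, Nat.sub_add_cancel hm]
      _ = -∑ i ∈ range b, (Lagrange.nodal R id).coeff i * ρ ^ (m - b + i) := by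
        rw [h6, mul_neg, Finset.mul_sum]
        congr 1
        refine Finset.sum_congr rfl fun i _ => ?_
        rw [pow_add]
        ring
  unfold rt
  simp_rw [Finset.mul_sum]
  rw [Finset.sum_comm, ← Finset.sum_neg_distrib]
  refine Finset.sum_congr rfl fun ρ hρ => ?_
  rw [h1 ρ hρ, neg_div, Finset.sum_div]
  congr 1
  exact Finset.sum_congr rfl fun i _ => by ring

theorem rt_mem {b : ℕ} {R : α → Finset ℝ} (hR : ∀ a, (R a).card = b)
    (hB : ∀ i : ℕ, (fun a => (((Lagrange.nodal (R a) id).coeff i : ℝ) : ℂ)) ∈ TD s (b - i))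
    (m : ℕ) : (fun a => ((rt (R a) m : ℝ) : ℂ)) ∈ TD s (m - b + 1) := by
  have hz : ∀ d : ℤ, (fun _ : α => (0 : ℂ)) ∈ TD s d := fun d => Submodule.zero_mem _
  induction m using Nat.strong_induction_on with
  | _ m ih =>
    rcases lt_or_ge m b with hm | hm
    · have h1 : ∀ a, rt (R a) m = if b - 1 = m then 1 else 0 := by
        intro a
        rw [Rt_small (by rw [hR a]; exact hm), hR a]
      simp_rw [h1]
      split_ifs with h2
      · have h3 := TD_const (s := s) (d := (m : ℤ) - b + 1) (by omega) 1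
        simpa using h3
      · simpa using hz ((m : ℤ) - b + 1)
    · have h1 : (fun a => ((rt (R a) m : ℝ) : ℂ)) = -∑ i ∈ range b,
          fun a => (((Lagrange.nodal (R a) id).coeff i : ℝ) : ℂ) *
            ((rt (R a) (m - b + i) : ℝ) : ℂ) := by
        funext a
        rw [Rt_large (hR a) hm, Pi.neg_apply, Finset.sum_apply]
        push_cast
        rfl
      rw [h1]
      refine Submodule.neg_mem _ (Submodule.sum_mem _ fun i hi => ?_)
      rw [Finset.mem_range] at hi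
      have h2 := TD_mul (hB i) (ih (m - b + i) (by omega))
      have h3 : (b : ℤ) - i + (((m - b + i : ℕ) : ℤ) - b + 1) = m - b + 1 := by
        omega
      rwa [h3] at h2

theorem rt_poly {b n : ℕ} {D : ℤ} {R : α → Finset ℝ} (hR : ∀ a, (R a).card = b)
    (hB : ∀ i : ℕ, (fun a => (((Lagrange.nodal (R a) id).coeff i : ℝ) : ℂ)) ∈ TD s (b - i))
    {A : α → ℂ[X]} (hn : ∀ a, (A a).natDegree ≤ n)
    (hA : ∀ i : ℕ, (fun a => (A a).coeff i) ∈ TD s (D - i)) :
    (fun a => ∑ ρ ∈ R a, (A a).eval (ρ : ℂ) / ((∏ q ∈ (R a).erase ρ, (ρ - q) : ℝ) : ℂ)) ∈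
      TD s (D - b + 1) := by
  have h1 : (fun a => ∑ ρ ∈ R a, (A a).eval (ρ : ℂ) /
      ((∏ q ∈ (R a).erase ρ, (ρ - q) : ℝ) : ℂ)) = ∑ i ∈ range (n + 1),
        fun a => (A a).coeff i * ((rt (R a) i : ℝ) : ℂ) := by
    funext a
    rw [Finset.sum_apply]
    have h2 : ∀ ρ ∈ R a, (A a).eval (ρ : ℂ) / ((∏ q ∈ (R a).erase ρ, (ρ - q) : ℝ) : ℂ) =
        ∑ i ∈ range (n + 1), (A a).coeff i *
          (((ρ ^ i / ∏ q ∈ (R a).erase ρ, (ρ - q) : ℝ)) : ℂ) := by
      intro ρ _
      rw [eval_eq_sum_range' (Nat.lt_succ_of_le (hn a)), Finset.sum_div]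
      refine Finset.sum_congr rfl fun i _ => ?_
      rw [Complex.ofReal_div, Complex.ofReal_pow]
      ring
    rw [Finset.sum_congr rfl h2, Finset.sum_comm]
    refine Finset.sum_congr rfl fun i _ => ?_
    rw [← Finset.mul_sum, rt, Complex.ofReal_sum]
  rw [h1]
  refine Submodule.sum_mem _ fun i _ => ?_
  have h2 := TD_mul (hA i) (rt_mem hR hB i)
  have h3 : D - i + ((i : ℤ) - b + 1) = D - b + 1 := by ring
  rwa [h3] at h2

end Pool.Agent.MPbd65ca.Sp
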