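import Pool.Agent.Lib.MP_bd65ca_an_S.Defs

/-!
# The pole of the source

PROOF. `Lagrange.coeff_eq_sum` over `ℂ` with the nodes `insert c₀ R` (`v = fun x : ℝ => (x : ℂ)`,
injective) and `P = A`: `A.degree < R.card < card (insert c₀ R)`, and the coefficient of index
`card (insert c₀ R) - 1 = R.card` of `A` is `0`.  Split off the node `c₀`
(`Finset.sum_insert`); for `ρ ∈ R`:
`∏ over (insert c₀ R).erase ρ = (ρ - c₀) * ∏ q ∈ R.erase ρ, (ρ - q)`.
-/

open MeasureTheory FourierTransform Pointwise Set Finset Polynomial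
open scoped RealInnerProductSpace

namespace Pool.Agent.MPbd65ca.Sp

open Pool.Agent.MPbd65ca.Oct Pool.Agent.MPbd65ca.Bp

theorem src {R : Finset ℝ} {A : ℂ[X]} (hA : A.natDegree < R.card) {c₀ : ℝ} (hc : c₀ ∉ R) :
    ∑ ρ ∈ R, A.eval (ρ : ℂ) / (((ρ - c₀) * ∏ q ∈ R.erase ρ, (ρ - q) : ℝ) : ℂ) =
      -(A.eval (c₀ : ℂ) / ((∏ q ∈ R, (c₀ - q) : ℝ) : ℂ)) := by
  have hcard : (insert c₀ R).card = R.card + 1 := Finset.card_insert_of_notMem hc
  have hdeg : A.degree < ((insert c₀ R).card : WithBot ℕ) := by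
    rw [hcard]
    refine lt_of_le_of_lt Polynomial.degree_le_natDegree ?_
    exact_mod_cast Nat.lt_succ_of_lt hA
  have h1 := Lagrange.coeff_eq_sum (s := insert c₀ R) (v := fun x : ℝ => (x : ℂ))
    (Complex.ofReal_injective.injOn) hdeg
  rw [hcard, Nat.add_sub_cancel, Polynomial.coeff_eq_zero_of_natDegree_lt hA,
    Finset.sum_insert hc, Finset.erase_insert hc] at h1
  have h2 : ∑ ρ ∈ R, A.eval (ρ : ℂ) / (((ρ - c₀) * ∏ q ∈ R.erase ρ, (ρ - q) : ℝ) : ℂ) =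
      ∑ i ∈ R, A.eval (i : ℂ) / ∏ j ∈ (insert c₀ R).erase i, ((i : ℂ) - (j : ℂ)) := by
    refine Finset.sum_congr rfl fun ρ hρ => ?_
    have hne : c₀ ≠ ρ := fun h => hc (h ▸ hρ)
    have hnm : c₀ ∉ R.erase ρ := fun h => hc (Finset.mem_of_mem_erase h)
    rw [Finset.erase_insert_of_ne hne, Finset.prod_insert hnm]
    push_cast
    rfl
  rw [h2]
  have h3 : ((∏ q ∈ R, (c₀ - q) : ℝ) : ℂ) = ∏ q ∈ R, ((c₀ : ℂ) - (q : ℂ)) := by
    push_cast
    rfl
  rw [h3]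
  linear_combination -h1

end Pool.Agent.MPbd65ca.Sp
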