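import Pool.Agent.Lib.MP_bd65ca_an_S.Defs

/-!
# Trigonometric polynomials in a parameter: algebra

PROOF. `TD s d` is the span of the functions `a ↦ e^{i j s a}`, `|j| ≤ d`.  `TD_mul`: the product of
two of the functions is again one of them (`|j + j'| ≤ d + e`); use `Submodule.span_induction` in
both
arguments (or `Submodule.span_mul_span` in the algebra `α → ℂ`, `Submodule.mul_le`).
`TD_neg`: the set of the `j` is empty.  `TD_cos`: `cos (u - θ) = (e^{i u} e^{-i θ} + e^{-i u} e^{i
θ}) / 2`.
`TD_pow`, `TD_poly`: induction; `P.eval x = ∑ i ∈ range (natDegree + 1), coeff i * x ^ i`.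
-/

open MeasureTheory FourierTransform Pointwise Set Finset Polynomial
open scoped RealInnerProductSpace

namespace Pool.Agent.MPbd65ca.Sp

open Pool.Agent.MPbd65ca.Oct Pool.Agent.MPbd65ca.Bp

variable {α : Type*} {s : α → ℝ}

theorem TD_mono {d e : ℤ} (h : d ≤ e) {f : α → ℂ} (hf : f ∈ TD s d) : f ∈ TD s e := by
  exact Submodule.span_mono (Set.image_mono fun j hj => le_trans hj h) hf

theorem TD_neg {d : ℤ} (h : d < 0) {f : α → ℂ} (hf : f ∈ TD s d) : f = 0 := by
  have he : {j : ℤ | |j| ≤ d} = ∅ := by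
    ext j
    simp only [Set.mem_ofPred_eq, Set.mem_empty_iff_false, iff_false, not_le]
    exact lt_of_lt_of_le h (abs_nonneg j)
  unfold TD at hf
  rw [he, Set.image_empty, Submodule.span_empty, Submodule.mem_bot] at hf
  exact hf

theorem TD_const {d : ℤ} (h : 0 ≤ d) (c : ℂ) : (fun _ => c) ∈ TD s d := by
  have h1 : (fun a => Complex.exp (Complex.I * (((0 : ℤ) : ℂ) * s a))) ∈ TD s d :=
    Submodule.subset_span ⟨0, by simpa using h, rfl⟩
  have h2 := (TD s d).smul_mem c h1
  have e : (c • fun a : α => Complex.exp (Complex.I * (((0 : ℤ) : ℂ) * s a))) = fun _ => c := by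
    funext a
    simp
  rwa [e] at h2

theorem TD_exp {d j : ℤ} (h : |j| ≤ d) :
    (fun a => Complex.exp (Complex.I * (j * s a))) ∈ TD s d := by
  exact Submodule.subset_span ⟨j, h, rfl⟩

theorem TD_mul {d e : ℤ} {f g : α → ℂ} (hf : f ∈ TD s d) (hg : g ∈ TD s e) :
    (fun a => f a * g a) ∈ TD s (d + e) := by
  refine Submodule.span_induction (p := fun f _ => (fun a => f a * g a) ∈ TD s (d + e))
    ?_ ?_ ?_ ?_ hf
  · rintro _ ⟨j, hj, rfl⟩
    refine Submodule.span_induction (p := fun g _ =>
      (fun a => Complex.exp (Complex.I * ((j : ℂ) * s a)) * g a) ∈ TD s (d + e)) ?_ ?_ ?_ ?_ hg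
    · rintro _ ⟨j', hj', rfl⟩
      have e1 : (fun a => Complex.exp (Complex.I * ((j : ℂ) * s a)) *
          Complex.exp (Complex.I * ((j' : ℂ) * s a))) =
          fun a => Complex.exp (Complex.I * (((j + j' : ℤ) : ℂ) * s a)) := by
        funext a
        rw [← Complex.exp_add]
        congr 1
        push_cast
        ring
      change (fun a => Complex.exp (Complex.I * ((j : ℂ) * s a)) *
          Complex.exp (Complex.I * ((j' : ℂ) * s a))) ∈ TD s (d + e)
      rw [e1]
      exact Submodule.subset_span ⟨j + j', (abs_add_le j j').trans (add_le_add hj hj'), rfl⟩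
    · have e1 : (fun a => Complex.exp (Complex.I * ((j : ℂ) * s a)) * (0 : α → ℂ) a) = 0 := by
        funext a
        simp
      rw [e1]
      exact Submodule.zero_mem _
    · intro u v _ _ hu hv
      have e1 : (fun a => Complex.exp (Complex.I * ((j : ℂ) * s a)) * (u + v) a) =
          (fun a => Complex.exp (Complex.I * ((j : ℂ) * s a)) * u a) +
            fun a => Complex.exp (Complex.I * ((j : ℂ) * s a)) * v a := by
        funext a
        simp only [Pi.add_apply]
        ring
      rw [e1]
      exact Submodule.add_mem _ hu hv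
    · intro c u _ hu
      have e1 : (fun a => Complex.exp (Complex.I * ((j : ℂ) * s a)) * (c • u) a) =
          c • fun a => Complex.exp (Complex.I * ((j : ℂ) * s a)) * u a := by
        funext a
        simp only [Pi.smul_apply, smul_eq_mul]
        ring
      rw [e1]
      exact Submodule.smul_mem _ _ hu
  · have e1 : (fun a => (0 : α → ℂ) a * g a) = 0 := by
      funext a
      simp
    rw [e1]
    exact Submodule.zero_mem _
  · intro u v _ _ hu hv
    have e1 : (fun a => (u + v) a * g a) = (fun a => u a * g a) + fun a => v a * g a := by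
      funext a
      simp only [Pi.add_apply]
      ring
    rw [e1]
    exact Submodule.add_mem _ hu hv
  · intro c u _ hu
    have e1 : (fun a => (c • u) a * g a) = c • fun a => u a * g a := by
      funext a
      simp only [Pi.smul_apply, smul_eq_mul]
      ring
    rw [e1]
    exact Submodule.smul_mem _ _ hu

theorem TD_cos (θ : ℝ) : (fun a => ((Real.cos (s a - θ) : ℝ) : ℂ)) ∈ TD s 1 := by
  have h1 : (fun a => Complex.exp (Complex.I * (((1 : ℤ) : ℂ) * s a))) ∈ TD s 1 :=
    Submodule.subset_span ⟨1, by simp, rfl⟩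
  have h2 : (fun a => Complex.exp (Complex.I * (((-1 : ℤ) : ℂ) * s a))) ∈ TD s 1 :=
    Submodule.subset_span ⟨-1, by simp, rfl⟩
  have h3 := (TD s 1).add_mem ((TD s 1).smul_mem (Complex.exp (-(θ * Complex.I)) / 2) h1)
    ((TD s 1).smul_mem (Complex.exp (θ * Complex.I) / 2) h2)
  refine (congrArg (fun f => f ∈ TD s 1) ?_).mp h3
  funext a
  simp only [Pi.add_apply, Pi.smul_apply, smul_eq_mul]
  rw [Complex.ofReal_cos, Complex.cos, div_mul_eq_mul_div, div_mul_eq_mul_div, ← Complex.exp_add,
    ← Complex.exp_add, ← add_div]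
  congr 3
  · push_cast
    ring
  · push_cast
    ring

theorem TD_poly (P : ℝ[X]) (θ : ℝ) {d : ℤ} (hd : (P.natDegree : ℤ) ≤ d) :
    (fun a => ((P.eval (Real.cos (s a - θ)) : ℝ) : ℂ)) ∈ TD s d := by
  have hpow : ∀ n : ℕ, (fun a => ((Real.cos (s a - θ) : ℝ) : ℂ) ^ n) ∈ TD s n := by
    intro n
    induction n with
    | zero =>
      have h := TD_const (s := s) (d := ((0 : ℕ) : ℤ)) le_rfl 1
      refine (congrArg (fun f => f ∈ TD s ((0 : ℕ) : ℤ)) ?_).mp h
      funext a
      rw [pow_zero]
    | succ n ih =>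
      have h := TD_mul ih (TD_cos (s := s) θ)
      have e : ((n : ℕ) : ℤ) + 1 = ((n + 1 : ℕ) : ℤ) := by push_cast; ring
      rw [e] at h
      refine (congrArg (fun f => f ∈ TD s ((n + 1 : ℕ) : ℤ)) ?_).mp h
      funext a
      rw [pow_succ]
  have hsum : (fun a => ((P.eval (Real.cos (s a - θ)) : ℝ) : ℂ)) =
      ∑ i ∈ range (P.natDegree + 1), ((P.coeff i : ℝ) : ℂ) •
        fun a => ((Real.cos (s a - θ) : ℝ) : ℂ) ^ i := by
    funext a
    rw [Finset.sum_apply, eval_eq_sum_range]
    push_cast
    refine Finset.sum_congr rfl fun i _ => ?_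
    simp only [Pi.smul_apply, smul_eq_mul]
  rw [hsum]
  refine Submodule.sum_mem _ fun i hi => Submodule.smul_mem _ _ (TD_mono ?_ (hpow i))
  have := Finset.mem_range.1 hi
  omega

end Pool.Agent.MPbd65ca.Sp
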