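import Pool.Agent.Lib.MP_bd65ca_an_S.Val
import Pool.Agent.Lib.MP_bd65ca_an_S.TDm
import Pool.Agent.Lib.MP_bd65ca_an_F.PFc

/-!
# Orthogonality on the grid

PROOF. By linearity (`Submodule.span_induction`, the left side is linear in `f`) take
`f a = e^{i j s a}`, `|j| ≤ d < N`.  By `cosN_sg_sub`:
`cos (N sg (a - l)) = (e^{i N s a} e^{-i N sg l} + e^{-i N s a} e^{i N sg l}) / 2`, so one needs
`∑_{par k = c} e^{i K sg k} = 0` for `K = j ± N`, `0 < |K| < 2 N`: reindex with `sum_par` (PFc;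
for complex
functions apply it to the real and imaginary parts, or redo it) to `l ∈ range (2 N)`,
`sg N (2 l + c) = π l / N + π c / (2 N)`, and use `PFcAux.csum_phase` (real parts; the imaginary
part
is a cosine with the phase shifted by `-π / 2`).
-/

open MeasureTheory FourierTransform Pointwise Set Finset Polynomial
open scoped RealInnerProductSpace

namespace Pool.Agent.MPbd65ca.Sp

open Pool.Agent.MPbd65ca.Oct Pool.Agent.MPbd65ca.Bp

variable {N : ℕ} [NeZero N]

private theorem ts_cos (c : ZMod 2) {K : ℤ} (hK : ¬ (2 * N : ℤ) ∣ K) (φ : ℝ) :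
    ∑ k with par N k = c, Real.cos (K * sg N k + φ) = 0 := by
  have hN : 0 < N := Nat.pos_of_ne_zero (NeZero.ne N)
  have hN' : (N : ℝ) ≠ 0 := by exact_mod_cast hN.ne'
  have hc : c.val < 2 := ZMod.val_lt c
  rw [PFcAux.sum_par, ← PFcAux.csum_phase hN hK (K * (Real.pi * c.val / (2 * N)) + φ)]
  refine Finset.sum_congr rfl fun l hl => ?_
  rw [Finset.mem_range] at hl
  have hs : sg N ((2 * l + c.val : ℕ) : ZMod (4 * N)) =
      Real.pi * l / N + Real.pi * c.val / (2 * N) := by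
    unfold sg
    rw [ZMod.val_cast_of_lt (by omega)]
    push_cast
    field_simp
  rw [hs]
  congr 1
  ring

private theorem ts_term (j : ℤ) (k l : ZMod (4 * N)) :
    ((Real.cos (N * sg N (k - l)) : ℝ) : ℂ) * Complex.exp (Complex.I * (j * sg N k)) =
      ((1 / 2 * (Real.cos (((N + j : ℤ) : ℝ) * sg N k + -(N * sg N l)) +
        Real.cos (((N - j : ℤ) : ℝ) * sg N k + -(N * sg N l))) : ℝ) : ℂ) +
      ((1 / 2 * (Real.cos (((N + j : ℤ) : ℝ) * sg N k + (-(N * sg N l) - Real.pi / 2)) -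
        Real.cos (((N - j : ℤ) : ℝ) * sg N k + (-(N * sg N l) - Real.pi / 2))) : ℝ) : ℂ) *
        Complex.I := by
  have e1 : Complex.exp (Complex.I * (j * sg N k)) =
      ((Real.cos (j * sg N k) : ℝ) : ℂ) + ((Real.sin (j * sg N k) : ℝ) : ℂ) * Complex.I := by
    rw [mul_comm, Complex.exp_mul_I, Complex.ofReal_cos, Complex.ofReal_sin]
    push_cast
    rfl
  have e2 : ((N + j : ℤ) : ℝ) * sg N k + -(N * sg N l) =
      N * (sg N k - sg N l) + j * sg N k := by
    push_cast
    ring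
  have e3 : ((N - j : ℤ) : ℝ) * sg N k + -(N * sg N l) =
      N * (sg N k - sg N l) - j * sg N k := by
    push_cast
    ring
  have e4 : ((N + j : ℤ) : ℝ) * sg N k + (-(N * sg N l) - Real.pi / 2) =
      N * (sg N k - sg N l) + j * sg N k - Real.pi / 2 := by
    push_cast
    ring
  have e5 : ((N - j : ℤ) : ℝ) * sg N k + (-(N * sg N l) - Real.pi / 2) =
      N * (sg N k - sg N l) - j * sg N k - Real.pi / 2 := by
    push_cast
    ring
  rw [cosN_sg_sub, e1, e2, e3, e4, e5, Real.cos_sub_pi_div_two, Real.cos_sub_pi_div_two,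
    Real.cos_add, Real.cos_sub, Real.sin_add, Real.sin_sub]
  push_cast
  ring

omit [NeZero N] in
private theorem ts_dvd {j : ℤ} (h : |j| < N) :
    ¬ (2 * N : ℤ) ∣ (N + j) ∧ ¬ (2 * N : ℤ) ∣ (N - j) := by
  rw [abs_lt] at h
  constructor
  · intro hd
    have := Int.eq_zero_of_abs_lt_dvd hd (by rw [abs_lt]; omega)
    omega
  · intro hd
    have := Int.eq_zero_of_abs_lt_dvd hd (by rw [abs_lt]; omega)
    omega

theorem TD_sum_zero {c : ZMod 2} {d : ℤ} (hd : d < N) {f : Cl N c → ℂ}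
    (hf : f ∈ TD (ph (c := c)) d) (l : ZMod (4 * N)) :
    ∑ a : Cl N c, ((Real.cos (N * sg N (a.1 - l)) : ℝ) : ℂ) * f a = 0 := by
  refine Submodule.span_induction (p := fun f _ =>
    ∑ a : Cl N c, ((Real.cos (N * sg N (a.1 - l)) : ℝ) : ℂ) * f a = 0) ?_ ?_ ?_ ?_ hf
  · rintro _ ⟨j, hj, rfl⟩
    have hj' : |j| ≤ d := hj
    obtain ⟨h1, h2⟩ := ts_dvd (N := N) (lt_of_le_of_lt hj' hd)
    have e1 : ∑ a : Cl N c, ((Real.cos (N * sg N (a.1 - l)) : ℝ) : ℂ) *
        Complex.exp (Complex.I * (j * ph a)) = ∑ k with par N k = c,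
          ((Real.cos (N * sg N (k - l)) : ℝ) : ℂ) * Complex.exp (Complex.I * (j * sg N k)) := by
      symm
      refine Finset.sum_subtype (p := fun k => par N k = c) _ (fun k => ?_)
        (fun k => ((Real.cos (N * sg N (k - l)) : ℝ) : ℂ) *
          Complex.exp (Complex.I * (j * sg N k)))
      simp
    change ∑ a : Cl N c, ((Real.cos (N * sg N (a.1 - l)) : ℝ) : ℂ) *
        Complex.exp (Complex.I * (j * ph a)) = 0
    rw [e1, Finset.sum_congr rfl fun k _ => ts_term j k l, Finset.sum_add_distrib,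
      ← Finset.sum_mul, ← Complex.ofReal_sum, ← Complex.ofReal_sum, ← Finset.mul_sum,
      ← Finset.mul_sum, Finset.sum_add_distrib, Finset.sum_sub_distrib, ts_cos c h1, ts_cos c h2,
      ts_cos c h1, ts_cos c h2]
    simp
  · simp
  · intro u v _ _ hu hv
    simp only [Pi.add_apply, mul_add, Finset.sum_add_distrib, hu, hv, add_zero]
  · intro r u _ hu
    have e1 : ∀ a : Cl N c, ((Real.cos (N * sg N (a.1 - l)) : ℝ) : ℂ) * (r • u) a =
        r * (((Real.cos (N * sg N (a.1 - l)) : ℝ) : ℂ) * u a) := by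
      intro a
      simp only [Pi.smul_apply, smul_eq_mul]
      ring
    rw [Finset.sum_congr rfl fun a _ => e1 a, ← Finset.mul_sum, hu, mul_zero]

end Pool.Agent.MPbd65ca.Sp
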