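import Pool.Agent.Lib.MP_bd65ca_an_S.Zh
import Pool.Agent.Lib.MP_bd65ca_an_S.TSum
import Pool.Agent.Lib.MP_bd65ca_an_S.Rt
import Pool.Agent.Lib.MP_bd65ca_an_S.Src
import Pool.Agent.Lib.MP_bd65ca_an_S.K3

/-!
# The identity of the residues

Data: `N ≥ 3`, `R a` (`a : Cl N c`) finite sets of `2 N - 3` reals with
`hh N c M a * UU N = C Lc * nodal (R a) id`, `Lc > 0` not depending on `a`, and polynomials `A a`
with
`natDegree ≤ 2 N - 4` and `(A a).coeff i ∈ TD (2 N - 4 - i)`.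

PROOF. `Rc_TD`: the coefficient `i` of `nodal (R a) id` is
`Lc⁻¹ * ∑_{p + q = i} (hh N c M a).coeff p * (UU N).coeff q` (`coeff_mul`), `hh_TD`, and `(UU
N).coeff q`
vanishes for `q > N - 1`: `TD (N - 2 - p) ⊆ TD (2 N - 3 - i)`.
`J_zero`: `rt_poly` for `A a * (Jp N (cos (ph a - sg N l))).map (algebraMap ℝ ℂ)` (natDegree at most
`2 N - 4 + N`, coefficients in `TD (3 N - 6 - i)` by `coeff_mul`, `Jp_TD`, `TD_mul`), `b = 2 N - 3`:
the sum over the roots is in `TD (3 N - 6 - (2 N - 3) + 1) = TD (N - 2)`; then `TD_sum_zero`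
(`cos (sg N (a - l)) = cos (ph a - sg N l)`: `cos_sg_sub`).
`main_id`: by definition `gg N y x = -ε (Jp x + N U(c) / (x - c))`, so
`∑_a ∑_ρ A gg / ∏ = -∑_a ε_a ∑_ρ A Jp / ∏ - ∑_a ε_a N U(c_a) ∑_ρ A / ((ρ - c_a) ∏)`; the first sum
is
`0` (`J_zero`); in the second one `U(c_a) = 0` unless `sin (sg N (a - l)) = 0`, i.e. unless
`a = l` or `a = l + 2 N` (`UU_sin`, `sin_even`); for these two `a` (`c_a = 1`, `-1`) `c_a ∉ R a`
(because `(hh * UU).eval c_a ≠ 0`: `hh` at `1` is `∑ k3 N (l - k') * M k' > 0` for `a = l`, by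
`k3_eq`,
and `(-1) ^ N` times the same at `-1` for `a = l + 2 N`, by `Hp_neg`; `UU N` at `±1` is not zero)
and `src`
gives `∑_ρ A / ((ρ - c_a) ∏) = -A(c_a) / ∏_q (c_a - q)`, where `Lc * ∏_q (c_a - q) = hh(c_a)
U(c_a)`.
So the two terms are `ε_a N U(c_a) A(c_a) Lc / (hh(c_a) U(c_a)) = ε_a N Lc A(c_a) / hh(c_a)`:
`N Lc A_l(1) / h₀` and, since `ε = (-1) ^ N` (`cosN_sg_sub`, `sg N (2 N) = π`), `N Lc A(-1) / h₀`.
-/

open MeasureTheory FourierTransform Pointwise Set Finset Polynomial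
open scoped RealInnerProductSpace

namespace Pool.Agent.MPbd65ca.Sp

open Pool.Agent.MPbd65ca.Oct Pool.Agent.MPbd65ca.Bp

variable {N : ℕ} [NeZero N]

omit [NeZero N] in
private theorem Id_cast (hN : 3 ≤ N) : ((2 * N - 3 : ℕ) : ℤ) = 2 * (N : ℤ) - 3 := by
  rw [Nat.cast_sub (by omega)]
  push_cast
  ring

omit [NeZero N] in
private theorem Id_UU (hN : 1 ≤ N) : UU N = Polynomial.Chebyshev.U ℝ ((N - 1 : ℕ) : ℤ) := by
  have h1 : ((N : ℤ) - 1) = ((N - 1 : ℕ) : ℤ) := by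
    rw [Nat.cast_sub hN]
    simp
  rw [UU, h1]

omit [NeZero N] in
private theorem Id_UUdeg (hN : 1 ≤ N) {i : ℕ} (hi : N - 1 < i) : (UU N).coeff i = 0 := by
  rw [Id_UU hN]
  refine coeff_eq_zero_of_natDegree_lt ?_
  rw [Polynomial.Chebyshev.natDegree_U_natCast]
  exact hi

private theorem Id_two : sg N ((2 * N : ℕ) : ZMod (4 * N)) = Real.pi := by
  have hN : 0 < N := Nat.pos_of_ne_zero (NeZero.ne N)
  have h1 : ((2 * N : ℕ) : ZMod (4 * N)).val = 2 * N := ZMod.val_cast_of_lt (by omega)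
  have hN' : (N : ℝ) ≠ 0 := by exact_mod_cast hN.ne'
  rw [sg, h1]
  push_cast
  field_simp

private theorem Id_add_two (y : ZMod (4 * N)) :
    Real.cos (sg N (y + (2 * N : ℕ))) = -Real.cos (sg N y) := by
  have h1 : y + ((2 * N : ℕ) : ZMod (4 * N)) = y - ((2 * N : ℕ) : ZMod (4 * N)) := by
    have h2 : ((2 * N : ℕ) : ZMod (4 * N)) + ((2 * N : ℕ) : ZMod (4 * N)) = 0 := by
      rw [← Nat.cast_add, show 2 * N + 2 * N = 4 * N by ring, ZMod.natCast_self]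
    have h3 := eq_neg_of_add_eq_zero_left h2
    rw [sub_eq_add_neg, ← h3]
  rw [h1, cos_sg_sub, Id_two, Real.cos_sub_pi]

private theorem Id_sin {y : ZMod (4 * N)} (h : Real.sin (sg N y) = 0) :
    y = 0 ∨ y = ((2 * N : ℕ) : ZMod (4 * N)) := by
  have hN : 0 < N := Nat.pos_of_ne_zero (NeZero.ne N)
  have hN' : (0 : ℝ) < N := by exact_mod_cast hN
  have hv : y.val < 4 * N := ZMod.val_lt y
  obtain ⟨n, hn⟩ := Real.sin_eq_zero_iff.1 h
  unfold sg at hn
  have h1 : (n : ℝ) * (2 * N) = y.val := by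
    have h2 : (n : ℝ) * Real.pi * (2 * N) = Real.pi * y.val := by
      rw [hn]
      field_simp
    have h3 := Real.pi_pos.ne'
    have h4 : Real.pi * ((n : ℝ) * (2 * N)) = Real.pi * y.val := by linarith
    exact mul_left_cancel₀ h3 h4
  have h5 : n * (2 * N) = (y.val : ℤ) := by exact_mod_cast h1
  have h6 : 0 ≤ n := by
    by_contra hneg
    push Not at hneg
    have : n * (2 * (N : ℤ)) < 0 := mul_neg_of_neg_of_pos hneg (by positivity)
    omega
  have h7 : n < 2 := by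
    by_contra hge
    push Not at hge
    have h8 : 2 * (2 * (N : ℤ)) ≤ n * (2 * N) := mul_le_mul_of_nonneg_right hge (by positivity)
    omega
  have h9 : (y.val : ZMod (4 * N)) = y := ZMod.natCast_zmod_val y
  rcases (by omega : n = 0 ∨ n = 1) with h8 | h8
  · left
    rw [h8, zero_mul] at h5
    have h10 : y.val = 0 := by exact_mod_cast h5.symm
    rw [← h9, h10, Nat.cast_zero]
  · right
    rw [h8, one_mul] at h5
    have h10 : y.val = 2 * N := by exact_mod_cast h5.symm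
    rw [← h9, h10]

private theorem Id_eval (P : ℝ[X]) (ρ : ℝ) :
    (P.map (algebraMap ℝ ℂ)).eval (ρ : ℂ) = ((P.eval ρ : ℝ) : ℂ) := by
  rw [eval_map]
  exact eval₂_at_apply (algebraMap ℝ ℂ) ρ

theorem Rc_TD (hN : 3 ≤ N) {c : ZMod 2} {M : ZMod (4 * N) → ℝ} {R : Cl N c → Finset ℝ} {Lc : ℝ}
    (hLc : 0 < Lc) (hR : ∀ a, hh N c M a.1 * UU N = C Lc * Lagrange.nodal (R a) id) (i : ℕ) :
    (fun a => (((Lagrange.nodal (R a) id).coeff i : ℝ) : ℂ)) ∈
      TD (ph (c := c)) (((2 * N - 3 : ℕ) : ℤ) - i) := by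
  have h1 : ∀ a : Cl N c, (Lagrange.nodal (R a) id).coeff i =
      Lc⁻¹ * ∑ x ∈ Finset.HasAntidiagonal.antidiagonal i,
        (hh N c M a.1).coeff x.1 * (UU N).coeff x.2 := by
    intro a
    rw [← coeff_mul, hR a, coeff_C_mul, ← mul_assoc, inv_mul_cancel₀ hLc.ne', one_mul]
  have h2 : (fun a : Cl N c => (((Lagrange.nodal (R a) id).coeff i : ℝ) : ℂ)) =
      ∑ x ∈ Finset.HasAntidiagonal.antidiagonal i, ((Lc⁻¹ * (UU N).coeff x.2 : ℝ) : ℂ) •
        fun a : Cl N c => (((hh N c M a.1).coeff x.1 : ℝ) : ℂ) := by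
    funext a
    rw [h1, Finset.sum_apply, Finset.mul_sum, Complex.ofReal_sum]
    refine Finset.sum_congr rfl fun x _ => ?_
    rw [Pi.smul_apply, smul_eq_mul]
    push_cast
    ring
  rw [h2]
  refine Submodule.sum_mem _ fun x hx => ?_
  rw [Finset.HasAntidiagonal.mem_antidiagonal] at hx
  by_cases h3 : N - 1 < x.2
  · rw [Id_UUdeg (by omega) h3, mul_zero, Complex.ofReal_zero, zero_smul]
    exact Submodule.zero_mem _
  · refine Submodule.smul_mem _ _ (TD_mono ?_ (hh_TD c M x.1))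
    rw [Id_cast hN]
    omega

theorem J_zero (hN : 3 ≤ N) {c : ZMod 2} {M : ZMod (4 * N) → ℝ} {R : Cl N c → Finset ℝ} {Lc : ℝ}
    (hLc : 0 < Lc) (hR : ∀ a, hh N c M a.1 * UU N = C Lc * Lagrange.nodal (R a) id)
    (hRc : ∀ a, (R a).card = 2 * N - 3) {A : Cl N c → ℂ[X]}
    (hAn : ∀ a, (A a).natDegree ≤ 2 * N - 4)
    (hA : ∀ i : ℕ, (fun a => (A a).coeff i) ∈ TD (ph (c := c)) (2 * (N : ℤ) - 4 - i))
    (l : ZMod (4 * N)) :
    ∑ a : Cl N c, ((Real.cos (N * sg N (a.1 - l)) : ℝ) : ℂ) *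
      ∑ ρ ∈ R a, (A a).eval (ρ : ℂ) *
        (((Jp N (Real.cos (sg N (a.1 - l)))).eval ρ / ∏ q ∈ (R a).erase ρ, (ρ - q) : ℝ) : ℂ) =
      0 := by
  have h1 := rt_poly (s := ph (c := c)) (b := 2 * N - 3) (n := 3 * N) (D := 3 * (N : ℤ) - 6) hRc
    (fun i => Rc_TD hN hLc hR i)
    (A := fun a => A a * (Jp N (Real.cos (ph a - sg N l))).map (algebraMap ℝ ℂ))
    (fun a => by
      refine natDegree_mul_le.trans ?_
      have h2 := hAn a
      have h3 : ((Jp N (Real.cos (ph a - sg N l))).map (algebraMap ℝ ℂ)).natDegree ≤ N - 2 :=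
        natDegree_map_le.trans (Jp_natDegree _ _)
      omega)
    (fun i => by
      have h2 : (fun a : Cl N c => (A a * (Jp N (Real.cos (ph a - sg N l))).map
          (algebraMap ℝ ℂ)).coeff i) =
            ∑ x ∈ Finset.HasAntidiagonal.antidiagonal i, fun a : Cl N c =>
            (A a).coeff x.1 * (((Jp N (Real.cos (ph a - sg N l))).coeff x.2 : ℝ) : ℂ) := by
        funext a
        rw [coeff_mul, Finset.sum_apply]
        refine Finset.sum_congr rfl fun x _ => ?_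
        rw [coeff_map]
        rfl
      rw [h2]
      refine Submodule.sum_mem _ fun x hx => ?_
      rw [Finset.HasAntidiagonal.mem_antidiagonal] at hx
      refine TD_mono ?_ (TD_mul (hA x.1) (Jp_TD N (sg N l) x.2))
      omega)
  have h2 := TD_sum_zero (N := N) (by
    rw [Id_cast hN]
    omega) h1 l
  refine Eq.trans (Finset.sum_congr rfl fun a _ => ?_) h2
  congr 1
  refine Finset.sum_congr rfl fun ρ _ => ?_
  rw [eval_mul, Id_eval, cos_sg_sub, Complex.ofReal_div]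
  change _ = (A a).eval (ρ : ℂ) * (((Jp N (Real.cos (sg N a.1 - sg N l))).eval ρ : ℝ) : ℂ) / _
  rw [mul_div_assoc]

theorem main_id (hN : 3 ≤ N) {c : ZMod 2} {M : ZMod (4 * N) → ℝ}
    (hM : ∀ k, par N k = c → 0 < M k) {R : Cl N c → Finset ℝ} {Lc : ℝ}
    (hLc : 0 < Lc) (hR : ∀ a, hh N c M a.1 * UU N = C Lc * Lagrange.nodal (R a) id)
    (hRc : ∀ a, (R a).card = 2 * N - 3) {A : Cl N c → ℂ[X]}
    (hAn : ∀ a, (A a).natDegree ≤ 2 * N - 4)
    (hA : ∀ i : ℕ, (fun a => (A a).coeff i) ∈ TD (ph (c := c)) (2 * (N : ℤ) - 4 - i))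
    (l l' : Cl N c) (hl' : l'.1 = l.1 + (2 * N : ℕ)) :
    ∑ a : Cl N c, ∑ ρ ∈ R a, (A a).eval (ρ : ℂ) *
        ((gg N (a.1 - l.1) ρ / ∏ q ∈ (R a).erase ρ, (ρ - q) : ℝ) : ℂ) =
      ((N * Lc / ∑ k with par N k = c, k3 N (l.1 - k) * M k : ℝ) : ℂ) *
        ((A l).eval 1 + (A l').eval (-1)) := by
  classical
  have hNr : (N : ℝ) ≠ 0 := Nat.cast_ne_zero.2 (NeZero.ne N)
  have h4N : l'.1 - l.1 = ((2 * N : ℕ) : ZMod (4 * N)) := by rw [hl', add_sub_cancel_left]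
  have hpar : ∀ a : Cl N c, par N (a.1 - l.1) = 0 := by
    intro a
    rw [map_sub, a.2, l.2, sub_self]
  -- the value `h₀`
  obtain ⟨h₀, hh0⟩ : ∃ h : ℝ, h = ∑ k with par N k = c, k3 N (l.1 - k) * M k := ⟨_, rfl⟩
  rw [← hh0]
  have hkk : ∀ k, par N k = c → par N (l.1 - k) = 0 := by
    intro k hk
    rw [map_sub, hk, l.2, sub_self]
  have h0pos : 0 < h₀ := by
    rw [hh0]
    refine Finset.sum_pos' (fun k hk => ?_) ⟨l.1, ?_, ?_⟩
    · have hk' := (Finset.mem_filter.1 hk).2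
      exact mul_nonneg (k3_nonneg (hkk k hk')) (hM k hk').le
    · exact Finset.mem_filter.2 ⟨Finset.mem_univ _, l.2⟩
    · rw [sub_self]
      exact mul_pos (k3_zero_pos (by omega)) (hM _ l.2)
  have hl1 : (hh N c M l.1).eval 1 = h₀ := by
    rw [hh0, hh, eval_finsetSum]
    refine Finset.sum_congr rfl fun k hk => ?_
    rw [eval_mul, eval_C, k3_eq (hkk k (Finset.mem_filter.1 hk).2), mul_comm]
  have hl1' : (hh N c M l'.1).eval (-1) = (-1) ^ N * h₀ := by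
    rw [hh0, hh, eval_finsetSum, Finset.mul_sum]
    refine Finset.sum_congr rfl fun k hk => ?_
    have e : l'.1 - k = (l.1 - k) + (2 * N : ℕ) := by rw [hl']; ring
    rw [eval_mul, eval_C, e, Id_add_two, Hp_neg, k3_eq (hkk k (Finset.mem_filter.1 hk).2)]
    ring
  have hU1 : (UU N).eval 1 ≠ 0 := by
    rw [Id_UU (by omega), Polynomial.Chebyshev.U_eval_one]
    have h2 : (((N - 1 : ℕ) : ℤ) : ℝ) + 1 = N := by
      rw [Nat.cast_sub (by omega)]
      push_cast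
      ring
    rw [h2]
    exact hNr
  have hU2 : (UU N).eval (-1) ≠ 0 := by
    rw [Id_UU (by omega), Polynomial.Chebyshev.U_eval_neg_one]
    have h2 : (((N - 1 : ℕ) : ℤ) : ℝ) + 1 = N := by
      rw [Nat.cast_sub (by omega)]
      push_cast
      ring
    rw [h2]
    refine mul_ne_zero ?_ hNr
    exact_mod_cast (Int.negOnePow ((N - 1 : ℕ) : ℤ)).ne_zero
  -- products over the roots
  have hprod : ∀ (a : Cl N c) (c₀ : ℝ), Lc * ∏ q ∈ R a, (c₀ - q) =
      (hh N c M a.1).eval c₀ * (UU N).eval c₀ := by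
    intro a c₀
    have h2 := congrArg (eval c₀) (hR a)
    rw [eval_mul, eval_mul, eval_C, Lagrange.eval_nodal] at h2
    exact h2.symm
  have hsrc : ∀ (a : Cl N c) (c₀ : ℝ), (hh N c M a.1).eval c₀ ≠ 0 → (UU N).eval c₀ ≠ 0 →
      ∑ ρ ∈ R a, (A a).eval (ρ : ℂ) / (((ρ - c₀) * ∏ q ∈ (R a).erase ρ, (ρ - q) : ℝ) : ℂ) =
      -((A a).eval (c₀ : ℂ) * ((Lc / ((hh N c M a.1).eval c₀ * (UU N).eval c₀) : ℝ) : ℂ)) := by
    intro a c₀ h1 h2
    have h3 : Lc * ∏ q ∈ R a, (c₀ - q) ≠ 0 := by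
      rw [hprod]
      exact mul_ne_zero h1 h2
    have h4 : ∏ q ∈ R a, (c₀ - q) ≠ 0 := right_ne_zero_of_mul h3
    have h5 : c₀ ∉ R a := by
      intro hmem
      exact h4 (Finset.prod_eq_zero hmem (sub_self _))
    rw [src (by rw [hRc]; have := hAn a; omega) h5]
    have h6 : Lc / ((hh N c M a.1).eval c₀ * (UU N).eval c₀) = 1 / ∏ q ∈ R a, (c₀ - q) := by
      rw [← hprod]
      field_simp
    rw [h6]
    push_cast
    rw [one_div, ← div_eq_mul_inv]
  -- the two parts of the source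
  have hgg : ∀ (a : Cl N c) (ρ : ℝ), ((gg N (a.1 - l.1) ρ / ∏ q ∈ (R a).erase ρ, (ρ - q) : ℝ) : ℂ) =
      -(((Real.cos (N * sg N (a.1 - l.1)) : ℝ) : ℂ) *
        (((Jp N (Real.cos (sg N (a.1 - l.1)))).eval ρ / ∏ q ∈ (R a).erase ρ, (ρ - q) : ℝ) : ℂ)) -
      ((Real.cos (N * sg N (a.1 - l.1)) * N * (UU N).eval (Real.cos (sg N (a.1 - l.1))) : ℝ) : ℂ) *
        (1 / (((ρ - Real.cos (sg N (a.1 - l.1))) * ∏ q ∈ (R a).erase ρ, (ρ - q) : ℝ) : ℂ)) := by
    intro a ρ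
    unfold gg
    rw [← Complex.ofReal_one, ← Complex.ofReal_div, ← Complex.ofReal_mul, ← Complex.ofReal_mul,
      ← Complex.ofReal_neg, ← Complex.ofReal_sub]
    congr 1
    rw [mul_add, add_div, sub_eq_add_neg]
    congr 1
    · ring
    · rw [one_div, mul_inv]
      ring
  have hsplit : ∑ a : Cl N c, ∑ ρ ∈ R a, (A a).eval (ρ : ℂ) *
      ((gg N (a.1 - l.1) ρ / ∏ q ∈ (R a).erase ρ, (ρ - q) : ℝ) : ℂ) =
      -(∑ a : Cl N c, ((Real.cos (N * sg N (a.1 - l.1)) : ℝ) : ℂ) *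
        ∑ ρ ∈ R a, (A a).eval (ρ : ℂ) * (((Jp N (Real.cos (sg N (a.1 - l.1)))).eval ρ /
          ∏ q ∈ (R a).erase ρ, (ρ - q) : ℝ) : ℂ)) -
      ∑ a : Cl N c, ((Real.cos (N * sg N (a.1 - l.1)) * N *
        (UU N).eval (Real.cos (sg N (a.1 - l.1))) : ℝ) : ℂ) * ∑ ρ ∈ R a, (A a).eval (ρ : ℂ) /
          (((ρ - Real.cos (sg N (a.1 - l.1))) * ∏ q ∈ (R a).erase ρ, (ρ - q) : ℝ) : ℂ) := by
    rw [← Finset.sum_neg_distrib, ← Finset.sum_sub_distrib]
    refine Finset.sum_congr rfl fun a _ => ?_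
    rw [Finset.mul_sum, Finset.mul_sum, ← Finset.sum_neg_distrib, ← Finset.sum_sub_distrib]
    refine Finset.sum_congr rfl fun ρ _ => ?_
    rw [hgg]
    ring
  rw [hsplit, J_zero hN hLc hR hRc hAn hA l.1, neg_zero, zero_sub]
  have hne : l ≠ l' := by
    intro h
    rw [← h, sub_self] at h4N
    have h2 := congrArg ZMod.val h4N
    have hNp : 0 < N := Nat.pos_of_ne_zero (NeZero.ne N)
    rw [ZMod.val_cast_of_lt (by omega), ZMod.val_zero] at h2
    omega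
  rw [Finset.sum_eq_add l l' hne]
  · have e1 : sg N (l.1 - l.1) = 0 := by rw [sub_self]; simp [sg]
    rw [e1, h4N, Id_two, mul_zero, Real.cos_zero, Real.cos_pi, Real.cos_nat_mul_pi,
      hsrc l 1 (by rw [hl1]; exact h0pos.ne') hU1,
      hsrc l' (-1) (by rw [hl1']; exact mul_ne_zero (pow_ne_zero _ (by norm_num)) h0pos.ne') hU2,
      hl1, hl1']
    have e2 : (1 * (N : ℝ) * (UU N).eval 1) * (Lc / (h₀ * (UU N).eval 1)) = N * Lc / h₀ := by
      field_simp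
    have e3 : ((-1) ^ N * (N : ℝ) * (UU N).eval (-1)) *
        (Lc / ((-1) ^ N * h₀ * (UU N).eval (-1))) = N * Lc / h₀ := by
      have h5 : ((-1 : ℝ) ^ N) ≠ 0 := pow_ne_zero _ (by norm_num)
      field_simp
    have e4 : ∀ (x y : ℝ) (z : ℂ), (x : ℂ) * -(z * (y : ℂ)) = -(((x * y : ℝ) : ℂ) * z) := by
      intro x y z
      push_cast
      ring
    rw [e4, e4, e2, e3]
    push_cast
    ring
  · intro a _ ha
    have h2 : Real.sin (sg N (a.1 - l.1)) ≠ 0 := by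
      intro h3
      rcases Id_sin h3 with h4 | h4
      · exact ha.1 (Subtype.ext (sub_eq_zero.1 h4))
      · refine ha.2 (Subtype.ext ?_)
        rw [← h4N] at h4
        exact sub_left_inj.1 h4
    have h3 := UU_sin N (sg N (a.1 - l.1))
    rw [sin_even (hpar a)] at h3
    have h4 : (UU N).eval (Real.cos (sg N (a.1 - l.1))) = 0 := (mul_eq_zero.1 h3).resolve_right h2
    rw [h4, mul_zero, Complex.ofReal_zero, zero_mul]
  · exact fun h => absurd (Finset.mem_univ _) h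
  · exact fun h => absurd (Finset.mem_univ _) h

end Pool.Agent.MPbd65ca.Sp
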