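import Pool.Agent.Lib.MP_bd65ca_an_S.K3

/-!
# Positivity of the kernels, and the recursion of the grid sums

PROOF. `KM_nonneg`, `KM_zero_pos`: induction on `d` (`k3_nonneg`, `k3_zero_pos`, `kap_pos`); for
`ty 0 = true`:
`KM (d + 1) 0 ≥ k3 N 0 * KM d 0`.  `gsM_cons`: as `Ind_gsum` in F/Ind.lean: `Fin.consEquiv`,
`Fin.prod_univ_succ`.  `TgM_cons`: as `Ind_Tg` (`Fin.cons_update`).
-/

open MeasureTheory FourierTransform Pointwise Set Finset Polynomial
open scoped RealInnerProductSpace

namespace Pool.Agent.MPbd65ca.Sp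

open Pool.Agent.MPbd65ca.Oct Pool.Agent.MPbd65ca.Bp

variable {N : ℕ} [NeZero N]

private theorem KMb_true {d : ℕ} {ty : Fin (d + 1) → Bool} (h : ty 0 = true)
    (y : ZMod (4 * N)) :
    KM N (d + 1) ty y = ∑ z with par N z = 0, k3 N z * KM N d (Fin.tail ty) (y - z) := by
  rw [KM, if_pos h]

private theorem KMb_false {d : ℕ} {ty : Fin (d + 1) → Bool} (h : ty 0 = false)
    (y : ZMod (4 * N)) :
    KM N (d + 1) ty y = 1 / 2 * (KM N d (Fin.tail ty) y +
      ∑ t with par N t = 1, kap N t * KM N d (Fin.tail ty) (y + 2 * t)) := by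
  rw [KM, if_neg (by rw [h]; exact Bool.false_ne_true)]

theorem KM_nonneg {d : ℕ} (ty : Fin d → Bool) (y : ZMod (4 * N)) : 0 ≤ KM N d ty y := by
  induction d generalizing y with
  | zero =>
    change (0 : ℝ) ≤ if y = 0 then 1 else 0
    split_ifs
    · exact zero_le_one
    · exact le_rfl
  | succ d ih =>
    rcases Bool.eq_false_or_eq_true (ty 0) with h | h
    · rw [KMb_true h]
      exact Finset.sum_nonneg fun z hz =>
        mul_nonneg (k3_nonneg (Finset.mem_filter.1 hz).2) (ih _ _)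
    · rw [KMb_false h]
      have h1 : 0 ≤ ∑ t with par N t = 1, kap N t * KM N d (Fin.tail ty) (y + 2 * t) :=
        Finset.sum_nonneg fun t ht =>
          mul_nonneg (kap_pos (Finset.mem_filter.1 ht).2).le (ih _ _)
      have h2 := ih (Fin.tail ty) y
      linarith

theorem KM_zero_pos (hN : 2 ≤ N) {d : ℕ} (ty : Fin d → Bool) : 0 < KM N d ty 0 := by
  induction d with
  | zero =>
    change (0 : ℝ) < if (0 : ZMod (4 * N)) = 0 then 1 else 0
    rw [if_pos rfl]
    exact one_pos
  | succ d ih =>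
    rcases Bool.eq_false_or_eq_true (ty 0) with h | h
    · rw [KMb_true h]
      have h1 : k3 N 0 * KM N d (Fin.tail ty) (0 - 0) ≤
          ∑ z with par N z = 0, k3 N z * KM N d (Fin.tail ty) (0 - z) :=
        Finset.single_le_sum (f := fun z => k3 N z * KM N d (Fin.tail ty) (0 - z))
          (fun z hz => mul_nonneg (k3_nonneg (Finset.mem_filter.1 hz).2) (KM_nonneg _ _))
          (Finset.mem_filter.2 ⟨Finset.mem_univ _, map_zero _⟩)
      rw [sub_self] at h1
      exact lt_of_lt_of_le (mul_pos (k3_zero_pos hN) (ih _)) h1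
    · rw [KMb_false h]
      have h1 : 0 ≤ ∑ t with par N t = 1, kap N t * KM N d (Fin.tail ty) (0 + 2 * t) :=
        Finset.sum_nonneg fun t ht =>
          mul_nonneg (kap_pos (Finset.mem_filter.1 ht).2).le (KM_nonneg _ _)
      have h2 := ih (Fin.tail ty)
      linarith

theorem gsM_cons {d : ℕ} (ty : Fin (d + 1) → Bool) (p : (Fin (d + 1) → ℝ) → ℝ → ℝ)
    (c : ZMod 2) : gsM (d + 1) N ty p c =
      ∑ t, wt N (ty 0) t * gsM d N (Fin.tail ty) (fun x s => p (Fin.cons (sg N t) x) s) c := by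
  unfold gsM
  rw [← (Fin.consEquiv (fun _ : Fin (d + 1) => ZMod (4 * N))).sum_comp, Fintype.sum_prod_type]
  refine Finset.sum_congr rfl fun t _ => ?_
  rw [Finset.mul_sum]
  refine Finset.sum_congr rfl fun X _ => ?_
  rw [← mul_assoc]
  have h0 : ∏ i, wt N (ty i) ((Fin.consEquiv (fun _ : Fin (d + 1) => ZMod (4 * N))) (t, X) i) =
      wt N (ty 0) t * ∏ i, wt N (Fin.tail ty i) (X i) := by
    rw [Fin.prod_univ_succ]
    rfl
  rw [h0]
  congr 1
  refine Finset.sum_congr rfl fun k _ => ?_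
  congr 1
  funext i
  refine Fin.cases ?_ (fun j => ?_) i <;> simp [Fin.consEquiv]

theorem TgM_cons {d : ℕ} {ty : Fin (d + 1) → Bool} {p : (Fin (d + 1) → ℝ) → ℝ → ℝ}
    (hp : TgM (d + 1) N ty p) (a : ℝ) :
    TgM d N (Fin.tail ty) (fun x s => p (Fin.cons a x) s) where
  nonneg x s := hp.nonneg _ _
  per x s := hp.per _ _
  line x s i σ hi hσ := by
    have h := hp.line (Fin.cons a x) s i.succ σ hi hσ
    have h1 : (fun t => p (Fin.cons a (Function.update x i t)) (s + σ * t)) =
        fun t => p (Function.update (Fin.cons a x) i.succ t) (s + σ * t) := by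
      funext t
      rw [Fin.cons_update]
    rw [h1]
    exact h
  leaf x i hi := by
    have h := hp.leaf (Fin.cons a x) i.succ hi
    have h1 : (fun w s => p (Fin.cons a (Function.update x i w)) s) =
        fun w s => p (Function.update (Fin.cons a x) i.succ w) s := by
      funext w s
      rw [Fin.cons_update]
    rw [h1]
    exact h

theorem pc_cons {d : ℕ} (ty : Fin (d + 1) → Bool) :
    pc ty = (if ty 0 then 0 else 1) + pc (Fin.tail ty) := by
  unfold pc
  rw [Fin.sum_univ_succ]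
  rfl

theorem cw_pos {A m : ZMod (4 * N) → ℝ} (hA : ∀ y, 0 ≤ A y) (hA0 : 0 < A 0)
    (hm : ∀ k, 0 ≤ m k) {k : ZMod (4 * N)} (hk : 0 < m k) : 0 < cw N A m k := by
  unfold cw
  have h := Finset.single_le_sum (f := fun k' => A (k - k') * m k')
    (fun k' _ => mul_nonneg (hA _) (hm k')) (Finset.mem_univ k)
  simp only [sub_self] at h
  exact lt_of_lt_of_le (mul_pos hA0 hk) h

end Pool.Agent.MPbd65ca.Sp
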