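import Pool.Agent.Lib.MP_bd65ca_an_S.KMb

/-!
# The value of the kernel at the origin

PROOF. Let `β i n = 2 N (r ^ 3 - r) / 3` (`r = |N - n|`) if `ty i`, and `|1 - n / N|` else.
`KM_closed`: for `y` even `KM N d ty y = 1 / (2 N) * ∑ n ∈ range (2 N), (∏ i, β i n) * cos (n sg
y)`:
induction on `d`; `d = 0`: `KK_closed 0`; `ty 0 = false`: as in `KK_closed` (F/Kap.lean), or apply
it; in
detail `cos (n sg (y + 2 t)) = cos (n sg y) cos (2 n sg t) - sin sin`, the odd part vanishes, and
`∑_t kap N t (cos (n * sg N (2 t)))`: see `kap_cos` and the proof of `KK_closed`.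
`ty 0 = true`: `∑_{z even} k3 z cos (n sg (y - z)) = cos (n sg y) ∑_{z even} k3 z cos (n sg z)`
and, with
`k3 z = ∑_m g m cos (m sg z)`, `g m = g (2 N - m)`: `∑_{z even} cos (m sg z) cos (n sg z)` is
`N ([m = n] + [m + n = 2 N or m = n = 0])`, so the factor is `2 N g n = β n`.
`KM_zero_le`: at `y = 0`, `β n ≤ (2 N ^ 4 / 3) |1 - n / N| ^ 3` for `ty i = true`, all `β n ≥ 0`,
and
`KK_closed` with `j = pd ty`.
-/

open MeasureTheory FourierTransform Pointwise Set Finset Polynomial
open scoped RealInnerProductSpace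

namespace Pool.Agent.MPbd65ca.Sp

open Pool.Agent.MPbd65ca.Oct Pool.Agent.MPbd65ca.Bp

variable {N : ℕ} [NeZero N]

private theorem KMc_N : (0 : ℝ) < N := by
  exact_mod_cast Nat.pos_of_ne_zero (NeZero.ne N)

private theorem KMc_par (t : ZMod (4 * N)) : par N t = ((t.val : ℕ) : ZMod 2) := by
  conv_lhs => rw [← ZMod.natCast_zmod_val t]
  exact map_natCast _ _

omit [NeZero N] in
private theorem KMc_ne {t : ZMod (4 * N)} (ht : par N t = 1) : t ≠ 0 := by
  rintro rfl
  rw [map_zero] at ht
  exact zero_ne_one ht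

private theorem KMc_sgneg {t : ZMod (4 * N)} (h : t ≠ 0) :
    sg N (-t) = 2 * Real.pi - sg N t := by
  have hN : (0 : ℝ) < N := KMc_N
  unfold sg
  rw [ZMod.neg_val, if_neg h, Nat.cast_sub (ZMod.val_lt t).le]
  push_cast
  field_simp
  ring

private theorem KMc_nsum (c : ZMod 2) (f : ZMod (4 * N) → ℝ) :
    ∑ t with par N t = c, f (-t) = ∑ t with par N t = c, f t := by
  rw [Finset.sum_filter, Finset.sum_filter]
  refine Fintype.sum_equiv (Equiv.neg _) _ _ fun t => ?_
  have h1 : par N (-t) = par N t := by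
    rw [map_neg]
    exact ZMod.neg_eq_self_mod_two _
  rw [Equiv.neg_apply, h1]

/-- The sine part of an even weight vanishes. -/
private theorem KMc_sin0 (c : ZMod 2) (w : ZMod (4 * N) → ℝ) (hw : ∀ t, w (-t) = w t) (n : ℕ) :
    ∑ t with par N t = c, w t * Real.sin (n * sg N t) = 0 := by
  have h1 := KMc_nsum c (fun t => w t * Real.sin (n * sg N t))
  have h2 : ∑ t with par N t = c, w (-t) * Real.sin (n * sg N (-t)) =
      -∑ t with par N t = c, w t * Real.sin (n * sg N t) := by
    rw [← Finset.sum_neg_distrib]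
    refine Finset.sum_congr rfl fun t _ => ?_
    by_cases ht : t = 0
    · have h0 : sg N 0 = 0 := by simp [sg]
      rw [ht, neg_zero, h0, mul_zero, Real.sin_zero]
      ring
    · have e1 : (n : ℝ) * (2 * Real.pi - sg N t) = n * (2 * Real.pi) - n * sg N t := by ring
      rw [hw, KMc_sgneg ht, e1, Real.sin_nat_mul_two_pi_sub]
      ring
  rw [h2] at h1
  linarith

private theorem KMc_E {n : ℕ} (hn : n < 2 * N) :
    1 + ∑ t with par N t = 1, kap N t * Real.cos (2 * n * sg N t) = 2 * |1 - (n : ℝ) / N| := by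
  have hN : (0 : ℝ) < N := KMc_N
  rcases le_total n N with h | h
  · have h1 : (n : ℝ) ≤ N := by exact_mod_cast h
    rw [kap_cos h, abs_of_nonneg (sub_nonneg.2 ((div_le_one hN).2 h1))]
    ring
  · have h1 : (N : ℝ) ≤ n := by exact_mod_cast h
    have h2 : ∑ t with par N t = 1, kap N t * Real.cos (2 * n * sg N t) =
        ∑ t with par N t = 1, kap N t * Real.cos (2 * ((2 * N - n : ℕ) : ℝ) * sg N t) := by
      refine Finset.sum_congr rfl fun t _ => ?_
      have e1 : 2 * ((2 * N - n : ℕ) : ℝ) * sg N t =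
          (t.val : ℝ) * (2 * Real.pi) - 2 * n * sg N t := by
        rw [Nat.cast_sub hn.le]
        unfold sg
        push_cast
        field_simp
        try ring
      rw [e1, Real.cos_nat_mul_two_pi_sub]
    rw [h2, kap_cos (by omega), Nat.cast_sub hn.le,
      abs_of_nonpos (sub_nonpos.2 ((one_le_div hN).2 h1))]
    push_cast
    field_simp
    ring

/-- The function `cos (n sg y)` is a character. -/
private theorem KMc_shift (n : ℕ) (y z : ZMod (4 * N)) (q : ℤ) :
    Real.cos (n * sg N (y + q * z)) = Real.cos (n * sg N y + q * (n * sg N z)) := by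
  have hN : (0 : ℝ) < N := KMc_N
  have h1 : (((y + q * z).val - y.val - q * z.val : ℤ) : ZMod (4 * N)) = 0 := by
    push_cast
    rw [ZMod.natCast_zmod_val, ZMod.natCast_zmod_val, ZMod.natCast_zmod_val]
    ring
  rw [ZMod.intCast_zmod_eq_zero_iff_dvd] at h1
  obtain ⟨r, hr⟩ := h1
  have h2 : ((y + q * z).val : ℝ) = y.val + q * z.val + 4 * N * r := by
    have h3 : ((y + q * z).val : ℤ) = y.val + q * z.val + 4 * N * r := by
      push_cast at hr
      linarith
    exact_mod_cast h3
  have h4 : n * sg N (y + q * z) = (n * sg N y + q * (n * sg N z)) +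
      ((n * r : ℤ) : ℝ) * (2 * Real.pi) := by
    unfold sg
    rw [h2]
    push_cast
    field_simp
    ring
  rw [h4, Real.cos_add_int_mul_two_pi]

/-- The coefficients of `k3`. -/
private noncomputable def gg3 (N n : ℕ) : ℝ := (|(N : ℝ) - n| ^ 3 - |(N : ℝ) - n|) / 3

omit [NeZero N] in
private theorem gg3_refl {n : ℕ} (hn : n ≤ 2 * N) : gg3 N (2 * N - n) = gg3 N n := by
  have h1 : (N : ℝ) - ((2 * N - n : ℕ) : ℝ) = -((N : ℝ) - n) := by
    rw [Nat.cast_sub hn]
    push_cast
    ring
  unfold gg3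
  rw [h1, abs_neg]

omit [NeZero N] in
private theorem gg3_nonneg (n : ℕ) : 0 ≤ gg3 N n := by
  have h1 : ∃ r : ℕ, |(N : ℝ) - n| = r := by
    refine ⟨((N : ℤ) - n).natAbs, ?_⟩
    rw [Nat.cast_natAbs]
    push_cast
    rfl
  obtain ⟨r, hr⟩ := h1
  unfold gg3
  rw [hr]
  have h2 : (r : ℝ) ≤ (r : ℝ) ^ 3 := by
    have h3 : r ≤ r ^ 3 := Nat.le_self_pow (by norm_num) r
    exact_mod_cast h3
  have h4 : 0 ≤ (r : ℝ) ^ 3 - r := by linarith
  positivity

/-- Sums over the even residues. -/
private theorem KMc_ev (f : ZMod (4 * N) → ℝ) :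
    ∑ t with par N t = 0, f t = ∑ l ∈ range (2 * N), f ((2 * l : ℕ) : ZMod (4 * N)) := by
  have hr : range (4 * N) = range (2 * (2 * N)) := by rw [show 4 * N = 2 * (2 * N) by ring]
  rw [Finset.sum_filter, ← Comb.sum_range_zmod (fun t => if par N t = 0 then f t else 0),
    hr, Comb.sum_range_two_mul]
  refine Finset.sum_congr rfl fun j _ => ?_
  have h1 : par N ((2 * j : ℕ) : ZMod (4 * N)) = 0 := by
    rw [map_natCast, Nat.cast_mul, Nat.cast_ofNat, Comb.two_zero, zero_mul]
  have h2 : par N ((2 * j + 1 : ℕ) : ZMod (4 * N)) ≠ 0 := by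
    rw [map_natCast, Nat.cast_add, Nat.cast_mul, Nat.cast_ofNat, Comb.two_zero, zero_mul,
      zero_add, Nat.cast_one]
    decide
  rw [if_pos h1, if_neg h2, add_zero]

private theorem KMc_sgev {l : ℕ} (hl : l < 2 * N) :
    sg N ((2 * l : ℕ) : ZMod (4 * N)) = Real.pi * l / N := by
  have hN : (0 : ℝ) < N := KMc_N
  have h1 : (((2 * l : ℕ) : ZMod (4 * N))).val = 2 * l :=
    ZMod.val_cast_of_lt (by omega)
  rw [sg, h1]
  push_cast
  field_simp

private theorem KMc_orth (m n : ℕ) :
    ∑ z with par N z = 0, Real.cos (m * sg N z) * Real.cos (n * sg N z) =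
      1 / 2 * ((if (2 * N : ℤ) ∣ (m : ℤ) - n then (2 * N : ℝ) else 0) +
        if (2 * N : ℤ) ∣ (m : ℤ) + n then (2 * N : ℝ) else 0) := by
  have hN : 0 < N := Nat.pos_of_ne_zero (NeZero.ne N)
  have hc : ∀ K : ℤ, ∑ l ∈ range (2 * N), Real.cos (K * (Real.pi * l / N)) =
      if (2 * N : ℤ) ∣ K then (2 * N : ℝ) else 0 := by
    intro K
    split_ifs with h
    · exact Oct.TrigAux.csum_dvd hN h
    · exact Oct.TrigAux.csum_ne hN h
  rw [KMc_ev, ← hc, ← hc, ← Finset.sum_add_distrib, Finset.mul_sum]
  refine Finset.sum_congr rfl fun l hl => ?_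
  rw [KMc_sgev (mem_range.1 hl)]
  push_cast
  rw [sub_mul, add_mul, Real.cos_sub, Real.cos_add]
  ring

private theorem KMc_G {n : ℕ} (hn : n < 2 * N) :
    ∑ z with par N z = 0, k3 N z * Real.cos (n * sg N z) = 2 * N * gg3 N n := by
  have hN : (0 : ℝ) < N := KMc_N
  have h1 : ∑ z with par N z = 0, k3 N z * Real.cos (n * sg N z) =
      ∑ m ∈ range (2 * N), gg3 N m * ∑ z with par N z = 0,
        Real.cos (m * sg N z) * Real.cos (n * sg N z) := by
    simp only [k3, Finset.sum_mul, Finset.mul_sum]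
    rw [Finset.sum_comm]
    refine Finset.sum_congr rfl fun m _ => Finset.sum_congr rfl fun z _ => ?_
    unfold gg3
    ring
  rw [h1]
  simp only [KMc_orth]
  have h2 : ∀ m ∈ range (2 * N), gg3 N m * (1 / 2 * ((if (2 * N : ℤ) ∣ (m : ℤ) - n then
      (2 * N : ℝ) else 0) + if (2 * N : ℤ) ∣ (m : ℤ) + n then (2 * N : ℝ) else 0)) =
      (if m = n then (N : ℝ) * gg3 N n else 0) +
        if m = (if n = 0 then 0 else 2 * N - n) then (N : ℝ) * gg3 N n else 0 := by
    intro m hm
    have hm' := mem_range.1 hm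
    have e1 : ((2 * N : ℤ) ∣ (m : ℤ) - n) ↔ m = n := by
      constructor
      · intro h
        have h3 : (m : ℤ) - n = 0 := by
          refine Int.eq_zero_of_abs_lt_dvd h ?_
          rw [abs_lt]
          constructor <;> omega
        omega
      · rintro rfl
        rw [sub_self]
        exact dvd_zero _
    have e2 : ((2 * N : ℤ) ∣ (m : ℤ) + n) ↔ m = (if n = 0 then 0 else 2 * N - n) := by
      constructor
      · rintro ⟨q, hq⟩
        have hN' : (0 : ℤ) < N := by exact_mod_cast Nat.pos_of_ne_zero (NeZero.ne N)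
        have hq2 : q < 2 := by
          by_contra hc
          push Not at hc
          have : (2 * N : ℤ) * 2 ≤ 2 * N * q := by nlinarith
          omega
        have hq0 : 0 ≤ q := by
          by_contra hc
          push Not at hc
          have : (2 * N : ℤ) * q ≤ 2 * N * (-1) := by nlinarith
          omega
        have hq3 : q = 0 ∨ q = 1 := by omega
        rcases hq3 with rfl | rfl
        · split_ifs with h0 <;> omega
        · split_ifs with h0 <;> omega
      · intro h
        split_ifs at h with h0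
        · rw [h, h0]
          exact ⟨0, by simp⟩
        · exact ⟨1, by omega⟩
    simp only [e1, e2]
    have e3 : m = (if n = 0 then 0 else 2 * N - n) → gg3 N m = gg3 N n := by
      intro h
      split_ifs at h with h0
      · rw [h, h0]
      · rw [h]
        exact gg3_refl hn.le
    have e4 : gg3 N m * (1 / 2 * ((if m = n then (2 * N : ℝ) else 0) +
        if m = (if n = 0 then 0 else 2 * N - n) then (2 * N : ℝ) else 0)) =
        (if m = n then (N : ℝ) * gg3 N m else 0) +
        if m = (if n = 0 then 0 else 2 * N - n) then (N : ℝ) * gg3 N m else 0 := by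
      generalize (if n = 0 then 0 else 2 * N - n) = b
      by_cases ha : m = n
      · by_cases hb : m = b
        · rw [if_pos ha, if_pos hb, if_pos ha, if_pos hb]
          ring
        · rw [if_pos ha, if_neg hb, if_pos ha, if_neg hb]
          ring
      · by_cases hb : m = b
        · rw [if_neg ha, if_pos hb, if_neg ha, if_pos hb]
          ring
        · rw [if_neg ha, if_neg hb, if_neg ha, if_neg hb]
          ring
    rw [e4]
    congr 1
    · by_cases ha : m = n
      · rw [if_pos ha, if_pos ha, ha]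
      · rw [if_neg ha, if_neg ha]
    · by_cases hb : m = (if n = 0 then 0 else 2 * N - n)
      · rw [if_pos hb, if_pos hb, e3 hb]
      · rw [if_neg hb, if_neg hb]
  rw [Finset.sum_congr rfl h2, Finset.sum_add_distrib, Finset.sum_ite_eq', Finset.sum_ite_eq',
    if_pos (mem_range.2 hn), if_pos]
  · ring
  · rw [Finset.mem_range]
    split_ifs with h0 <;> omega

/-- Convolution with an even weight multiplies the coefficients. -/
private theorem KMc_conv (c : ZMod 2) (w : ZMod (4 * N) → ℝ) (hw : ∀ t, w (-t) = w t) (q : ℤ)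
    (a : ℕ) (ha : (a : ℤ) = q.natAbs) (B b : ℕ → ℝ)
    (hb : ∀ n < 2 * N, ∑ z with par N z = c, w z * Real.cos ((a * n : ℕ) * sg N z) = b n)
    (y : ZMod (4 * N)) :
    ∑ z with par N z = c, w z * (1 / (2 * N) * ∑ n ∈ range (2 * N), B n *
      Real.cos (n * sg N (y + q * z))) =
      1 / (2 * N) * ∑ n ∈ range (2 * N), b n * B n * Real.cos (n * sg N y) := by
  have hs : ∀ n : ℕ, ∑ z with par N z = c, w z * Real.sin ((a * n : ℕ) * sg N z) = 0 :=
    fun n => KMc_sin0 c w hw _
  have key : ∀ n < 2 * N, ∑ z with par N z = c, w z * Real.cos (n * sg N (y + q * z)) =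
      b n * Real.cos (n * sg N y) := by
    intro n hn
    have h1 : ∀ z, w z * Real.cos (n * sg N (y + q * z)) =
        Real.cos (n * sg N y) * (w z * Real.cos ((a * n : ℕ) * sg N z)) -
        (Int.sign q : ℝ) * Real.sin (n * sg N y) * (w z * Real.sin ((a * n : ℕ) * sg N z)) := by
      intro z
      rw [KMc_shift]
      have hq : (q : ℝ) = Int.sign q * a := by
        have h2 : q = Int.sign q * a := by rw [ha, Int.sign_mul_natAbs]
        exact_mod_cast h2
      rcases lt_trichotomy q 0 with h | h | h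
      · rw [Int.sign_eq_neg_one_of_neg h] at hq ⊢
        have e1 : (n : ℝ) * sg N y + q * (n * sg N z) =
            n * sg N y - (a * n : ℕ) * sg N z := by
          rw [hq]
          push_cast
          ring
        rw [e1, Real.cos_sub]
        push_cast
        ring
      · have ha0 : a = 0 := by
          rw [h] at ha
          exact_mod_cast ha
        rw [h, ha0, zero_mul, Nat.cast_zero, zero_mul, Real.cos_zero, Real.sin_zero,
          Int.cast_zero, zero_mul, add_zero]
        ring
      · rw [Int.sign_eq_one_of_pos h] at hq ⊢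
        have e1 : (n : ℝ) * sg N y + q * (n * sg N z) =
            n * sg N y + (a * n : ℕ) * sg N z := by
          rw [hq]
          push_cast
          ring
        rw [e1, Real.cos_add]
        push_cast
        ring
    rw [Finset.sum_congr rfl fun z _ => h1 z, Finset.sum_sub_distrib, ← Finset.mul_sum,
      ← Finset.mul_sum, hs, hb n hn, mul_zero, sub_zero]
    ring
  simp only [Finset.mul_sum]
  rw [Finset.sum_comm]
  refine Finset.sum_congr rfl fun n hn => ?_
  have h3 := key n (mem_range.1 hn)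
  have h4 : ∑ z with par N z = c, w z * (1 / (2 * N) * (B n * Real.cos (n * sg N (y + q * z)))) =
      1 / (2 * N) * B n * ∑ z with par N z = c, w z * Real.cos (n * sg N (y + q * z)) := by
    rw [Finset.mul_sum]
    refine Finset.sum_congr rfl fun z _ => ?_
    ring
  rw [h4, h3]
  ring

theorem KM_closed {d : ℕ} (ty : Fin d → Bool) {y : ZMod (4 * N)} (hy : par N y = 0) :
    KM N d ty y = 1 / (2 * N) * ∑ n ∈ range (2 * N),
      (∏ i, if ty i then 2 * (N : ℝ) * ((|(N : ℝ) - n| ^ 3 - |(N : ℝ) - n|) / 3)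
        else |1 - (n : ℝ) / N|) * Real.cos (n * sg N y) := by
  have hN : (0 : ℝ) < N := KMc_N
  induction d generalizing y with
  | zero =>
    have h1 := KK_closed (N := N) 0 hy
    simp only [pow_zero, one_mul] at h1
    simp only [Finset.univ_eq_empty, Finset.prod_empty, one_mul]
    rw [← h1]
    rfl
  | succ d ih =>
    have h2z : (2 : ZMod 2) = 0 := rfl
    simp only [Fin.prod_univ_succ]
    cases h0 : ty 0 with
    | true =>
      have hs : KM N (d + 1) ty y = ∑ z with par N z = 0, k3 N z *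
          KM N d (Fin.tail ty) (y - z) := by
        rw [KM, if_pos h0]
      have hpar : ∀ z ∈ (Finset.univ.filter fun z : ZMod (4 * N) => par N z = 0),
          par N (y - z) = 0 := by
        intro z hz
        rw [map_sub, hy, (Finset.mem_filter.1 hz).2, sub_zero]
      have h3 := KMc_conv (N := N) 0 (k3 N) k3_neg (-1) 1 (by norm_num)
        (fun n => ∏ i : Fin d, if ty i.succ then
          2 * (N : ℝ) * ((|(N : ℝ) - n| ^ 3 - |(N : ℝ) - n|) / 3) else |1 - (n : ℝ) / N|)
        (fun n => 2 * N * gg3 N n) (fun n hn => by rw [one_mul]; exact KMc_G hn) y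
      rw [hs]
      rw [Finset.sum_congr rfl fun z hz => by rw [ih (Fin.tail ty) (hpar z hz)]]
      simp only [if_true]
      refine Eq.trans ?_ h3
      refine Finset.sum_congr rfl fun z _ => ?_
      have e1 : y + ((-1 : ℤ) : ZMod (4 * N)) * z = y - z := by
        push_cast
        ring
      rw [e1]
      rfl
    | false =>
      have hs : KM N (d + 1) ty y = 1 / 2 * (KM N d (Fin.tail ty) y +
          ∑ t with par N t = 1, kap N t * KM N d (Fin.tail ty) (y + 2 * t)) := by
        rw [KM, if_neg (by rw [h0]; decide)]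
      have hpar : ∀ t : ZMod (4 * N), par N (y + 2 * t) = 0 := by
        intro t
        rw [map_add, hy, map_mul, map_ofNat, h2z, zero_mul, add_zero]
      have h3 := KMc_conv (N := N) 1 (kap N) kap_neg 2 2 (by norm_num)
        (fun n => ∏ i : Fin d, if ty i.succ then
          2 * (N : ℝ) * ((|(N : ℝ) - n| ^ 3 - |(N : ℝ) - n|) / 3) else |1 - (n : ℝ) / N|)
        (fun n => 2 * |1 - (n : ℝ) / N| - 1) (fun n hn => by
          have h4 := KMc_E (N := N) hn
          have h5 : (((2 * n : ℕ)) : ℝ) = 2 * n := by push_cast; ring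
          rw [h5]
          linarith) y
      rw [hs, ih (Fin.tail ty) hy]
      have h6 : ∑ t with par N t = 1, kap N t * KM N d (Fin.tail ty) (y + 2 * t) =
          1 / (2 * N) * ∑ n ∈ range (2 * N), (2 * |1 - (n : ℝ) / N| - 1) *
            (∏ i : Fin d, if ty i.succ then
          2 * (N : ℝ) * ((|(N : ℝ) - n| ^ 3 - |(N : ℝ) - n|) / 3) else |1 - (n : ℝ) / N|) *
            Real.cos (n * sg N y) := by
        refine Eq.trans ?_ h3
        refine Finset.sum_congr rfl fun z _ => ?_
        have e1 : y + ((2 : ℤ) : ZMod (4 * N)) * z = y + 2 * z := by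
          push_cast
          ring
        rw [e1, ih (Fin.tail ty) (hpar z)]
        rfl
      rw [h6]
      simp only [Bool.false_eq_true, if_false]
      rw [← mul_add, ← Finset.sum_add_distrib, ← mul_assoc, mul_comm (1 / 2 : ℝ), mul_assoc,
        Finset.mul_sum]
      congr 1
      refine Finset.sum_congr rfl fun n _ => ?_
      have h7 : (∏ i, if Fin.tail ty i then
          2 * (N : ℝ) * ((|(N : ℝ) - n| ^ 3 - |(N : ℝ) - n|) / 3) else |1 - (n : ℝ) / N|) =
          ∏ i : Fin d, if ty i.succ then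
            2 * (N : ℝ) * ((|(N : ℝ) - n| ^ 3 - |(N : ℝ) - n|) / 3)
            else |1 - (n : ℝ) / N| := rfl
      rw [h7]
      ring

theorem KM_zero_le {d : ℕ} (ty : Fin d → Bool) :
    KM N d ty 0 ≤ (2 * (N : ℝ) ^ 4 / 3) ^ nb ty * KK N (pd ty) 0 := by
  have hN : (0 : ℝ) < N := KMc_N
  have hs0 : sg N 0 = 0 := by simp [sg]
  rw [KM_closed ty (map_zero _), KK_closed (pd ty) (map_zero _)]
  simp only [hs0, mul_zero, Real.cos_zero, mul_one]
  have h1 : ∀ n : ℕ, (∏ i, if ty i then 2 * (N : ℝ) * ((|(N : ℝ) - n| ^ 3 - |(N : ℝ) - n|) / 3)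
      else |1 - (n : ℝ) / N|) ≤
      (2 * (N : ℝ) ^ 4 / 3) ^ nb ty * |1 - (n : ℝ) / N| ^ pd ty := by
    intro n
    have h2 : (2 * (N : ℝ) ^ 4 / 3) ^ nb ty * |1 - (n : ℝ) / N| ^ pd ty =
        ∏ i, if ty i then 2 * (N : ℝ) ^ 4 / 3 * |1 - (n : ℝ) / N| ^ 3
          else |1 - (n : ℝ) / N| := by
      unfold nb pd
      rw [← Finset.prod_pow_eq_pow_sum, ← Finset.prod_pow_eq_pow_sum, ← Finset.prod_mul_distrib]
      refine Finset.prod_congr rfl fun i _ => ?_
      cases ty i
      · simp
      · simp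
    rw [h2]
    have h3 : |1 - (n : ℝ) / N| = |(N : ℝ) - n| / N := by
      have h4 : 1 - (n : ℝ) / N = ((N : ℝ) - n) / N := by field_simp
      rw [h4, abs_div, abs_of_pos hN]
    refine Finset.prod_le_prod (fun i _ => ?_) fun i _ => ?_
    · cases ty i
      · simp only [Bool.false_eq_true, if_false]
        exact abs_nonneg _
      · simp only [if_true]
        exact mul_nonneg (by positivity) (gg3_nonneg n)
    · cases ty i
      · simp only [Bool.false_eq_true, if_false]
        exact le_rfl
      · simp only [if_true]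
        rw [h3]
        have h5 : 2 * (N : ℝ) ^ 4 / 3 * (|(N : ℝ) - n| / N) ^ 3 =
            2 * (N : ℝ) * (|(N : ℝ) - n| ^ 3 / 3) := by
          field_simp
        rw [h5]
        have h6 := abs_nonneg ((N : ℝ) - n)
        refine mul_le_mul_of_nonneg_left ?_ (by positivity)
        linarith
  have h7 : (2 * (N : ℝ) ^ 4 / 3) ^ nb ty * (1 / (2 * N) * ∑ n ∈ range (2 * N),
      |1 - (n : ℝ) / N| ^ pd ty) = 1 / (2 * N) * ∑ n ∈ range (2 * N),
      (2 * (N : ℝ) ^ 4 / 3) ^ nb ty * |1 - (n : ℝ) / N| ^ pd ty := by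
    rw [← Finset.mul_sum]
    ring
  rw [h7]
  exact mul_le_mul_of_nonneg_left (Finset.sum_le_sum fun n _ => h1 n) (by positivity)

end Pool.Agent.MPbd65ca.Sp
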