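import Pool.Agent.Lib.MP_bd65ca_an_S.Defs
import Pool.Agent.Lib.MP_bd65ca_an_F.PFc

/-!
# The periodization belongs to the class

`N = n + 4`, `N₀ = n + 2`: `PF d (n + 2) F` has only frequencies with
`|k i| + |k last| ≤ 2 N₀ - 1 = 2 n + 3 ≤ 2 N - 4`.

PROOF. `nonneg`, `per`: `tg_PF` for `N₀`.  `line`: `tg_PF` and `TP_mono` (multiply the polynomial by
`X ^ (M' - M)`).  `leaf`: `PF_expand` for `Function.update x i w`; let
`a k τ = ∑ K ∈ Bx d N₀ with K i.castSucc = k ∧ K last = τ, 𝓕 F (..K..) * e^{i ∑_{i' ≠ i} K i' x i'}`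
(cf. the proof of `line` in `tg_PF`); it vanishes for `2 N - 4 < |k| + |τ|` by `PF_coeff`; regroup
the
sum over `Bx` (`Finset.sum_fiberwise_of_maps_to`, the pairs `(k, τ)` lie in `Ioo × Ioo`).
-/

open MeasureTheory FourierTransform Pointwise Set Finset Polynomial
open scoped RealInnerProductSpace

namespace Pool.Agent.MPbd65ca.Sp

open Pool.Agent.MPbd65ca.Oct Pool.Agent.MPbd65ca.Bp

theorem TP_mono {M M' : ℕ} (h : M ≤ M') {f : ℝ → ℝ} (hf : TP M f) : TP M' f := by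
  obtain ⟨p, hp, hu⟩ := hf
  refine ⟨p * Polynomial.X ^ (M' - M), ?_, fun u => ?_⟩
  · refine (Polynomial.natDegree_mul_le).trans ?_
    rw [Polynomial.natDegree_X_pow]
    omega
  · rw [Polynomial.eval_mul, ← hu u, Polynomial.eval_pow, Polynomial.eval_X, mul_assoc,
      ← Complex.exp_nat_mul, ← Complex.exp_add]
    congr 2
    have : ((M' - M : ℕ) : ℂ) = M' - M := by
      rw [Nat.cast_sub h]
    rw [this]
    ring

theorem T3_PF {d n : ℕ} {F : E (d + 1) → ℝ} (hF : Integrable F)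
    (h : ∀ ξ ∉ bip d, 𝓕 (fun w => (F w : ℂ)) ξ = 0) (x : Fin d → ℝ) (i : Fin d) :
    T3 (n + 4) (fun w s => PF d (n + 2) F (Function.update x i w) s) := by
  refine ⟨fun k τ => ∑ K ∈ Bx d (n + 2) with (K i.castSucc, K (Fin.last d)) = (k, τ),
    𝓕 (fun w => (F w : ℂ)) (WithLp.toLp 2 fun j => (K j : ℝ) / (2 * ((n + 2 : ℕ) : ℝ) - 1)) *
      Complex.exp (Complex.I * ((∑ i' ∈ univ.erase i, (K i'.castSucc : ℝ) * x i' : ℝ) : ℂ)),
    ?_, ?_⟩
  · intro k τ hk
    refine Finset.sum_eq_zero fun K hK => ?_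
    rw [Finset.mem_filter, Prod.mk.injEq] at hK
    obtain ⟨_, h1, h2⟩ := hK
    rw [PF_coeff h K i (by rw [h1, h2]; push_cast at hk ⊢; omega), zero_mul]
  · intro w s
    show (PF d (n + 2) F (Function.update x i w) s : ℂ) = _
    rw [PF_expand hF]
    symm
    rw [← Finset.sum_product' (f := fun k τ : ℤ =>
      (∑ K ∈ Bx d (n + 2) with (K i.castSucc, K (Fin.last d)) = (k, τ),
      𝓕 (fun w => (F w : ℂ)) (WithLp.toLp 2 fun j => (K j : ℝ) / (2 * ((n + 2 : ℕ) : ℝ) - 1)) *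
      Complex.exp (Complex.I * ((∑ i' ∈ univ.erase i, (K i'.castSucc : ℝ) * x i' : ℝ) : ℂ))) *
      Complex.exp (Complex.I * (k * w + τ * s)))]
    have hmaps : ∀ K ∈ Bx d (n + 2), (K i.castSucc, K (Fin.last d)) ∈
        Finset.Ioo (-(2 * ((n + 4 : ℕ) : ℤ))) (2 * ((n + 4 : ℕ) : ℤ)) ×ˢ
          Finset.Ioo (-(2 * ((n + 4 : ℕ) : ℤ))) (2 * ((n + 4 : ℕ) : ℤ)) := by
      intro K hK
      unfold Bx at hK
      rw [Fintype.mem_piFinset] at hK
      have h1 := hK i.castSucc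
      have h2 := hK (Fin.last d)
      rw [Finset.mem_Ioo] at h1 h2
      rw [Finset.mem_product, Finset.mem_Ioo, Finset.mem_Ioo]
      push_cast at h1 h2 ⊢
      exact ⟨⟨by linarith [h1.1], by linarith [h1.2]⟩, ⟨by linarith [h2.1], by linarith [h2.2]⟩⟩
    rw [← Finset.sum_fiberwise_of_maps_to hmaps]
    refine Finset.sum_congr rfl fun q _ => ?_
    rw [Finset.sum_mul]
    refine Finset.sum_congr rfl fun K hK => ?_
    rw [Finset.mem_filter] at hK
    have hq := hK.2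
    rw [← hq, mul_assoc, ← Complex.exp_add]
    congr 2
    have h3 : (∑ i' : Fin d, (K i'.castSucc : ℝ) * (Function.update x i w) i') =
        (∑ i' ∈ univ.erase i, (K i'.castSucc : ℝ) * x i') + K i.castSucc * w := by
      rw [← Finset.sum_erase_add _ _ (Finset.mem_univ i), Function.update_self]
      congr 1
      refine Finset.sum_congr rfl fun i' hi' => ?_
      rw [Function.update_of_ne (Finset.ne_of_mem_erase hi')]
    rw [h3]
    push_cast
    ring

theorem tgM_PF {d n : ℕ} {F : E (d + 1) → ℝ} (hF : Integrable F) (h0 : ∀ w, 0 ≤ F w)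
    (h : ∀ ξ ∉ bip d, 𝓕 (fun w => (F w : ℂ)) ξ = 0) (ty : Fin d → Bool) :
    TgM d (n + 4) ty (PF d (n + 2) F) := by
  have ht := tg_PF (N := n + 2) hF h0 h
  exact ⟨ht.nonneg, ht.per, fun x s i σ _ hσ => TP_mono (by omega) (ht.line x s i σ hσ),
    fun x i _ => T3_PF hF h x i⟩

end Pool.Agent.MPbd65ca.Sp
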