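import Pool.Agent.Lib.MP_bd65ca_an_S.Mul
import Pool.Agent.Lib.MP_bd65ca_an_S.KMc
import Pool.Agent.Lib.MP_bd65ca_an_S.TgP
import Pool.Agent.Lib.MP_bd65ca_an_S.GrP
import Pool.Agent.Lib.MP_bd65ca_an_F.Riem

/-!
# The inequality with weights on the space of the leaves

PROOF. `main3`: for every `n` with `N = n + 4`, `N₀ = n + 2`, `c₀ = 2 π / (2 N₀ - 1)`, `b = nb ty`:
`discM` (for `PF d N₀ G`, `tgM_PF`), `gsM_PF`, `KM_zero_le`, and `sin (c₀ u) ^ 2 ≤ c₀ ^ 2 u ^ 2`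
give
`PF d N₀ G 0 0 ≤ (2 N ^ 4 / 3) ^ b * KK N (pd ty) 0 * 2 N * (1 / N) ^ b * (2 N) ^ (d - b) * c₀ ^
(2 b) * I`,
`I = ∫ G * ∏ ...` (all factors `≥ 0`; `∏ i, (if ty i then α else β) = α ^ b * β ^ (d - b)`, `b ≤
d`).
Divide by `(2 N₀) ^ (d + 1)`: the right side is
`((N c₀) ^ 2 / 3) ^ b * (N / N₀) ^ (d + 1) * KK N (pd ty) 0 * I`, which tends to
`(π ^ 2 / 3) ^ b / (pd ty + 1) * I` (`KK_lim`, shifted by 3: `n + 4 = (n + 3) + 1`), the left side
tends to
`G 0` (`PF_lim` shifted by 1).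
`main3L`: if the right side is `⊤` or ... : the factor `ofReal ((π^2/3)^b / (pd + 1))` is
positive, so if
the lintegral is `⊤` nothing is to prove; else the function is integrable (nonnegative,
continuous) and
`main3`, `ofReal_integral_eq_lintegral_ofReal`, `ENNReal.ofReal_mul`.
-/

open MeasureTheory FourierTransform Pointwise Set Finset Polynomial Filter Topology
open scoped RealInnerProductSpace

namespace Pool.Agent.MPbd65ca.Sp

open Pool.Agent.MPbd65ca.Oct Pool.Agent.MPbd65ca.Bp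

private theorem Mn3_pow {d : ℕ} (ty : Fin d → Bool) (a : ℝ) :
    (∏ i, if ty i then a else 1) = a ^ nb ty := by
  unfold nb
  rw [← Finset.prod_pow_eq_pow_sum]
  refine Finset.prod_congr rfl fun i _ => ?_
  split_ifs <;> simp

private theorem Mn3_nn {d : ℕ} (ty : Fin d → Bool) (w : E (d + 1)) :
    0 ≤ ∏ i, (if ty i then w i.castSucc ^ 2 else 1) := by
  refine Finset.prod_nonneg fun i _ => ?_
  split_ifs
  · exact sq_nonneg _
  · exact zero_le_one

private theorem Mn3_sin (x : ℝ) : Real.sin x ^ 2 ≤ x ^ 2 := by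
  rw [sq_le_sq]
  exact Real.abs_sin_le_abs

/-- The estimate for one value of `n`. -/
private theorem Mn3_one {d : ℕ} (ty : Fin d → Bool) {G : E (d + 1) → ℝ}
    (hi : Integrable G) (h0 : ∀ w, 0 ≤ G w) (h : ∀ ξ ∉ bip d, 𝓕 (fun w => (G w : ℂ)) ξ = 0)
    (hI : Integrable fun w : E (d + 1) => G w * ∏ i, (if ty i then w i.castSucc ^ 2 else 1))
    (n : ℕ) : PF d (n + 2) G 0 0 ≤
      ((((n + 4 : ℕ) : ℝ) * (2 * Real.pi / (2 * ((n + 2 : ℕ) : ℝ) - 1))) ^ 2 / 3) ^ nb ty *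
      KK (n + 4) (pd ty) 0 * (2 * ((n + 4 : ℕ) : ℝ)) ^ (d + 1) *
      ∫ w : E (d + 1), G w * ∏ i, (if ty i then w i.castSucc ^ 2 else 1) := by
  set N : ℝ := ((n + 4 : ℕ) : ℝ) with hN
  set c : ℝ := 2 * Real.pi / (2 * ((n + 2 : ℕ) : ℝ) - 1) with hc
  set I : ℝ := ∫ w : E (d + 1), G w * ∏ i, (if ty i then w i.castSucc ^ 2 else 1) with hIdef
  have hNpos : 0 < N := by positivity
  have h1 := discM (N := n + 4) (by omega) (tgM_PF (n := n) hi h0 h ty)
  rw [gsM_PF hi ty (pc ty)] at h1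
  have h2 : ∫ w : E (d + 1), G w * ∏ i, (if ty i then
      Real.sin (2 * Real.pi / (2 * ((n + 2 : ℕ) : ℝ) - 1) * w i.castSucc) ^ 2 else 1) ≤
      (c ^ 2) ^ nb ty * I := by
    rw [hIdef, ← integral_const_mul]
    refine integral_mono_of_nonneg (Filter.Eventually.of_forall fun w => ?_)
      (hI.const_mul _) (Filter.Eventually.of_forall fun w => ?_)
    · refine mul_nonneg (h0 w) (Finset.prod_nonneg fun i _ => ?_)
      split_ifs
      · exact sq_nonneg _
      · exact zero_le_one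
    · have h3 : (∏ i, (if ty i then
          Real.sin (2 * Real.pi / (2 * ((n + 2 : ℕ) : ℝ) - 1) * w i.castSucc) ^ 2 else 1)) ≤
          (c ^ 2) ^ nb ty * ∏ i, (if ty i then w i.castSucc ^ 2 else 1) := by
        rw [← Mn3_pow, ← Finset.prod_mul_distrib]
        refine Finset.prod_le_prod (fun i _ => ?_) fun i _ => ?_
        · split_ifs
          · exact sq_nonneg _
          · exact zero_le_one
        · split_ifs
          · rw [← mul_pow]
            exact Mn3_sin _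
          · rw [one_mul]
      calc G w * ∏ i, (if ty i then
          Real.sin (2 * Real.pi / (2 * ((n + 2 : ℕ) : ℝ) - 1) * w i.castSucc) ^ 2 else 1)
          ≤ G w * ((c ^ 2) ^ nb ty * ∏ i, (if ty i then w i.castSucc ^ 2 else 1)) :=
            mul_le_mul_of_nonneg_left h3 (h0 w)
        _ = (c ^ 2) ^ nb ty * (G w * ∏ i, (if ty i then w i.castSucc ^ 2 else 1)) := by ring
  have h4 : (∏ i, if ty i then 1 / N else 2 * N) = (1 / (2 * N ^ 2)) ^ nb ty * (2 * N) ^ d := by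
    have e : ∀ i, (if ty i then 1 / N else 2 * N) =
        (if ty i then 1 / (2 * N ^ 2) else 1) * (2 * N) := by
      intro i
      split_ifs
      · field_simp
      · rw [one_mul]
    rw [Finset.prod_congr rfl fun i _ => e i, Finset.prod_mul_distrib, Mn3_pow,
      Finset.prod_const, Finset.card_univ, Fintype.card_fin]
  rw [h4] at h1
  have h5 : 0 ≤ 2 * N * ((1 / (2 * N ^ 2)) ^ nb ty * (2 * N) ^ d) := by positivity
  have hint : 0 ≤ ∫ w : E (d + 1), G w * ∏ i, (if ty i then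
      Real.sin (2 * Real.pi / (2 * ((n + 2 : ℕ) : ℝ) - 1) * w i.castSucc) ^ 2 else 1) := by
    refine integral_nonneg fun w => mul_nonneg (h0 w) (Finset.prod_nonneg fun i _ => ?_)
    split_ifs
    · exact sq_nonneg _
    · exact zero_le_one
  have h6 := KM_zero_le (N := n + 4) ty
  rw [← hN] at h6
  have h7 : 0 ≤ (2 * N ^ 4 / 3) ^ nb ty * KK (n + 4) (pd ty) 0 := by
    refine mul_nonneg (by positivity) ?_
    exact KK_nonneg (pd ty) 0
  have h8 : KM (n + 4) d ty 0 * (2 * N * ((1 / (2 * N ^ 2)) ^ nb ty * (2 * N) ^ d) *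
      ∫ w : E (d + 1), G w * ∏ i, (if ty i then
      Real.sin (2 * Real.pi / (2 * ((n + 2 : ℕ) : ℝ) - 1) * w i.castSucc) ^ 2 else 1)) ≤
      (2 * N ^ 4 / 3) ^ nb ty * KK (n + 4) (pd ty) 0 *
        (2 * N * ((1 / (2 * N ^ 2)) ^ nb ty * (2 * N) ^ d) * ((c ^ 2) ^ nb ty * I)) :=
    mul_le_mul h6 (mul_le_mul_of_nonneg_left h2 h5) (mul_nonneg h5 hint) h7
  refine (h1.trans h8).trans_eq ?_
  have h9 : ((N * c) ^ 2 / 3) ^ nb ty =
      (2 * N ^ 4 / 3) ^ nb ty * (1 / (2 * N ^ 2)) ^ nb ty * (c ^ 2) ^ nb ty := by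
    rw [← mul_pow, ← mul_pow]
    congr 1
    field_simp
  rw [h9, pow_succ (2 * N) d]
  ring

theorem main3 {d : ℕ} (ty : Fin d → Bool) {G : E (d + 1) → ℝ} (hc : Continuous G)
    (hi : Integrable G) (h0 : ∀ w, 0 ≤ G w) (h : ∀ ξ ∉ bip d, 𝓕 (fun w => (G w : ℂ)) ξ = 0)
    (hI : Integrable fun w : E (d + 1) => G w * ∏ i, (if ty i then w i.castSucc ^ 2 else 1)) :
    G 0 ≤ (Real.pi ^ 2 / 3) ^ nb ty / (pd ty + 1) *
      ∫ w : E (d + 1), G w * ∏ i, (if ty i then w i.castSucc ^ 2 else 1) := by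
  have hden : Tendsto (fun n : ℕ => 2 * ((n + 2 : ℕ) : ℝ) - 1) atTop atTop := by
    refine tendsto_atTop_mono (f := fun n : ℕ => (n : ℝ)) (fun n => ?_)
      tendsto_natCast_atTop_atTop
    push_cast
    linarith [Nat.cast_nonneg (α := ℝ) n]
  have hden2 : Tendsto (fun n : ℕ => ((n + 2 : ℕ) : ℝ)) atTop atTop := by
    refine tendsto_atTop_mono (f := fun n : ℕ => (n : ℝ)) (fun n => ?_)
      tendsto_natCast_atTop_atTop
    push_cast
    linarith
  have hpos : ∀ n : ℕ, (0 : ℝ) < 2 * ((n + 2 : ℕ) : ℝ) - 1 := by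
    intro n
    push_cast
    linarith [Nat.cast_nonneg (α := ℝ) n]
  have hA : Tendsto (fun n : ℕ => ((n + 4 : ℕ) : ℝ) *
      (2 * Real.pi / (2 * ((n + 2 : ℕ) : ℝ) - 1))) atTop (𝓝 Real.pi) := by
    have h1 : Tendsto (fun n : ℕ => Real.pi + 5 * Real.pi / (2 * ((n + 2 : ℕ) : ℝ) - 1)) atTop
        (𝓝 (Real.pi + 0)) := tendsto_const_nhds.add (hden.const_div_atTop _)
    rw [add_zero] at h1
    refine h1.congr fun n => ?_
    have h2 := (hpos n).ne'
    field_simp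
    push_cast
    ring
  have hB : Tendsto (fun n : ℕ => ((n + 4 : ℕ) : ℝ) / ((n + 2 : ℕ) : ℝ)) atTop (𝓝 1) := by
    have h1 : Tendsto (fun n : ℕ => 1 + 2 / ((n + 2 : ℕ) : ℝ)) atTop (𝓝 (1 + 0)) :=
      tendsto_const_nhds.add (hden2.const_div_atTop _)
    rw [add_zero] at h1
    refine h1.congr fun n => ?_
    have h2 : ((n + 2 : ℕ) : ℝ) ≠ 0 := by positivity
    field_simp
    push_cast
    ring
  have hK : Tendsto (fun n : ℕ => KK (n + 4) (pd ty) 0) atTop (𝓝 (1 / ((pd ty : ℝ) + 1))) :=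
    (KK_lim (pd ty)).comp (tendsto_add_atTop_nat 3)
  have hL : Tendsto (fun n : ℕ => PF d (n + 2) G 0 0 / (2 * ((n + 2 : ℕ) : ℝ)) ^ (d + 1)) atTop
      (𝓝 (G 0)) := (PF_lim hc hi h).comp (tendsto_add_atTop_nat 1)
  have hR := ((((hA.pow 2).div_const 3).pow (nb ty)).mul hK).mul (hB.pow (d + 1))
  have hR2 := hR.mul_const
    (∫ w : E (d + 1), G w * ∏ i, (if ty i then w i.castSucc ^ 2 else 1))
  have hfin := le_of_tendsto_of_tendsto' hL hR2 fun n => ?_
  · refine hfin.trans_eq ?_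
    rw [one_pow, mul_one, mul_one_div]
  · have h1 := Mn3_one ty hi h0 h hI n
    have h2 : (0 : ℝ) < (2 * ((n + 2 : ℕ) : ℝ)) ^ (d + 1) := by positivity
    rw [div_le_iff₀ h2]
    refine h1.trans_eq ?_
    have h3 : (2 * ((n + 4 : ℕ) : ℝ)) ^ (d + 1) = (((n + 4 : ℕ) : ℝ) / ((n + 2 : ℕ) : ℝ)) ^
        (d + 1) * (2 * ((n + 2 : ℕ) : ℝ)) ^ (d + 1) := by
      rw [← mul_pow]
      congr 1
      field_simp
    rw [h3]
    ring

theorem main3L {d : ℕ} (ty : Fin d → Bool) {G : E (d + 1) → ℝ} (hc : Continuous G)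
    (hi : Integrable G) (h0 : ∀ w, 0 ≤ G w) (h : ∀ ξ ∉ bip d, 𝓕 (fun w => (G w : ℂ)) ξ = 0) :
    ENNReal.ofReal (G 0) ≤ ENNReal.ofReal ((Real.pi ^ 2 / 3) ^ nb ty / (pd ty + 1)) *
      ∫⁻ w : E (d + 1), ENNReal.ofReal (G w * ∏ i, (if ty i then w i.castSucc ^ 2 else 1)) := by
  set f : E (d + 1) → ℝ := fun w => G w * ∏ i, (if ty i then w i.castSucc ^ 2 else 1) with hf
  have hf0 : ∀ w, 0 ≤ f w := fun w => mul_nonneg (h0 w) (Mn3_nn ty w)
  have hC : 0 < (Real.pi ^ 2 / 3) ^ nb ty / ((pd ty : ℝ) + 1) := by positivity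
  by_cases htop : ∫⁻ w : E (d + 1), ENNReal.ofReal (f w) = ⊤
  · rw [htop, ENNReal.mul_top (ENNReal.ofReal_pos.2 hC).ne']
    exact le_top
  · have hfc : Continuous f := by
      refine hc.mul (continuous_finsetProd _ fun i _ => ?_)
      split_ifs
      · fun_prop
      · exact continuous_const
    have hfi : Integrable f := by
      refine ⟨hfc.aestronglyMeasurable, ?_⟩
      rw [hasFiniteIntegral_iff_ofReal (Filter.Eventually.of_forall hf0)]
      exact lt_top_iff_ne_top.2 htop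
    rw [← ofReal_integral_eq_lintegral_ofReal hfi (Filter.Eventually.of_forall hf0),
      ← ENNReal.ofReal_mul hC.le]
    exact ENNReal.ofReal_le_ofReal (main3 ty hc hi h0 h hfi)

end Pool.Agent.MPbd65ca.Sp
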