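import Pool.Agent.Lib.MP_bd65ca_an_S.P3a

/-!
# The leaf inequality for a three-dimensional ball

PROOF. `P3a` for the masses `M + η` on the parity class (`η > 0`), then `η → 0`: both sides are
finite
sums of continuous functions of `η` at `0`: `∑ k3 N (l - k) * M k ≥ k3 N 0 * M l > 0` (`k3_nonneg`,
`k3_zero_pos`), and in the terms with `kb N t (k - l) ≠ 0` the denominator at `η = 0` is at least
`kb N t (k - l) * M l > 0` (`kb_nonneg`); if `kb N t (k - l) = 0` the term is `0` for every `η`.
The sums over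
all `k` and over the `k` of parity `c` agree since `M k = 0` otherwise.
-/

open MeasureTheory FourierTransform Pointwise Set Finset Polynomial Filter Topology
open scoped RealInnerProductSpace

namespace Pool.Agent.MPbd65ca.Sp

open Pool.Agent.MPbd65ca.Oct Pool.Agent.MPbd65ca.Bp

variable {N : ℕ} [NeZero N]

theorem P3 (hN : 3 ≤ N) {f : ℝ → ℝ → ℝ} (hf : T3 N f) (h0 : ∀ w s, 0 ≤ f w s) {c : ZMod 2}
    {M : ZMod (4 * N) → ℝ} (hM : ∀ k, 0 ≤ M k) (hc : ∀ k, par N k ≠ c → M k = 0)
    {l : ZMod (4 * N)} (hl : 0 < M l) :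
    f 0 (sg N l) / ∑ k with par N k = c, k3 N (l - k) * M k ≤
      ∑ t with par N t = 0, Real.sin (sg N t) ^ 2 / (2 * (N : ℝ) ^ 2) *
        ∑ k with par N k = c, kb N t (k - l) /
          (∑ k' with par N k' = c, kb N t (k - k') * M k') * f (sg N t) (sg N k) := by
  have hlc : par N l = c := by
    by_contra h
    exact hl.ne' (hc l h)
  have hlm : l ∈ Finset.univ.filter (fun k => par N k = c) :=
    Finset.mem_filter.2 ⟨Finset.mem_univ _, hlc⟩
  have hin : ∀ η : ℝ, 0 < η →
      f 0 (sg N l) / ∑ k with par N k = c, k3 N (l - k) * (M k + η) ≤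
      ∑ t with par N t = 0, Real.sin (sg N t) ^ 2 / (2 * (N : ℝ) ^ 2) *
        ∑ k with par N k = c, kb N t (k - l) /
          (∑ k' with par N k' = c, kb N t (k - k') * (M k' + η)) * f (sg N t) (sg N k) :=
    fun η hη => P3a hN hf h0 (M := fun k => M k + η)
      (fun k _ => add_pos_of_nonneg_of_pos (hM k) hη) hlc
  -- the denominators
  have hd1 : 0 < ∑ k with par N k = c, k3 N (l - k) * M k := by
    have h1 : k3 N (l - l) * M l ≤ ∑ k with par N k = c, k3 N (l - k) * M k := by
      refine Finset.single_le_sum (f := fun k => k3 N (l - k) * M k) (fun k hk => ?_) hlm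
      have hkc : par N k = c := (Finset.mem_filter.1 hk).2
      refine mul_nonneg (k3_nonneg ?_) (hM k)
      rw [map_sub, hlc, hkc, sub_self]
    rw [sub_self] at h1
    exact (mul_pos (k3_zero_pos (by omega)) hl).trans_le h1
  have hd2 : ∀ t k, kb N t (k - l) ≠ 0 → 0 < ∑ k' with par N k' = c, kb N t (k - k') * M k' := by
    intro t k hk
    have h1 : kb N t (k - l) * M l ≤ ∑ k' with par N k' = c, kb N t (k - k') * M k' :=
      Finset.single_le_sum (f := fun k' => kb N t (k - k') * M k')
        (fun k' _ => mul_nonneg (kb_nonneg _ _) (hM k')) hlm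
    exact (mul_pos (lt_of_le_of_ne (kb_nonneg _ _) hk.symm) hl).trans_le h1
  -- the limits
  have hcont : ∀ g : ZMod (4 * N) → ℝ, Tendsto
      (fun η : ℝ => ∑ k with par N k = c, g k * (M k + η)) (𝓝[>] 0)
      (𝓝 (∑ k with par N k = c, g k * M k)) := by
    intro g
    refine tendsto_finsetSum _ fun k _ => ?_
    have h1 : Tendsto (fun η : ℝ => g k * (M k + η)) (𝓝 0) (𝓝 (g k * (M k + 0))) :=
      (continuous_const.mul (continuous_const.add continuous_id)).tendsto 0
    rw [add_zero] at h1
    exact h1.mono_left nhdsWithin_le_nhds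
  have hL : Tendsto
      (fun η : ℝ => f 0 (sg N l) / ∑ k with par N k = c, k3 N (l - k) * (M k + η)) (𝓝[>] 0)
      (𝓝 (f 0 (sg N l) / ∑ k with par N k = c, k3 N (l - k) * M k)) :=
    tendsto_const_nhds.div (hcont fun k => k3 N (l - k)) hd1.ne'
  have hR : Tendsto (fun η : ℝ =>
      ∑ t with par N t = 0, Real.sin (sg N t) ^ 2 / (2 * (N : ℝ) ^ 2) *
        ∑ k with par N k = c, kb N t (k - l) /
          (∑ k' with par N k' = c, kb N t (k - k') * (M k' + η)) * f (sg N t) (sg N k)) (𝓝[>] 0)
      (𝓝 (∑ t with par N t = 0, Real.sin (sg N t) ^ 2 / (2 * (N : ℝ) ^ 2) *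
        ∑ k with par N k = c, kb N t (k - l) /
          (∑ k' with par N k' = c, kb N t (k - k') * M k') * f (sg N t) (sg N k))) := by
    refine tendsto_finsetSum _ fun t _ => Tendsto.const_mul _ ?_
    refine tendsto_finsetSum _ fun k _ => Tendsto.mul_const _ ?_
    by_cases hk : kb N t (k - l) = 0
    · simp only [hk, zero_div]
      exact tendsto_const_nhds
    · exact tendsto_const_nhds.div (hcont fun k' => kb N t (k - k')) (hd2 t k hk).ne'
  refine le_of_tendsto_of_tendsto hL hR ?_
  filter_upwards [self_mem_nhdsWithin] with η hη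
  exact hin η hη

end Pool.Agent.MPbd65ca.Sp
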