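import Pool.Agent.Lib.MP_bd65ca_an_S.KMb
import Pool.Agent.Lib.MP_bd65ca_an_S.P3

/-!
# The induction step for a three-dimensional ball

PROOF. Let `p`, `m`, `c` be as in `MS N (d + 1) ty`, `A'` the new kernel.  For `t` even with
`sin (sg N t) ≠ 0` let `m_t k = ∑_l kb N t (k - l) * m l` for `par N k = c`, `0` else, and apply
`ih` to
`p_t x s = p (Fin.cons (sg N t) x) s` (`TgM_cons`), the masses `m_t` (`≥ 0`, `kb_nonneg`) and the
parity
`c`; `pc ty = pc (Fin.tail ty)`.  Multiply by `wt N true t = sin ^ 2 / (2 N ^ 2)` (`0` for the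
other `t`) and
sum over `t`: the right side is `gsM (d + 1) N ty p (c + pc ty)` (`gsM_cons`).
Let `M k = cw N A m k` for `par N k = c`, `0` else.  For `par N k = c`:
`cw N A m_t k = ∑ k' with par = c, kb N t (k - k') * M k'` (both are
`∑_l m l ∑_{z even} A z * kb N t (k - l - z)`; substitute `k' = k - z` resp. `k' = l + z`).
So the left side is `∑_l m l * ∑_t w_t ∑_{k with par = c} kb N t (k - l) / (∑ k', kb N t (k - k')
* M k') *
p (Fin.cons (sg N t) 0) (sg N k)`, and for `m l > 0` (so `M l > 0` by `cw_pos`, and `par N l = c`)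
`P3` with
`f w s = p (Fin.cons w 0) s = p (Function.update 0 0 w) s` (`T3` by `hp.leaf 0 0`) bounds the
inner sum
below by `p 0 (sg N l) / ∑ k with par = c, k3 N (l - k) * M k`, and
`∑ k with par = c, k3 N (l - k) * M k = cw N A' m l` (substitute `k = l - z`:
`M (l - z) = ∑_l' A (l - z - l') * m l'`).
-/

open MeasureTheory FourierTransform Pointwise Set Finset Polynomial
open scoped RealInnerProductSpace

namespace Pool.Agent.MPbd65ca.Sp

open Pool.Agent.MPbd65ca.Oct Pool.Agent.MPbd65ca.Bp

variable {N : ℕ} [NeZero N]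

private theorem St3_cons {d : ℕ} (a : ℝ) :
    (Fin.cons a (0 : Fin d → ℝ) : Fin (d + 1) → ℝ) =
      Function.update (0 : Fin (d + 1) → ℝ) 0 a := by
  funext i
  refine Fin.cases ?_ (fun j => ?_) i
  · simp
  · simp

omit [NeZero N] in
private theorem St3_wt_nonneg (t : ZMod (4 * N)) : 0 ≤ wt N true t := by
  unfold wt
  rw [if_pos rfl]
  split_ifs
  · positivity
  · exact le_rfl

/-- Two convolutions on the residues of parity `c` commute. -/
private theorem St3_conv (A B m : ZMod (4 * N) → ℝ) {c : ZMod 2}
    (hc : ∀ k, par N k ≠ c → m k = 0) {k : ZMod (4 * N)} (hk : par N k = c) :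
    cw N A (fun k' => if par N k' = c then ∑ l, B (k' - l) * m l else 0) k =
      ∑ k' with par N k' = c, B (k - k') * (if par N k' = c then cw N A m k' else 0) := by
  have e1 : cw N A (fun k' => if par N k' = c then ∑ l, B (k' - l) * m l else 0) k =
      ∑ l, ∑ k' with par N k' = c, A (k - k') * B (k' - l) * m l := by
    rw [Finset.sum_comm, Finset.sum_filter]
    unfold cw
    refine Finset.sum_congr rfl fun k' _ => ?_
    beta_reduce
    split_ifs with h
    · rw [Finset.mul_sum]
      exact Finset.sum_congr rfl fun l _ => by ring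
    · rw [mul_zero]
  have e2 : ∑ k' with par N k' = c, B (k - k') * (if par N k' = c then cw N A m k' else 0) =
      ∑ l, ∑ k' with par N k' = c, B (k - k') * A (k' - l) * m l := by
    rw [Finset.sum_comm]
    refine Finset.sum_congr rfl fun k' hk' => ?_
    rw [if_pos (Finset.mem_filter.1 hk').2]
    unfold cw
    rw [Finset.mul_sum]
    exact Finset.sum_congr rfl fun l _ => by ring
  rw [e1, e2]
  refine Finset.sum_congr rfl fun l _ => ?_
  by_cases hl : par N l = c
  · rw [Finset.sum_filter, Finset.sum_filter]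
    refine Fintype.sum_equiv (Equiv.subLeft (k + l)) _ _ fun k' => ?_
    have h1 : par N (k + l - k') = c ↔ par N k' = c := by
      rw [map_sub, map_add, hk, hl]
      generalize par N k' = u
      clear * -
      revert c u
      decide
    have h2 : k - (k + l - k') = k' - l := by ring
    have h3 : k + l - k' - l = k - k' := by ring
    rw [Equiv.subLeft_apply, h2, h3]
    simp only [h1]
    split_ifs
    · ring
    · rfl
  · rw [hc l hl]
    simp

/-- The convolution with the new kernel. -/
private theorem St3_k3 (A m : ZMod (4 * N) → ℝ) {c : ZMod 2} {l : ZMod (4 * N)}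
    (hl : par N l = c) :
    ∑ k with par N k = c, k3 N (l - k) * (if par N k = c then cw N A m k else 0) =
      cw N (fun y => ∑ z with par N z = 0, k3 N z * A (y - z)) m l := by
  have e1 : ∑ k with par N k = c, k3 N (l - k) * (if par N k = c then cw N A m k else 0) =
      ∑ z with par N z = 0, k3 N z * cw N A m (l - z) := by
    rw [Finset.sum_filter, Finset.sum_filter]
    refine Fintype.sum_equiv (Equiv.subLeft l) _ _ fun k => ?_
    have h1 : par N (l - k) = 0 ↔ par N k = c := by
      rw [map_sub, hl, sub_eq_zero, eq_comm]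
    rw [Equiv.subLeft_apply, sub_sub_cancel]
    simp only [h1]
    split_ifs
    · rfl
    · rfl
  rw [e1]
  unfold cw
  simp only [Finset.mul_sum, Finset.sum_mul]
  rw [Finset.sum_comm]
  refine Finset.sum_congr rfl fun l' _ => Finset.sum_congr rfl fun z _ => ?_
  have h1 : l - z - l' = l - l' - z := by ring
  rw [h1]
  ring

theorem step3 (hN : 3 ≤ N) {d : ℕ} {ty : Fin (d + 1) → Bool} (h0 : ty 0 = true)
    {A : ZMod (4 * N) → ℝ} (hA : ∀ y, 0 ≤ A y) (hA0 : 0 < A 0) (ih : MS N d (Fin.tail ty) A) :
    MS N (d + 1) ty (fun y => ∑ z with par N z = 0, k3 N z * A (y - z)) := by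
  intro p hp m hm c hc
  rw [pc_cons, h0, if_pos rfl, zero_add, gsM_cons, h0]
  obtain ⟨M, hM⟩ : ∃ M : ZMod (4 * N) → ℝ,
      M = fun k => if par N k = c then cw N A m k else 0 := ⟨_, rfl⟩
  obtain ⟨f, hf⟩ : ∃ f : ℝ → ℝ → ℝ, f = fun w s => p (Function.update 0 0 w) s := ⟨_, rfl⟩
  have hcw0 : ∀ k, 0 ≤ cw N A m k := fun k =>
    Finset.sum_nonneg fun k' _ => mul_nonneg (hA _) (hm _)
  have hM0 : ∀ k, 0 ≤ M k := by
    intro k
    rw [hM]
    change 0 ≤ (if par N k = c then cw N A m k else 0)
    split_ifs
    · exact hcw0 k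
    · exact le_rfl
  have hMc : ∀ k, par N k ≠ c → M k = 0 := by
    intro k hk
    rw [hM]
    exact if_neg hk
  -- the induction hypothesis
  have h1 : ∀ t, wt N true t * ∑ k with par N k = c, (∑ l, kb N t (k - l) * m l) /
        (∑ k' with par N k' = c, kb N t (k - k') * M k') * f (sg N t) (sg N k) ≤
      wt N true t * gsM d N (Fin.tail ty) (fun x s => p (Fin.cons (sg N t) x) s)
        (c + pc (Fin.tail ty)) := by
    intro t
    refine mul_le_mul_of_nonneg_left ?_ (St3_wt_nonneg t)
    have h2 := ih (fun x s => p (Fin.cons (sg N t) x) s) (TgM_cons hp (sg N t))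
      (fun k => if par N k = c then ∑ l, kb N t (k - l) * m l else 0) (fun k => by
        split_ifs
        · exact Finset.sum_nonneg fun l _ => mul_nonneg (kb_nonneg _ _) (hm _)
        · exact le_rfl) c (fun k hk => if_neg hk)
    refine le_trans (le_of_eq ?_) h2
    rw [Finset.sum_filter]
    refine Finset.sum_congr rfl fun k _ => ?_
    by_cases hk : par N k = c
    · rw [if_pos hk, St3_conv A (kb N t) m hc hk, if_pos hk, hM, hf, St3_cons]
    · rw [if_neg hk, if_neg hk, zero_div, zero_mul]
  refine le_trans ?_ (Finset.sum_le_sum fun t _ => h1 t)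
  -- exchange of the sums
  have h2 : ∑ t, wt N true t * ∑ k with par N k = c, (∑ l, kb N t (k - l) * m l) /
        (∑ k' with par N k' = c, kb N t (k - k') * M k') * f (sg N t) (sg N k) =
      ∑ l, m l * ∑ t with par N t = 0, Real.sin (sg N t) ^ 2 / (2 * (N : ℝ) ^ 2) *
        ∑ k with par N k = c, kb N t (k - l) /
          (∑ k' with par N k' = c, kb N t (k - k') * M k') * f (sg N t) (sg N k) := by
    have e1 : ∀ l, m l * ∑ t with par N t = 0, Real.sin (sg N t) ^ 2 / (2 * (N : ℝ) ^ 2) *
        ∑ k with par N k = c, kb N t (k - l) /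
          (∑ k' with par N k' = c, kb N t (k - k') * M k') * f (sg N t) (sg N k) =
        ∑ t, m l * (wt N true t * ∑ k with par N k = c, kb N t (k - l) /
          (∑ k' with par N k' = c, kb N t (k - k') * M k') * f (sg N t) (sg N k)) := by
      intro l
      rw [Finset.mul_sum, Finset.sum_filter]
      refine Finset.sum_congr rfl fun t _ => ?_
      unfold wt
      rw [if_pos rfl]
      split_ifs
      · rfl
      · rw [zero_mul, mul_zero]
    rw [Finset.sum_congr rfl fun l _ => e1 l, Finset.sum_comm]
    refine Finset.sum_congr rfl fun t _ => ?_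
    have e2 : ∀ l, m l * (wt N true t * ∑ k with par N k = c, kb N t (k - l) /
          (∑ k' with par N k' = c, kb N t (k - k') * M k') * f (sg N t) (sg N k)) =
        wt N true t * ∑ k with par N k = c, (kb N t (k - l) * m l) /
          (∑ k' with par N k' = c, kb N t (k - k') * M k') * f (sg N t) (sg N k) := by
      intro l
      rw [mul_left_comm, Finset.mul_sum]
      congr 1
      refine Finset.sum_congr rfl fun k _ => ?_
      ring
    rw [Finset.sum_congr rfl fun l _ => e2 l, ← Finset.mul_sum, Finset.sum_comm]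
    congr 1
    refine Finset.sum_congr rfl fun k _ => ?_
    rw [← Finset.sum_mul, ← Finset.sum_div]
  rw [h2]
  refine Finset.sum_le_sum fun l _ => ?_
  rcases (hm l).eq_or_lt with hl | hl
  · rw [← hl]
    simp
  · have hlc : par N l = c := by
      by_contra h
      rw [hc l h] at hl
      exact lt_irrefl _ hl
    have hMl : 0 < M l := by
      rw [hM]
      change 0 < (if par N l = c then cw N A m l else 0)
      rw [if_pos hlc]
      exact cw_pos hA hA0 hm hl
    have h3 := P3 hN (f := f) (by rw [hf]; exact hp.leaf 0 0 h0)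
      (fun w s => by rw [hf]; exact hp.nonneg _ _) hM0 hMc hMl
    have h4 : ∑ k with par N k = c, k3 N (l - k) * M k =
        cw N (fun y => ∑ z with par N z = 0, k3 N z * A (y - z)) m l := by
      rw [hM]
      exact St3_k3 A m hlc
    have h5 : f 0 (sg N l) = p 0 (sg N l) := by
      have h6 : Function.update (0 : Fin (d + 1) → ℝ) 0 0 = 0 := by
        rw [Function.update_eq_self_iff]
        rfl
      rw [hf]
      change p (Function.update 0 0 0) (sg N l) = p 0 (sg N l)
      rw [h6]
    rw [h4, h5] at h3
    rw [div_mul_eq_mul_div, mul_div_assoc]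
    exact mul_le_mul_of_nonneg_left h3 hl.le

end Pool.Agent.MPbd65ca.Sp
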