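import Pool.Agent.Lib.MP_bd65ca_an_S.St1
import Pool.Agent.Lib.MP_bd65ca_an_S.St3

/-!
# The inequality for several sources

PROOF. `multiM`: induction on `d`; `d = 0` as in `multi` (F/Ind.lean): `cw N (KM N 0 ty) m k = m k`.
Step: `step1` or `step3` according to `ty 0` (`KM_nonneg`, `KM_zero_pos`).  `discM`: `m =
Pi.single 0 1`,
`c = 0`, as in `disc`.
-/

open MeasureTheory FourierTransform Pointwise Set Finset Polynomial
open scoped RealInnerProductSpace

namespace Pool.Agent.MPbd65ca.Sp

open Pool.Agent.MPbd65ca.Oct Pool.Agent.MPbd65ca.Bp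

variable {N : ℕ} [NeZero N]

private theorem Mul_cw_zero (ty : Fin 0 → Bool) (m : ZMod (4 * N) → ℝ) (k : ZMod (4 * N)) :
    cw N (KM N 0 ty) m k = m k := by
  unfold cw
  have h1 : ∀ k' : ZMod (4 * N), KM N 0 ty (k - k') * m k' = if k = k' then m k' else 0 := by
    intro k'
    change (if k - k' = 0 then (1 : ℝ) else 0) * m k' = _
    by_cases h : k = k'
    · rw [if_pos h, if_pos (sub_eq_zero.2 h), one_mul]
    · rw [if_neg h, if_neg (sub_ne_zero.2 h), zero_mul]
  rw [Finset.sum_congr rfl fun k' _ => h1 k', Finset.sum_ite_eq, if_pos (Finset.mem_univ _)]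

theorem multiM (hN : 3 ≤ N) {d : ℕ} (ty : Fin d → Bool) : MS N d ty (KM N d ty) := by
  induction d with
  | zero =>
    intro p hp m hm c hc
    unfold gsM
    have e0 : ∀ g : (Fin 0 → ZMod (4 * N)) → ℝ, ∑ X, g X = g default :=
      fun g => (Fintype.sum_unique g).trans (congrArg g (Subsingleton.elim _ _))
    have epc : pc ty = 0 := by
      unfold pc
      exact Finset.sum_eq_zero fun i _ => i.elim0
    rw [e0, Fin.prod_univ_zero, one_mul, epc, add_zero, Finset.sum_filter]
    refine Finset.sum_le_sum fun k _ => ?_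
    have e1 : (fun i : Fin 0 => sg N ((default : Fin 0 → ZMod (4 * N)) i)) = 0 :=
      Subsingleton.elim _ _
    rw [e1, Mul_cw_zero]
    by_cases hk : par N k = c
    · rw [if_pos hk]
      by_cases h0 : m k = 0
      · rw [h0, zero_div, zero_mul]
        exact hp.nonneg _ _
      · rw [div_self h0, one_mul]
    · rw [if_neg hk, hc k hk, zero_div, zero_mul]
  | succ d ih =>
    cases h0 : ty 0 with
    | false =>
      have h := step1 h0 (fun y => KM_nonneg (Fin.tail ty) y)
        (KM_zero_pos (by omega) (Fin.tail ty)) (ih (ty := Fin.tail ty))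
      have e : KM N (d + 1) ty = fun y => 1 / 2 * (KM N d (Fin.tail ty) y +
          ∑ t with par N t = 1, kap N t * KM N d (Fin.tail ty) (y + 2 * t)) := by
        funext y
        rw [KM, h0, if_neg Bool.false_ne_true]
      rw [e]
      exact h
    | true =>
      have h := step3 hN h0 (fun y => KM_nonneg (Fin.tail ty) y)
        (KM_zero_pos (by omega) (Fin.tail ty)) (ih (ty := Fin.tail ty))
      have e : KM N (d + 1) ty = fun y => ∑ z with par N z = 0,
          k3 N z * KM N d (Fin.tail ty) (y - z) := by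
        funext y
        rw [KM, h0, if_pos rfl]
      rw [e]
      exact h

theorem discM (hN : 3 ≤ N) {d : ℕ} {ty : Fin d → Bool} {p : (Fin d → ℝ) → ℝ → ℝ}
    (hp : TgM d N ty p) : p 0 0 ≤ KM N d ty 0 * gsM d N ty p (pc ty) := by
  classical
  have hm : ∀ k : ZMod (4 * N), 0 ≤ (Pi.single 0 1 : ZMod (4 * N) → ℝ) k := by
    intro k
    by_cases h : k = 0
    · rw [h, Pi.single_eq_same]
      exact zero_le_one
    · rw [Pi.single_eq_of_ne h]
  have h1 := multiM hN ty p hp _ hm 0 fun k hk =>
    Pi.single_eq_of_ne (fun h => hk (by rw [h, map_zero])) _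
  rw [Finset.sum_eq_single 0 (fun k _ hk => by
    rw [Pi.single_eq_of_ne hk, zero_div, zero_mul]) (fun h => absurd (Finset.mem_univ _) h),
    Pi.single_eq_same, zero_add] at h1
  have h2 : cw N (KM N d ty) (Pi.single 0 1 : ZMod (4 * N) → ℝ) 0 = KM N d ty 0 := by
    unfold cw
    rw [Finset.sum_eq_single 0 (fun k _ hk => by rw [Pi.single_eq_of_ne hk, mul_zero])
      (fun h => absurd (Finset.mem_univ _) h), Pi.single_eq_same, mul_one, sub_zero]
  have h3 : sg N 0 = 0 := by simp [sg]
  rw [h2, h3, div_mul_eq_mul_div, one_mul, div_le_iff₀ (KM_zero_pos (by omega) ty)] at h1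
  linarith

end Pool.Agent.MPbd65ca.Sp
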