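import Pool.Agent.Lib.MP_bd65ca_an_S.Id
import Pool.Agent.Lib.MP_bd65ca_an_S.Fp

/-!
# The leaf inequality for positive masses

PROOF. `exists_Fp` with `s = ph`; for `a : Cl N c` let `z` be the zeros of `hh_zeros`,
`R a = Rz (N - 2) (xt N) z`, `Lc = (N - 1) * 2 ^ (N - 1) * W * 2 ^ (N - 1)`, `W = ∑ M > 0`; then
`hh * UU = C Lc * nodal` (`UU_prod`, `Rz_nodal`, `N - 2 + 1 = N - 1`), `Rz_card`.  `main_id` with
`l' = l + 2 N` (same parity).  Take real parts: all values are real: `(A a).eval (cos w)` is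
`F a w = f w (sg N a) + f (-w) (sg N a) ≥ 0`; the points of `R a` lie in `(-1, 1)`, so `ρ = cos w`
with
`w = arccos ρ`.  At `1`, `-1`: `w = 0`, `w = π`: the right side is at least
`N * Lc / h₀ * 2 * f 0 (sg N l)`, `h₀ = ∑ k3 N (l - k) * M k > 0`.
The left side: for each `a` use `Rz_sum` with `P = hh N c M a`, `L = (N - 1) * 2 ^ (N - 1) * W`,
`φ ρ = F a (arccos ρ) * gg N (a - l) ρ` (`≥ 0` at `z i` by `gg_nonneg`; `z i ≠ cos (sg N (a - l))`
because
the latter is `±1` or some `xt N j`, and `z i` lies strictly between two consecutive `xt`, all in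
`(-1, 1)`): the sum over `R a` is at most
`∑ i < N - 1, F (x_i) kb_i L / (P (x_i) * ∏_{j ≠ i} (x_i - x_j))`, with `gg_grid`, `hh_grid`,
`xt_prod`,
`xt_sg`: `P (x_i) = (-1) ^ i * hb_i`, `∏ = (-1) ^ i N / (2 ^ (N - 1) sin ^ 2)`, so the term is
`F (x_i) * kb_i * L * 2 ^ (N - 1) * sin ^ 2 / (N * hb_i)`, `hb_i = ∑ kb N t (a - k') * M k'`, `t =
2 (i + 1)`,
and `L * 2 ^ (N - 1) = Lc`.  Divide by `2 N Lc / N = 2 Lc`... (so that `f 0 (sg N l) / h₀`
remains) and
rewrite `∑ i < N - 1` of `f (sg t) + f (-sg t)` as the sum over all even `t` (`sin (sg N t) = 0` for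
`t = 0`, `2 N`; the even `t` with `t.val > 2 N` are the `-t`, `kb_neg_left`, `sg N (-t) = 2 π - sg
N t`, and
`f` is `2 π`-periodic in the first variable by its expansion).
-/

open MeasureTheory FourierTransform Pointwise Set Finset Polynomial
open scoped RealInnerProductSpace

namespace Pool.Agent.MPbd65ca.Sp

open Pool.Agent.MPbd65ca.Oct Pool.Agent.MPbd65ca.Bp

variable {N : ℕ} [NeZero N]

/-- The sum over the nodes of index `i < N - 1` and their negatives. -/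
theorem even_sum (hN : 2 ≤ N) {g : ZMod (4 * N) → ℝ} :
    ∑ t with par N t = 0, Real.sin (sg N t) ^ 2 * g t =
      ∑ i ∈ range (N - 1), Real.sin (sg N ((2 * (i + 1) : ℕ) : ZMod (4 * N))) ^ 2 *
        (g ((2 * (i + 1) : ℕ) : ZMod (4 * N)) + g (-((2 * (i + 1) : ℕ) : ZMod (4 * N)))) := by
  rw [PFcAux.sum_par]
  have hv : ((0 : ZMod 2).val) = 0 := rfl
  have hN0 : 0 < N := by omega
  have hN0' : (0 : ℝ) < N := by exact_mod_cast hN0
  obtain ⟨G, hG⟩ : ∃ G : ℕ → ℝ, G = fun l => Real.sin (sg N ((2 * l : ℕ) : ZMod (4 * N))) ^ 2 *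
      g ((2 * l : ℕ) : ZMod (4 * N)) := ⟨_, rfl⟩
  have h1 : ∑ l ∈ range (2 * N), Real.sin (sg N ((2 * l + (0 : ZMod 2).val : ℕ) :
      ZMod (4 * N))) ^ 2 * g ((2 * l + (0 : ZMod 2).val : ℕ) : ZMod (4 * N)) =
      ∑ l ∈ range (N + N), G l := by
    rw [hG, hv, ← two_mul]
    rfl
  have h0 : G 0 = 0 := by
    rw [hG]
    have : sg N ((2 * 0 : ℕ) : ZMod (4 * N)) = 0 := by
      unfold sg
      simp
    simp only [this, Real.sin_zero]
    ring
  have h2 : G N = 0 := by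
    rw [hG]
    have : sg N ((2 * N : ℕ) : ZMod (4 * N)) = Real.pi := by
      unfold sg
      rw [ZMod.val_cast_of_lt (by omega)]
      push_cast
      field_simp
    simp only [this, Real.sin_pi]
    ring
  rw [h1, Finset.sum_range_add]
  obtain ⟨n, hn⟩ : ∃ n, N = n + 1 := ⟨N - 1, by omega⟩
  have h3 : ∑ l ∈ range N, G l = ∑ i ∈ range (N - 1), G (i + 1) := by
    have : range N = range (N - 1 + 1) := by
      rw [Nat.sub_add_cancel (by omega)]
    rw [this, Finset.sum_range_succ', h0, add_zero]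
  have h4 : ∑ l ∈ range N, G (N + l) = ∑ i ∈ range (N - 1), G (2 * N - (i + 1)) := by
    have : range N = range (N - 1 + 1) := by
      rw [Nat.sub_add_cancel (by omega)]
    rw [this, Finset.sum_range_succ', add_zero, h2, add_zero,
      ← Finset.sum_range_reflect (fun l => G (N + (l + 1)))]
    refine Finset.sum_congr rfl fun i hi => ?_
    rw [Finset.mem_range] at hi
    have : N + (N - 1 - 1 - i + 1) = 2 * N - (i + 1) := by omega
    rw [this]
  rw [h3, h4, ← Finset.sum_add_distrib]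
  refine Finset.sum_congr rfl fun i hi => ?_
  rw [Finset.mem_range] at hi
  have h5 : ((2 * (2 * N - (i + 1)) : ℕ) : ZMod (4 * N)) =
      -((2 * (i + 1) : ℕ) : ZMod (4 * N)) := by
    have h6 : 2 * (2 * N - (i + 1)) + 2 * (i + 1) = 4 * N := by omega
    have h7 : ((2 * (2 * N - (i + 1)) : ℕ) : ZMod (4 * N)) + ((2 * (i + 1) : ℕ) : ZMod (4 * N))
        = 0 := by
      rw [← Nat.cast_add, h6, ZMod.natCast_self]
    exact eq_neg_of_add_eq_zero_left h7
  rw [hG]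
  simp only
  rw [h5, (cos_sg_neg _).2.2]
  ring

theorem T3_per {f : ℝ → ℝ → ℝ} (hf : T3 N f) (w s : ℝ) : f (w + 2 * Real.pi) s = f w s := by
  obtain ⟨a, -, h⟩ := hf
  have h1 : ((f (w + 2 * Real.pi) s : ℝ) : ℂ) = ((f w s : ℝ) : ℂ) := by
    rw [h, h]
    refine Finset.sum_congr rfl fun k _ => Finset.sum_congr rfl fun τ _ => ?_
    have h2 : Complex.I * (k * ((w + 2 * Real.pi : ℝ) : ℂ) + τ * s) =
        Complex.I * (k * w + τ * s) + k * (2 * Real.pi * Complex.I) := by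
      push_cast
      ring
    rw [h2, Complex.exp_add, Complex.exp_int_mul_two_pi_mul_I, mul_one]
  exact_mod_cast h1

private theorem P3aAux.par_sub {c : ZMod 2} {k l : ZMod (4 * N)} (hk : par N k = c)
    (hl : par N l = c) : par N (k - l) = 0 := by
  rw [map_sub, hk, hl, sub_self]

private theorem P3aAux.h0_pos (hN : 3 ≤ N) {c : ZMod 2} {M : ZMod (4 * N) → ℝ}
    (hM : ∀ k, par N k = c → 0 < M k) {l : ZMod (4 * N)} (hl : par N l = c) :
    0 < ∑ k with par N k = c, k3 N (l - k) * M k := by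
  refine Finset.sum_pos' (fun k hk => ?_) ⟨l, by simp [hl], ?_⟩
  · have hk' : par N k = c := (Finset.mem_filter.1 hk).2
    exact mul_nonneg (k3_nonneg (P3aAux.par_sub hl hk')) (hM k hk').le
  · rw [sub_self]
    exact mul_pos (k3_zero_pos (by omega)) (hM l hl)

private theorem P3aAux.abs_xt (N i : ℕ) : |xt N i| ≤ 1 := Real.abs_cos_le_one _

private theorem P3aAux.z_ne (hN : 3 ≤ N) {z : ℕ → ℝ}
    (hz : ∀ i < N - 2, xt N (i + 1) < z i ∧ z i < xt N i) {y : ZMod (4 * N)}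
    (hy : par N y = 0) {i : ℕ} (hi : i < N - 2) : z i ≠ Real.cos (sg N y) := by
  intro he
  have h1 := UU_sin N (sg N y)
  rw [sin_even hy, ← he] at h1
  rcases mul_eq_zero.1 h1 with h2 | h2
  · rw [UU_prod (by omega), eval_mul, eval_C, eval_prod] at h2
    have h3 := interlace_sign hz hi
    have h4 : ∏ j ∈ range (N - 2 + 1), (z i - xt N j) = 0 := by
      have h5 : N - 2 + 1 = N - 1 := by omega
      rw [h5]
      have h6 : (2 : ℝ) ^ (N - 1) ≠ 0 := by positivity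
      have h7 := (mul_eq_zero.1 h2).resolve_left h6
      simpa using h7
    rw [h4, mul_zero] at h3
    exact lt_irrefl _ h3
  · have h3 : z i ^ 2 = 1 := by
      have := Real.sin_sq_add_cos_sq (sg N y)
      rw [h2, ← he] at this
      linarith
    have h4 := (hz i hi).1
    have h5 := (hz i hi).2
    have h6 := abs_le.1 (P3aAux.abs_xt N i)
    have h7 := abs_le.1 (P3aAux.abs_xt N (i + 1))
    nlinarith [h4, h5, h6.1, h6.2, h7.1, h7.2]

private theorem P3aAux.z_abs {z : ℕ → ℝ}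
    (hz : ∀ i < N - 2, xt N (i + 1) < z i ∧ z i < xt N i) {i : ℕ} (hi : i < N - 2) :
    |z i| ≤ 1 := by
  have h4 := (hz i hi).1
  have h5 := (hz i hi).2
  have h6 := abs_le.1 (P3aAux.abs_xt N i)
  have h7 := abs_le.1 (P3aAux.abs_xt N (i + 1))
  rw [abs_le]
  constructor <;> linarith [h6.1, h6.2, h7.1, h7.2]

private theorem P3aAux.sum_le (hN : 3 ≤ N) {c : ZMod 2} {M : ZMod (4 * N) → ℝ} {L : ℝ}
    (hL : 0 < L) {z : ℕ → ℝ}
    (hz : ∀ i < N - 2, xt N (i + 1) < z i ∧ z i < xt N i) {k l : ZMod (4 * N)}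
    (hk : par N k = c) (hl : par N l = c)
    (hP : hh N c M k = C L * ∏ i ∈ range (N - 2), (X - C (z i))) {Φ : ℝ → ℝ}
    (hΦ : ∀ x, |x| ≤ 1 → 0 ≤ Φ x) :
    ∑ ρ ∈ Rz (N - 2) (xt N) z, Φ ρ * gg N (k - l) ρ /
        ∏ q ∈ (Rz (N - 2) (xt N) z).erase ρ, (ρ - q) ≤
      ∑ i ∈ range (N - 1),
        L * 2 ^ (N - 1) / N * (Real.sin (sg N ((2 * (i + 1) : ℕ) : ZMod (4 * N))) ^ 2 *
        (kb N ((2 * (i + 1) : ℕ) : ZMod (4 * N)) (k - l) /
          (∑ k' with par N k' = c, kb N ((2 * (i + 1) : ℕ) : ZMod (4 * N)) (k - k') * M k') *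
          Φ (xt N i))) := by
  have hkl : par N (k - l) = 0 := P3aAux.par_sub hk hl
  have h1 := Rz_sum hz hL hP (φ := fun ρ => Φ ρ * gg N (k - l) ρ) (fun i hi =>
    mul_nonneg (hΦ _ (P3aAux.z_abs hz hi)) (gg_nonneg hkl (P3aAux.z_abs hz hi)
      (P3aAux.z_ne hN hz hkl hi)))
  refine h1.trans (le_of_eq ?_)
  have h5 : N - 2 + 1 = N - 1 := by omega
  rw [h5]
  refine Finset.sum_congr rfl fun i hi => ?_
  rw [Finset.mem_range] at hi
  obtain ⟨e1, e2, e3, e4⟩ := xt_sg (N := N) hi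
  obtain ⟨t, ht⟩ : ∃ t : ZMod (4 * N), t = ((2 * (i + 1) : ℕ) : ZMod (4 * N)) := ⟨_, rfl⟩
  have hx := xt_prod (N := N) (by omega) hi
  rw [← ht] at e1 e2 e3 e4 hx ⊢
  have e5 := hh_grid M e1 e3.ne' hk
  have e6 := gg_grid e1 e3.ne' hkl
  rw [e2] at e5 e6
  rw [hx, e5, e6, e4]
  have hN' : (N : ℝ) ≠ 0 := by
    have : N ≠ 0 := NeZero.ne N
    exact_mod_cast this
  have h8 : (-(-1 : ℝ) ^ (i + 1)) = (-1) ^ i := by
    rw [pow_succ]
    ring
  rw [h8]
  have h9 : ((-1 : ℝ) ^ i) * (-1) ^ i = 1 := by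
    rw [← mul_pow]
    norm_num
  have h10 : (-1 : ℝ) ^ i * (∑ k' with par N k' = c, kb N t (k - k') * M k') *
      ((-1) ^ i * N / (2 ^ (N - 1) * Real.sin (sg N t) ^ 2)) =
      (∑ k' with par N k' = c, kb N t (k - k') * M k') *
        (N / (2 ^ (N - 1) * Real.sin (sg N t) ^ 2)) := by
    linear_combination ((∑ k' with par N k' = c, kb N t (k - k') * M k') *
        (N / (2 ^ (N - 1) * Real.sin (sg N t) ^ 2))) * h9
  rw [h10]
  have h11 := e3.ne'
  by_cases hS : (∑ k' with par N k' = c, kb N t (k - k') * M k') = 0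
  · rw [hS]
    simp
  · field_simp

theorem P3a (hN : 3 ≤ N) {f : ℝ → ℝ → ℝ} (hf : T3 N f) (h0 : ∀ w s, 0 ≤ f w s) {c : ZMod 2}
    {M : ZMod (4 * N) → ℝ} (hM : ∀ k, par N k = c → 0 < M k) {l : ZMod (4 * N)}
    (hl : par N l = c) :
    f 0 (sg N l) / ∑ k with par N k = c, k3 N (l - k) * M k ≤
      ∑ t with par N t = 0, Real.sin (sg N t) ^ 2 / (2 * (N : ℝ) ^ 2) *
        ∑ k with par N k = c, kb N t (k - l) /
          (∑ k' with par N k' = c, kb N t (k - k') * M k') * f (sg N t) (sg N k) := by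
  obtain ⟨A, hAn, hAc, hAe⟩ := exists_Fp (N := N) (by omega) hf (ph (N := N) (c := c))
  have hNpos : (0 : ℝ) < N := by
    have : 0 < N := by omega
    exact_mod_cast this
  have hN1 : (0 : ℝ) < (N : ℝ) - 1 := by
    have : (3 : ℝ) ≤ N := by exact_mod_cast hN
    linarith
  have hW : 0 < ∑ k' with par N k' = c, M k' :=
    Finset.sum_pos (fun k hk => hM k (Finset.mem_filter.1 hk).2) ⟨l, by simp [hl]⟩
  obtain ⟨L, hLd⟩ : ∃ L : ℝ, L = (N - 1) * 2 ^ (N - 1) * ∑ k' with par N k' = c, M k' :=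
    ⟨_, rfl⟩
  have hL : 0 < L := by
    rw [hLd]
    positivity
  have hzz : ∀ a : Cl N c, ∃ z : ℕ → ℝ, (∀ i < N - 2, xt N (i + 1) < z i ∧ z i < xt N i) ∧
      hh N c M a.1 = C L * ∏ i ∈ range (N - 2), (X - C (z i)) := by
    intro a
    rw [hLd]
    exact hh_zeros hN hM a.2
  choose z hz hh' using hzz
  obtain ⟨R, hRd⟩ : ∃ R : Cl N c → Finset ℝ, R = fun a => Rz (N - 2) (xt N) (z a) := ⟨_, rfl⟩
  have hLc : 0 < L * 2 ^ (N - 1) := by positivity
  have hR : ∀ a, hh N c M a.1 * UU N = C (L * 2 ^ (N - 1)) * Lagrange.nodal (R a) id := by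
    intro a
    rw [hRd]
    simp only
    rw [Rz_nodal (hz a), hh' a, UU_prod (by omega), C_mul]
    have h5 : N - 2 + 1 = N - 1 := by omega
    rw [h5]
    ring
  have hRc : ∀ a, (R a).card = 2 * N - 3 := by
    intro a
    rw [hRd]
    simp only
    rw [Rz_card (hz a)]
    omega
  have hl' : par N (l + (2 * N : ℕ)) = c := by
    rw [map_add, hl, PFcAux.par_natCast, Nat.cast_mul]
    have : ((2 : ℕ) : ZMod 2) = 0 := by decide
    rw [this, zero_mul, add_zero]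
  have hmain := main_id hN hM hLc hR hRc hAn hAc ⟨l, hl⟩ ⟨l + (2 * N : ℕ), hl'⟩ rfl
  obtain ⟨Φ, hΦd⟩ : ∃ Φ : Cl N c → ℝ → ℝ,
      Φ = fun (a : Cl N c) (ρ : ℝ) => ((A a).eval (ρ : ℂ)).re := ⟨_, rfl⟩
  have hΦ : ∀ a w, Φ a (Real.cos w) = f w (ph a) + f (-w) (ph a) := by
    intro a w
    rw [hΦd]
    simp only
    rw [hAe, Complex.ofReal_re]
  have hcos : ∀ x : ℝ, |x| ≤ 1 → ∃ w, Real.cos w = x := fun x hx =>
    ⟨Real.arccos x, Real.cos_arccos (abs_le.1 hx).1 (abs_le.1 hx).2⟩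
  have hΦ' : ∀ a (x : ℝ), |x| ≤ 1 → (A a).eval (x : ℂ) = ((Φ a x : ℝ) : ℂ) := by
    intro a x hx
    obtain ⟨w, rfl⟩ := hcos x hx
    rw [hΦ, hAe]
  have hΦ0 : ∀ a x, |x| ≤ 1 → 0 ≤ Φ a x := by
    intro a x hx
    obtain ⟨w, rfl⟩ := hcos x hx
    rw [hΦ]
    exact add_nonneg (h0 _ _) (h0 _ _)
  have hRabs : ∀ a, ∀ ρ ∈ R a, |ρ| ≤ 1 := by
    intro a ρ hρ
    rw [hRd] at hρ
    simp only at hρ
    unfold Rz at hρ
    rw [Finset.mem_union, Finset.mem_image, Finset.mem_image] at hρ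
    rcases hρ with ⟨i, -, rfl⟩ | ⟨i, hi, rfl⟩
    · exact P3aAux.abs_xt N i
    · exact P3aAux.z_abs (hz a) (Finset.mem_range.1 hi)
  have hh0 := P3aAux.h0_pos hN hM hl
  obtain ⟨H, hH⟩ : ∃ H : ℝ, H = ∑ k with par N k = c, k3 N (l - k) * M k := ⟨_, rfl⟩
  rw [← hH] at hh0 ⊢
  -- the real identity
  have hreal : ∑ a : Cl N c, ∑ ρ ∈ R a, Φ a ρ * gg N (a.1 - l) ρ /
      ∏ q ∈ (R a).erase ρ, (ρ - q) =
      N * (L * 2 ^ (N - 1)) / H * (Φ ⟨l, hl⟩ 1 + Φ ⟨l + (2 * N : ℕ), hl'⟩ (-1)) := by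
    have e1 : (1 : ℂ) = ((1 : ℝ) : ℂ) := by norm_num
    have e2 : (-1 : ℂ) = ((-1 : ℝ) : ℂ) := by norm_num
    rw [e2, e1, hΦ' _ 1 (by norm_num), hΦ' _ (-1) (by norm_num)] at hmain
    simp only at hmain
    rw [← hH] at hmain
    have hm2 : ∑ a : Cl N c, ∑ ρ ∈ R a, (A a).eval (ρ : ℂ) *
        ((gg N (a.1 - l) ρ / ∏ q ∈ (R a).erase ρ, (ρ - q) : ℝ) : ℂ) =
        ((∑ a : Cl N c, ∑ ρ ∈ R a, Φ a ρ * gg N (a.1 - l) ρ /
      ∏ q ∈ (R a).erase ρ, (ρ - q) : ℝ) : ℂ) := by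
      rw [Complex.ofReal_sum]
      refine Finset.sum_congr rfl fun a _ => ?_
      rw [Complex.ofReal_sum]
      refine Finset.sum_congr rfl fun ρ hρ => ?_
      rw [hΦ' a ρ (hRabs a ρ hρ), ← Complex.ofReal_mul, mul_div_assoc]
    rw [hm2] at hmain
    exact_mod_cast hmain
  -- the upper estimate
  have hub : ∑ a : Cl N c, ∑ ρ ∈ R a, Φ a ρ * gg N (a.1 - l) ρ /
      ∏ q ∈ (R a).erase ρ, (ρ - q) ≤
      ∑ a : Cl N c, ∑ i ∈ range (N - 1),
        L * 2 ^ (N - 1) / N * (Real.sin (sg N ((2 * (i + 1) : ℕ) : ZMod (4 * N))) ^ 2 *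
        (kb N ((2 * (i + 1) : ℕ) : ZMod (4 * N)) (a.1 - l) /
          (∑ k' with par N k' = c, kb N ((2 * (i + 1) : ℕ) : ZMod (4 * N)) (a.1 - k') * M k') *
          Φ a (xt N i))) := by
    refine Finset.sum_le_sum fun a _ => ?_
    rw [hRd]
    exact P3aAux.sum_le hN hL (hz a) a.2 hl (hh' a) (hΦ0 a)
  -- the lower estimate
  have hlb : N * (L * 2 ^ (N - 1)) / H * (2 * f 0 (sg N l)) ≤
      N * (L * 2 ^ (N - 1)) / H * (Φ ⟨l, hl⟩ 1 + Φ ⟨l + (2 * N : ℕ), hl'⟩ (-1)) := by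
    refine mul_le_mul_of_nonneg_left ?_ (by positivity)
    have e1 : Φ ⟨l, hl⟩ 1 = 2 * f 0 (sg N l) := by
      have := hΦ ⟨l, hl⟩ 0
      rw [Real.cos_zero, neg_zero] at this
      rw [this]
      unfold ph
      ring
    rw [e1]
    have := hΦ0 ⟨l + (2 * N : ℕ), hl'⟩ (-1) (by norm_num)
    linarith
  -- the sum over the even residues
  have hfin : ∑ t with par N t = 0, Real.sin (sg N t) ^ 2 / (2 * (N : ℝ) ^ 2) *
        ∑ k with par N k = c, kb N t (k - l) /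
          (∑ k' with par N k' = c, kb N t (k - k') * M k') * f (sg N t) (sg N k) =
      1 / (2 * N * (L * 2 ^ (N - 1))) * ∑ a : Cl N c, ∑ i ∈ range (N - 1),
        L * 2 ^ (N - 1) / N * (Real.sin (sg N ((2 * (i + 1) : ℕ) : ZMod (4 * N))) ^ 2 *
        (kb N ((2 * (i + 1) : ℕ) : ZMod (4 * N)) (a.1 - l) /
          (∑ k' with par N k' = c, kb N ((2 * (i + 1) : ℕ) : ZMod (4 * N)) (a.1 - k') * M k') *
          Φ a (xt N i))) := by
    have e1 : ∑ t with par N t = 0, Real.sin (sg N t) ^ 2 / (2 * (N : ℝ) ^ 2) *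
        ∑ k with par N k = c, kb N t (k - l) /
          (∑ k' with par N k' = c, kb N t (k - k') * M k') * f (sg N t) (sg N k) =
        ∑ t with par N t = 0, Real.sin (sg N t) ^ 2 * (1 / (2 * (N : ℝ) ^ 2) *
        ∑ k with par N k = c, kb N t (k - l) /
          (∑ k' with par N k' = c, kb N t (k - k') * M k') * f (sg N t) (sg N k)) := by
      refine Finset.sum_congr rfl fun t _ => ?_
      ring
    rw [e1, even_sum (by omega) (g := fun t => (1 / (2 * (N : ℝ) ^ 2) *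
        ∑ k with par N k = c, kb N t (k - l) /
          (∑ k' with par N k' = c, kb N t (k - k') * M k') * f (sg N t) (sg N k))),
      Finset.sum_comm, Finset.mul_sum]
    refine Finset.sum_congr rfl fun i hi => ?_
    rw [Finset.mem_range] at hi
    obtain ⟨e2, e3, e4, e5⟩ := xt_sg (N := N) hi
    obtain ⟨t, ht⟩ : ∃ t : ZMod (4 * N), t = ((2 * (i + 1) : ℕ) : ZMod (4 * N)) := ⟨_, rfl⟩
    rw [← ht] at e2 e3 e4 e5 ⊢
    have ht0 : t ≠ 0 := by
      rintro h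
      rw [h] at e4
      have : sg N (0 : ZMod (4 * N)) = 0 := by
        unfold sg
        simp
      rw [this, Real.sin_zero] at e4
      exact lt_irrefl _ e4
    have e6 : sg N (-t) = -sg N t + 2 * Real.pi := by
      unfold sg
      rw [ZMod.neg_val, if_neg ht0, Nat.cast_sub (ZMod.val_lt t).le]
      push_cast
      field_simp
      ring
    have e7 : ∑ k with par N k = c, kb N (-t) (k - l) /
          (∑ k' with par N k' = c, kb N (-t) (k - k') * M k') * f (sg N (-t)) (sg N k) =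
        ∑ k with par N k = c, kb N t (k - l) /
          (∑ k' with par N k' = c, kb N t (k - k') * M k') * f (-sg N t) (sg N k) := by
      refine Finset.sum_congr rfl fun k _ => ?_
      simp only [kb_neg_left]
      rw [e6, T3_per hf]
    rw [e7, ← mul_add, ← Finset.sum_add_distrib]
    rw [Finset.sum_subtype (p := fun k => par N k = c) (Finset.univ.filter fun k =>
      par N k = c) (by intro x; simp)]
    rw [Finset.mul_sum, Finset.mul_sum, Finset.mul_sum]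
    refine Finset.sum_congr rfl fun a _ => ?_
    rw [← e3, hΦ]
    unfold ph
    have h2 : (2 : ℝ) ^ (N - 1) ≠ 0 := by positivity
    have h3 : L ≠ 0 := hL.ne'
    have h4 : (N : ℝ) ≠ 0 := hNpos.ne'
    field_simp
  rw [hfin]
  have e9 : f 0 (sg N l) / H = 1 / (2 * N * (L * 2 ^ (N - 1))) *
      (N * (L * 2 ^ (N - 1)) / H * (2 * f 0 (sg N l))) := by
    have h2 : (2 : ℝ) ^ (N - 1) ≠ 0 := by positivity
    have h3 : L ≠ 0 := hL.ne'
    have h4 : (N : ℝ) ≠ 0 := hNpos.ne'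
    field_simp
  rw [e9]
  refine mul_le_mul_of_nonneg_left ?_ (by positivity)
  rw [← hreal] at hlb
  exact hlb.trans hub

end Pool.Agent.MPbd65ca.Sp
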