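import Pool.Agent.Lib.MP_bd65ca_an_S.KMb

/-!
# The induction step for a segment

PROOF. Copy the step of `multi` in F/Ind.lean (lemmas `cv_succ`, `Ind_point`, `Ind_shift`, ...)
with the
kernel `KK N d` replaced by `A` and `KK N (d + 1)` by `A'` (`A' y = 1 / 2 * (A y + ∑ kap t * A (y
+ 2 t))` is
the definition used in `Ind_succ`), `cv` by `cw`.  With `ty 0 = false`: `wt N false t = 1` for odd
`t`
and `0` else; `pc ty = 1 + pc (Fin.tail ty)`.
-/

open MeasureTheory FourierTransform Pointwise Set Finset Polynomial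
open scoped RealInnerProductSpace

namespace Pool.Agent.MPbd65ca.Sp

open Pool.Agent.MPbd65ca.Oct Pool.Agent.MPbd65ca.Bp

variable {N : ℕ} [NeZero N]

private theorem St1_nsum (f : ZMod (4 * N) → ℝ) :
    ∑ t with par N t = 1, f (-t) = ∑ t with par N t = 1, f t := by
  rw [Finset.sum_filter, Finset.sum_filter]
  refine Fintype.sum_equiv (Equiv.neg _) _ _ fun t => ?_
  have h1 : par N (-t) = par N t := by
    rw [map_neg]
    exact ZMod.neg_eq_self_mod_two _
  rw [Equiv.neg_apply, h1]

private theorem St1_kap : ∑ t with par N t = 1, kap N t = 1 := by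
  have h := kap_cos (N := N) (n := 0) (Nat.zero_le _)
  simpa using h

private theorem St1_N : (0 : ℝ) < N := by
  exact_mod_cast Nat.pos_of_ne_zero (NeZero.ne N)

private theorem St1_shift (a b c : ZMod (4 * N)) {σ : ℤ} (h : a = b + σ * c) :
    ∃ q : ℤ, sg N a = sg N b + σ * sg N c + q * (2 * Real.pi) := by
  have hN : (0 : ℝ) < N := St1_N
  have h1 : ((a.val - b.val - σ * c.val : ℤ) : ZMod (4 * N)) = 0 := by
    push_cast
    rw [ZMod.natCast_zmod_val, ZMod.natCast_zmod_val, ZMod.natCast_zmod_val, h]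
    ring
  rw [ZMod.intCast_zmod_eq_zero_iff_dvd] at h1
  obtain ⟨q, hq⟩ := h1
  have h2 : (a.val : ℝ) = b.val + σ * c.val + 4 * N * q := by
    have h3 : (a.val : ℤ) = b.val + σ * c.val + 4 * N * q := by
      push_cast at hq
      linarith
    exact_mod_cast h3
  refine ⟨q, ?_⟩
  unfold sg
  rw [h2]
  field_simp
  ring

private theorem St1_add_sg {d : ℕ} {ty : Fin d → Bool} {p : (Fin d → ℝ) → ℝ → ℝ}
    (hp : TgM d N ty p) (x : Fin d → ℝ) (S t : ZMod (4 * N)) :
    p x (sg N (S + t)) = p x (sg N S + 1 * sg N t) ∧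
      p x (sg N (S - t)) = p x (sg N S + (-1) * sg N t) := by
  have hper : Function.Periodic (p x) (2 * Real.pi) := hp.per x
  constructor
  · obtain ⟨q, hq⟩ := St1_shift (S + t) S t (σ := 1) (by push_cast; ring)
    rw [hq, hper.int_mul q]
    push_cast
    rfl
  · obtain ⟨q, hq⟩ := St1_shift (S - t) S t (σ := -1) (by push_cast; ring)
    rw [hq, hper.int_mul q]
    push_cast
    rfl

/-- The new kernel. -/
private noncomputable def St1_A (A : ZMod (4 * N) → ℝ) (y : ZMod (4 * N)) : ℝ :=
  1 / 2 * (A y + ∑ t with par N t = 1, kap N t * A (y + 2 * t))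

private theorem St1_succ (A : ZMod (4 * N) → ℝ) (y : ZMod (4 * N)) :
    ∑ t with par N t = 1, kap N t * A (y + 2 * t) = 2 * St1_A A y - A y := by
  unfold St1_A
  ring

private theorem St1_cw (A m : ZMod (4 * N) → ℝ) (S : ZMod (4 * N)) :
    ∑ t with par N t = 1, kap N t * cw N A (fun k => m (k - t) + m (k + t)) (S + t) =
      2 * cw N (St1_A A) m S ∧
    ∑ t with par N t = 1, kap N t * cw N A (fun k => m (k - t) + m (k + t)) (S - t) =
      2 * cw N (St1_A A) m S := by
  have key : ∀ F : ZMod (4 * N) → ZMod (4 * N) → ℝ,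
      (∀ t k, F t k = A (S - k) + A (S - k + 2 * t)) →
      ∑ t with par N t = 1, kap N t * ∑ k, F t k * m k = 2 * cw N (St1_A A) m S := by
    intro F hF
    have h1 : ∀ t : ZMod (4 * N), kap N t * ∑ k, F t k * m k =
        ∑ k, (kap N t * A (S - k) + kap N t * A (S - k + 2 * t)) * m k := by
      intro t
      rw [Finset.mul_sum]
      refine Finset.sum_congr rfl fun k _ => ?_
      rw [hF]
      ring
    rw [Finset.sum_congr rfl fun t _ => h1 t, Finset.sum_comm]
    unfold cw
    rw [Finset.mul_sum]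
    refine Finset.sum_congr rfl fun k _ => ?_
    rw [← Finset.sum_mul, Finset.sum_add_distrib, ← Finset.sum_mul, St1_kap, St1_succ]
    ring
  have sub : ∀ (g : ZMod (4 * N) → ℝ) (t : ZMod (4 * N)),
      ∑ k, g k * (m (k - t) + m (k + t)) = ∑ k, (g (k + t) + g (k - t)) * m k := by
    intro g t
    simp only [mul_add, add_mul, Finset.sum_add_distrib]
    congr 1
    · refine Fintype.sum_equiv (Equiv.subRight t) _ _ fun k => ?_
      rw [Equiv.subRight_apply, sub_add_cancel]
    · refine Fintype.sum_equiv (Equiv.addRight t) _ _ fun k => ?_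
      rw [Equiv.coe_addRight, add_sub_cancel_right]
  constructor
  · rw [← key (fun t k => A (S + t - (k + t)) + A (S + t - (k - t))) (fun t k => by
      congr 2 <;> ring)]
    refine Finset.sum_congr rfl fun t _ => ?_
    unfold cw
    rw [sub (fun k => A (S + t - k))]
  · have h2 := key (fun t k => A (S - (k)) + A (S - k + 2 * t)) (fun t k => rfl)
    rw [← h2, ← St1_nsum]
    refine Finset.sum_congr rfl fun t _ => ?_
    unfold cw
    rw [kap_neg]
    congr 1
    have h3 := sub (fun k => A (S - -t - k)) (-t)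
    rw [h3]
    refine Finset.sum_congr rfl fun k _ => ?_
    congr 1
    have e1 : S - -t - (k + -t) = S - k + 2 * t := by ring
    have e2 : S - -t - (k - -t) = S - k := by ring
    rw [e1, e2, add_comm]

private theorem St1_cons {d : ℕ} (a : ℝ) :
    (Fin.cons a (0 : Fin d → ℝ) : Fin (d + 1) → ℝ) =
      Function.update (0 : Fin (d + 1) → ℝ) 0 a := by
  funext i
  refine Fin.cases ?_ (fun j => ?_) i
  · simp
  · simp

private theorem St1_A_nonneg {A : ZMod (4 * N) → ℝ} (hA : ∀ y, 0 ≤ A y) (y : ZMod (4 * N)) :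
    0 ≤ St1_A A y := by
  unfold St1_A
  have h : 0 ≤ ∑ t with par N t = 1, kap N t * A (y + 2 * t) :=
    Finset.sum_nonneg fun t ht => mul_nonneg (kap_pos (Finset.mem_filter.1 ht).2).le (hA _)
  have h2 := hA y
  positivity

private theorem St1_A_pos {A : ZMod (4 * N) → ℝ} (hA : ∀ y, 0 ≤ A y) (hA0 : 0 < A 0) :
    0 < St1_A A 0 := by
  unfold St1_A
  have h : 0 ≤ ∑ t with par N t = 1, kap N t * A (0 + 2 * t) :=
    Finset.sum_nonneg fun t ht => mul_nonneg (kap_pos (Finset.mem_filter.1 ht).2).le (hA _)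
  linarith

private theorem St1_point {d : ℕ} {ty : Fin (d + 1) → Bool} (h0 : ty 0 = false)
    {A : ZMod (4 * N) → ℝ} (hA : ∀ y, 0 ≤ A y) (hA0 : 0 < A 0)
    {p : (Fin (d + 1) → ℝ) → ℝ → ℝ} (hp : TgM (d + 1) N ty p)
    {m : ZMod (4 * N) → ℝ} (hm : ∀ k, 0 ≤ m k) {S : ZMod (4 * N)} (hS : 0 < m S)
    (e : ZMod (4 * N) → ZMod (4 * N)) (σ : ℝ) (hσ : σ = 1 ∨ σ = -1)
    (he : ∀ t, e t = S + t ∨ e t = S - t)
    (hcv : ∑ t with par N t = 1, kap N t * cw N A (fun k => m (k - t) + m (k + t)) (e t) =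
      2 * cw N (St1_A A) m S)
    (hpe : ∀ t x, p x (sg N (e t)) = p x (sg N S + σ * sg N t)) :
    m S / cw N (St1_A A) m S * p 0 (sg N S) ≤ 2 * ∑ t with par N t = 1,
      m S / cw N A (fun k => m (k - t) + m (k + t)) (e t) *
        p (Fin.cons (sg N t) 0) (sg N (e t)) := by
  have hpos : ∀ t : ZMod (4 * N), 0 < cw N A (fun k => m (k - t) + m (k + t)) (e t) := by
    intro t
    refine cw_pos hA hA0 (fun k => add_nonneg (hm _) (hm _)) ?_
    rcases he t with h | h
    · rw [h, add_sub_cancel_right]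
      exact add_pos_of_pos_of_nonneg hS (hm _)
    · rw [h, sub_add_cancel]
      exact add_pos_of_nonneg_of_pos (hm _) hS
  have hpos1 : 0 < cw N (St1_A A) m S := cw_pos (St1_A_nonneg hA) (St1_A_pos hA hA0) hm hS
  have h1 := cs_line (N := N) (hp.line 0 (sg N S) 0 σ h0 hσ) (fun u => hp.nonneg _ _)
    (a := fun t => 1 / cw N A (fun k => m (k - t) + m (k + t)) (e t))
    (fun t _ => one_div_pos.2 (hpos t))
  have h2 : ∑ t with par N t = 1, kap N t /
      (1 / cw N A (fun k => m (k - t) + m (k + t)) (e t)) = 2 * cw N (St1_A A) m S := by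
    rw [← hcv]
    refine Finset.sum_congr rfl fun t _ => ?_
    rw [div_div_eq_mul_div, div_one]
  have h3 : Function.update (0 : Fin (d + 1) → ℝ) 0 0 = 0 := by
    rw [Function.update_eq_self_iff]
    rfl
  rw [h2, h3, mul_zero, add_zero] at h1
  have h4 : ∑ t with par N t = 1, m S / cw N A (fun k => m (k - t) + m (k + t)) (e t) *
        p (Fin.cons (sg N t) 0) (sg N (e t)) = m S * ∑ t with par N t = 1,
      1 / cw N A (fun k => m (k - t) + m (k + t)) (e t) *
        p (Function.update 0 0 (sg N t)) (sg N S + σ * sg N t) := by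
    rw [Finset.mul_sum]
    refine Finset.sum_congr rfl fun t _ => ?_
    rw [hpe, St1_cons]
    ring
  rw [h4, div_mul_eq_mul_div, div_le_iff₀ hpos1]
  have h5 := mul_le_mul_of_nonneg_left h1 hS.le
  linarith

theorem step1 {d : ℕ} {ty : Fin (d + 1) → Bool} (h0 : ty 0 = false) {A : ZMod (4 * N) → ℝ}
    (hA : ∀ y, 0 ≤ A y) (hA0 : 0 < A 0) (ih : MS N d (Fin.tail ty) A) :
    MS N (d + 1) ty (fun y => 1 / 2 * (A y + ∑ t with par N t = 1, kap N t * A (y + 2 * t))) := by
  intro p hp m hm c hc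
  change ∑ k, m k / cw N (St1_A A) m k * p 0 (sg N k) ≤ _
  have h1 : ∀ t : ZMod (4 * N), par N t = 1 →
      ∑ k, (m (k - t) + m (k + t)) / cw N A (fun k => m (k - t) + m (k + t)) k *
        p (Fin.cons (sg N t) 0) (sg N k) ≤
      gsM d N (Fin.tail ty) (fun x s => p (Fin.cons (sg N t) x) s)
        (c + 1 + pc (Fin.tail ty)) := by
    intro t ht
    refine ih _ (TgM_cons hp (sg N t)) (fun k => m (k - t) + m (k + t))
      (fun k => add_nonneg (hm _) (hm _)) (c + 1) fun k hk => ?_
    have e2 : ∀ a : ZMod 2, a ≠ c + 1 → a - 1 ≠ c ∧ a + 1 ≠ c := by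
      clear * -
      revert c
      decide
    have h2 := e2 (par N k) hk
    rw [hc (k - t) (by rw [map_sub, ht]; exact h2.1),
      hc (k + t) (by rw [map_add, ht]; exact h2.2), add_zero]
  have h2 := Finset.sum_le_sum fun t (ht : t ∈ Finset.univ.filter fun t => par N t = 1) =>
    h1 t (Finset.mem_filter.1 ht).2
  have hg : gsM (d + 1) N ty p (c + pc ty) = ∑ t with par N t = 1,
      gsM d N (Fin.tail ty) (fun x s => p (Fin.cons (sg N t) x) s)
        (c + 1 + pc (Fin.tail ty)) := by
    rw [gsM_cons, Finset.sum_filter]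
    refine Finset.sum_congr rfl fun t _ => ?_
    have e3 : c + pc ty = c + 1 + pc (Fin.tail ty) := by
      rw [pc_cons, h0]
      simp [add_assoc]
    rw [e3]
    unfold wt
    rw [h0]
    by_cases ht : par N t = 1
    · simp [ht]
    · simp [ht]
  rw [hg]
  refine le_trans ?_ h2
  have h3 : ∀ t : ZMod (4 * N),
      ∑ k, (m (k - t) + m (k + t)) / cw N A (fun k => m (k - t) + m (k + t)) k *
        p (Fin.cons (sg N t) 0) (sg N k) =
      ∑ S, (m S / cw N A (fun k => m (k - t) + m (k + t)) (S + t) *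
          p (Fin.cons (sg N t) 0) (sg N (S + t)) +
        m S / cw N A (fun k => m (k - t) + m (k + t)) (S - t) *
          p (Fin.cons (sg N t) 0) (sg N (S - t))) := by
    intro t
    rw [Finset.sum_add_distrib]
    simp only [add_div, add_mul, Finset.sum_add_distrib]
    congr 1
    · refine Fintype.sum_equiv (Equiv.subRight t) _ _ fun k => ?_
      rw [Equiv.subRight_apply, sub_add_cancel]
    · refine Fintype.sum_equiv (Equiv.addRight t) _ _ fun k => ?_
      rw [Equiv.coe_addRight, add_sub_cancel_right]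
  rw [Finset.sum_congr rfl fun t _ => h3 t, Finset.sum_comm]
  refine Finset.sum_le_sum fun S _ => ?_
  rcases (hm S).eq_or_lt with hS | hS
  · rw [← hS]
    simp
  · rw [Finset.sum_add_distrib]
    have h4 := St1_point h0 hA hA0 hp hm hS (fun t => S + t) 1 (Or.inl rfl)
      (fun t => Or.inl rfl) (St1_cw A m S).1 (fun t x => (St1_add_sg hp x S t).1)
    have h5 := St1_point h0 hA hA0 hp hm hS (fun t => S - t) (-1) (Or.inr rfl)
      (fun t => Or.inr rfl) (St1_cw A m S).2 (fun t x => (St1_add_sg hp x S t).2)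
    linarith

end Pool.Agent.MPbd65ca.Sp
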