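import Pool.Agent.Lib.MP_bd65ca_an_S.CT

/-!
# The values at the nodes

For `t` even (`par N t = 0`): `N * sg N t = π * (t.val / 2)`, so `sin (N * sg N t) = 0` and
`cos (N * sg N t) = ± 1`.

PROOF. `cos_ne`: for `t`, `y` even with `y ≠ t`, `y ≠ -t`: `cos (sg N t) ≠ cos (sg N y)`
(`Real.cos_eq_cos_iff`: `sg N y = 2 π q ± sg N t` gives `y = ± t`, since `sg` of residues differ
by a
multiple of `2 π` only if the residues are equal).  If `y = t` or `y = -t` then `cos (sg N y) =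
cos (sg N t)`
and `cos (N * sg N y) = cos (N * sg N t)` (`sg N (-t) = 2 π - sg N t` for `t ≠ 0`).
Let `x = cos (sg N t)`, `c = cos (sg N y)`, `δ = cos (N sg N t)`, `ε = cos (N sg N y)`, so `T x =
δ`,
`T c = ε` (`TT_cos`), `U x = 0` (`UU_sin`, `sin (sg N t) ≠ 0`).
`Hp_grid`: if `y ≠ ± t`: `Hp_sq` gives `(x - c)^2 Hp = -(δ - ε) = -δ (1 - δ ε)` (`δ ^ 2 = 1`); if
`y = ± t`: `x = c`, `Hp_self`, `TT_two`, `δ = ε`.
`gg_grid`: for `y ≠ ± t`: `(x - c)^2 * gg = -ε ((x - c)^2 Jp x + N U c (x - c)) = -ε (T x - T c)` by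
`Jp_sq`, `= 1 - ε δ`.  For `y = ± t`: `x - c = 0`, the second term vanishes (`div_zero`), `Jp_self`,
`Hp_self`, `TT_two`.  `gg_nonneg`: `(x - c)^2 gg = 1 - ε T x ≥ 0` (`ε ^ 2 = 1`), as `|T x| ≤ 1`
for `|x| ≤ 1`
(`Polynomial.Chebyshev.abs_eval_T_real_le_one`) and `|ε| ≤ 1`.
`kb_pos`: `kb N t (k - k')` at `k' = k - t`.
-/

open MeasureTheory FourierTransform Pointwise Set Finset Polynomial
open scoped RealInnerProductSpace

namespace Pool.Agent.MPbd65ca.Sp

open Pool.Agent.MPbd65ca.Oct Pool.Agent.MPbd65ca.Bp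

variable {N : ℕ} [NeZero N]

private theorem val_N : (0 : ℝ) < N := by
  have := NeZero.pos N
  exact_mod_cast this

/-- The node of an integer. -/
private theorem val_int (z : ℤ) : ∃ j : ℤ, sg N (z : ZMod (4 * N)) =
    Real.pi * z / (2 * N) + j * (2 * Real.pi) := by
  have hN := val_N (N := N)
  refine ⟨-(z / ((4 * N : ℕ) : ℤ)), ?_⟩
  have h1 : (((z : ZMod (4 * N)).val : ℤ)) = z % ((4 * N : ℕ) : ℤ) := ZMod.val_intCast z
  have h2 : (((z : ZMod (4 * N)).val : ℤ)) = z - ((4 * N : ℕ) : ℤ) * (z / ((4 * N : ℕ) : ℤ)) := by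
    rw [h1, Int.emod_def]
  have h3 : (((z : ZMod (4 * N)).val : ℕ) : ℝ) = z - 4 * N * ((z / ((4 * N : ℕ) : ℤ) : ℤ) : ℝ) := by
    have h4 := congrArg (fun w : ℤ => (w : ℝ)) h2
    push_cast at h4
    push_cast
    exact h4
  unfold sg
  rw [h3, Int.cast_neg]
  field_simp
  ring

private theorem val_cast (t : ZMod (4 * N)) : ((t.val : ℤ) : ZMod (4 * N)) = t := by
  rw [Int.cast_natCast, ZMod.natCast_zmod_val]

private theorem val_sub (k l : ZMod (4 * N)) :
    ∃ j : ℤ, sg N (k - l) = sg N k - sg N l + j * (2 * Real.pi) := by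
  obtain ⟨j, hj⟩ := val_int (N := N) ((k.val : ℤ) - (l.val : ℤ))
  refine ⟨j, ?_⟩
  rw [Int.cast_sub, val_cast, val_cast] at hj
  rw [hj]
  unfold sg
  push_cast
  ring

private theorem val_neg (t : ZMod (4 * N)) :
    ∃ j : ℤ, sg N (-t) = -sg N t + j * (2 * Real.pi) := by
  obtain ⟨j, hj⟩ := val_int (N := N) (-(t.val : ℤ))
  refine ⟨j, ?_⟩
  rw [Int.cast_neg, val_cast] at hj
  rw [hj]
  unfold sg
  push_cast
  ring

private theorem val_even {t : ZMod (4 * N)} (ht : par N t = 0) :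
    ∃ m : ℕ, N * sg N t = m * Real.pi := by
  have hN := val_N (N := N)
  have h1 : ((t.val : ℕ) : ZMod 2) = 0 := by
    have h2 : par N ((t.val : ℕ) : ZMod (4 * N)) = ((t.val : ℕ) : ZMod 2) := map_natCast _ _
    rw [← h2, ZMod.natCast_zmod_val, ht]
  rw [ZMod.natCast_eq_zero_iff] at h1
  obtain ⟨m, hm⟩ := h1
  refine ⟨m, ?_⟩
  unfold sg
  rw [hm]
  push_cast
  field_simp

theorem sin_even {t : ZMod (4 * N)} (ht : par N t = 0) : Real.sin (N * sg N t) = 0 := by
  obtain ⟨m, hm⟩ := val_even ht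
  rw [hm, Real.sin_nat_mul_pi]

theorem cos_even_sq {t : ZMod (4 * N)} (ht : par N t = 0) : Real.cos (N * sg N t) ^ 2 = 1 := by
  have h := Real.sin_sq_add_cos_sq (N * sg N t)
  rw [sin_even ht] at h
  linarith

theorem cos_sg_neg (t : ZMod (4 * N)) : Real.cos (sg N (-t)) = Real.cos (sg N t) ∧
    Real.cos (N * sg N (-t)) = Real.cos (N * sg N t) ∧
    Real.sin (sg N (-t)) = -Real.sin (sg N t) := by
  obtain ⟨j, hj⟩ := val_neg t
  rw [hj]
  refine ⟨?_, ?_, ?_⟩
  · rw [Real.cos_add_int_mul_two_pi, Real.cos_neg]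
  · have h : N * (-sg N t + j * (2 * Real.pi)) =
        -(N * sg N t) + ((N * j : ℤ) : ℝ) * (2 * Real.pi) := by
      push_cast
      ring
    rw [h, Real.cos_add_int_mul_two_pi, Real.cos_neg]
  · rw [Real.sin_add_int_mul_two_pi, Real.sin_neg]

theorem cos_sg_sub (k l : ZMod (4 * N)) :
    Real.cos (sg N (k - l)) = Real.cos (sg N k - sg N l) := by
  obtain ⟨j, hj⟩ := val_sub k l
  rw [hj, Real.cos_add_int_mul_two_pi]

theorem cosN_sg_sub (k l : ZMod (4 * N)) :
    Real.cos (N * sg N (k - l)) = Real.cos (N * (sg N k - sg N l)) := by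
  obtain ⟨j, hj⟩ := val_sub k l
  have h : N * (sg N k - sg N l + j * (2 * Real.pi)) =
      N * (sg N k - sg N l) + ((N * j : ℤ) : ℝ) * (2 * Real.pi) := by
    push_cast
    ring
  rw [hj, h, Real.cos_add_int_mul_two_pi]

theorem cos_ne {t y : ZMod (4 * N)} (h1 : y ≠ t) (h2 : y ≠ -t) :
    Real.cos (sg N t) ≠ Real.cos (sg N y) := by
  intro h
  have hN := val_N (N := N)
  have hpi := Real.pi_pos
  obtain ⟨k, hk⟩ := Real.cos_eq_cos_iff.1 h
  have key : ∀ e : ℤ, sg N y = 2 * k * Real.pi + e * sg N t →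
      y = (e : ZMod (4 * N)) * t := by
    intro e he
    unfold sg at he
    have h1 : ((y.val : ℤ) : ℝ) = ((4 * N * k + e * (t.val : ℤ) : ℤ) : ℝ) := by
      field_simp at he
      push_cast
      rw [he]
      ring
    have h4 : (y.val : ℤ) = 4 * N * k + e * (t.val : ℤ) := by exact_mod_cast h1
    have h5 : ((y.val : ℤ) : ZMod (4 * N)) =
        ((4 * N * k + e * (t.val : ℤ) : ℤ) : ZMod (4 * N)) := by rw [h4]
    rw [val_cast] at h5
    rw [h5]
    push_cast
    have h6 : (4 * (N : ZMod (4 * N))) = 0 := by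
      have h7 := ZMod.natCast_self (4 * N)
      push_cast at h7
      exact h7
    rw [ZMod.natCast_zmod_val, h6]
    ring
  rcases hk with hk | hk
  · have h2 := key 1 (by rw [hk]; push_cast; ring)
    rw [Int.cast_one, one_mul] at h2
    exact h1 h2
  · have h3 := key (-1) (by rw [hk]; push_cast; ring)
    rw [Int.cast_neg, Int.cast_one, neg_one_mul] at h3
    exact h2 h3

theorem kb_nonneg (t y : ZMod (4 * N)) : 0 ≤ kb N t y := by
  unfold kb
  split_ifs
  · positivity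
  · refine div_nonneg ?_ (sq_nonneg _)
    have h1 := Real.abs_cos_le_one (N * sg N t)
    have h2 := Real.abs_cos_le_one (N * sg N y)
    have h3 : |Real.cos (N * sg N t) * Real.cos (N * sg N y)| ≤ 1 := by
      rw [abs_mul]
      exact mul_le_one₀ h1 (abs_nonneg _) h2
    linarith [le_abs_self (Real.cos (N * sg N t) * Real.cos (N * sg N y))]

theorem kb_neg_left (t y : ZMod (4 * N)) : kb N (-t) y = kb N t y := by
  obtain ⟨h1, h2, h3⟩ := cos_sg_neg t
  have h4 : (y = -t ∨ y = - -t) ↔ (y = t ∨ y = -t) := by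
    rw [neg_neg, or_comm]
  unfold kb
  rw [h1, h2, h3, neg_sq]
  simp only [h4]

theorem kb_neg_right (t y : ZMod (4 * N)) : kb N t (-y) = kb N t y := by
  obtain ⟨h1, h2, h3⟩ := cos_sg_neg y
  have h4 : (-y = t ∨ -y = -t) ↔ (y = t ∨ y = -t) := by
    rw [neg_inj, neg_eq_iff_eq_neg, or_comm]
  unfold kb
  rw [h1, h2]
  simp only [h4]

theorem kb_self_pos {t : ZMod (4 * N)} (h : Real.sin (sg N t) ≠ 0) : 0 < kb N t t := by
  have hN := val_N (N := N)
  unfold kb
  rw [if_pos (Or.inl rfl)]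
  positivity

private theorem val_UU {t : ZMod (4 * N)} (ht : par N t = 0) (h : Real.sin (sg N t) ≠ 0) :
    (UU N).eval (Real.cos (sg N t)) = 0 := by
  have h1 := UU_sin N (sg N t)
  rw [sin_even ht] at h1
  exact (mul_eq_zero.1 h1).resolve_right h

private theorem val_pm {t y : ZMod (4 * N)} (h : y = t ∨ y = -t) :
    Real.cos (sg N y) = Real.cos (sg N t) ∧ Real.cos (N * sg N y) = Real.cos (N * sg N t) := by
  rcases h with rfl | rfl
  · exact ⟨rfl, rfl⟩
  · exact ⟨(cos_sg_neg t).1, (cos_sg_neg t).2.1⟩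

private theorem val_two {t : ZMod (4 * N)} (ht : par N t = 0) (h : Real.sin (sg N t) ≠ 0) :
    (Hp N (Real.cos (sg N t))).eval (Real.cos (sg N t)) =
      -Real.cos (N * sg N t) * ((N : ℝ) ^ 2 / (2 * Real.sin (sg N t) ^ 2)) := by
  rw [Hp_self, TT_two N h (sin_even ht)]
  field_simp

theorem Hp_grid {t y : ZMod (4 * N)} (ht : par N t = 0) (h : Real.sin (sg N t) ≠ 0)
    (hy : par N y = 0) : (Hp N (Real.cos (sg N y))).eval (Real.cos (sg N t)) =
      -Real.cos (N * sg N t) * kb N t y := by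
  unfold kb
  split_ifs with hyt
  · obtain ⟨h1, _⟩ := val_pm hyt
    rw [h1]
    exact val_two ht h
  · push Not at hyt
    have hne := sub_ne_zero.2 (cos_ne hyt.1 hyt.2)
    have h1 := Hp_sq N (Real.cos (sg N y)) (Real.cos (sg N t))
    rw [val_UU ht h, TT_cos, TT_cos] at h1
    have h2 := cos_even_sq ht
    rw [← mul_right_inj' (pow_ne_zero 2 hne), h1]
    field_simp
    linear_combination (-Real.cos (N * sg N y)) * h2

theorem gg_grid {t y : ZMod (4 * N)} (ht : par N t = 0) (h : Real.sin (sg N t) ≠ 0)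
    (hy : par N y = 0) : gg N y (Real.cos (sg N t)) = kb N t y := by
  unfold kb gg
  split_ifs with hyt
  · obtain ⟨h1, h2⟩ := val_pm hyt
    rw [h1, h2, sub_self, div_zero, add_zero, Jp_self, val_two ht h]
    linear_combination ((N : ℝ) ^ 2 / (2 * Real.sin (sg N t) ^ 2)) * cos_even_sq ht
  · push Not at hyt
    have hne := sub_ne_zero.2 (cos_ne hyt.1 hyt.2)
    have h1 := Jp_sq N (Real.cos (sg N y)) (Real.cos (sg N t))
    rw [TT_cos, TT_cos] at h1
    have h2 := cos_even_sq hy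
    rw [eq_div_iff (pow_ne_zero 2 hne)]
    have h3 : (N * (UU N).eval (Real.cos (sg N y)) / (Real.cos (sg N t) - Real.cos (sg N y))) *
        (Real.cos (sg N t) - Real.cos (sg N y)) = N * (UU N).eval (Real.cos (sg N y)) :=
      div_mul_cancel₀ _ hne
    linear_combination (-Real.cos (N * sg N y)) * h1 -
      Real.cos (N * sg N y) * (Real.cos (sg N t) - Real.cos (sg N y)) * h3 + h2

theorem gg_nonneg {y : ZMod (4 * N)} (hy : par N y = 0) {x : ℝ} (hx : |x| ≤ 1)
    (hne : x ≠ Real.cos (sg N y)) : 0 ≤ gg N y x := by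
  have hne' := sub_ne_zero.2 hne
  have h1 := Jp_sq N (Real.cos (sg N y)) x
  rw [TT_cos] at h1
  have h2 := cos_even_sq hy
  have h3 : (N * (UU N).eval (Real.cos (sg N y)) / (x - Real.cos (sg N y))) *
      (x - Real.cos (sg N y)) = N * (UU N).eval (Real.cos (sg N y)) :=
    div_mul_cancel₀ _ hne'
  have h4 : (x - Real.cos (sg N y)) ^ 2 * gg N y x =
      1 - Real.cos (N * sg N y) * (TT N).eval x := by
    unfold gg
    linear_combination (-Real.cos (N * sg N y)) * h1 -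
      Real.cos (N * sg N y) * (x - Real.cos (sg N y)) * h3 + h2
  have h5 : |(TT N).eval x| ≤ 1 :=
    Polynomial.Chebyshev.abs_eval_T_real_le_one _ hx
  have h6 : |Real.cos (N * sg N y) * (TT N).eval x| ≤ 1 := by
    rw [abs_mul]
    exact mul_le_one₀ (Real.abs_cos_le_one _) (abs_nonneg _) h5
  have h7 : 0 ≤ (x - Real.cos (sg N y)) ^ 2 * gg N y x := by
    rw [h4]
    linarith [le_abs_self (Real.cos (N * sg N y) * (TT N).eval x)]
  exact nonneg_of_mul_nonneg_right h7 (by positivity)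

end Pool.Agent.MPbd65ca.Sp
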