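import Pool.Agent.Lib.MP_bd65ca_an_S.Defs

/-!
# Interlacing zeros

PROOF. `interlace`: for `i < m` the signs of `P (x i)` and `P (x (i + 1))` are opposite, so there
is a
zero `z i` in `(x (i + 1), x i)` (intermediate value theorem).  The `z i` are `m` distinct zeros
of a
polynomial of degree `≤ m`, `P ≠ 0`, so `P = C L * ∏ (X - C (z i))` with `L = P.coeff m`
(`Polynomial.eq_of_degree_sub_lt_of_eval_finset_eq` or `Multiset.prod_X_sub_C_dvd`,
`Polynomial.C_leadingCoeff_mul_prod_multiset_X_sub_C`; or: `P - C L * ∏` has degree `< m` and `m`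
zeros).
`interlace_sign`: for `j < m`, `j ≠ i`: `z i - z j` and `z i - x j` have the same sign (negative for
`j < i`: `z i < x i ≤ x (j + 1) < z j < x j`; positive for `j > i`: `z j < x j ≤ x (i + 1) < z i`);
the remaining factors are `z i - x i < 0` and `z i - x m > 0` (`x m ≤ x (i + 1) < z i`).
`Rz_card`: all points `x i`, `z i` are distinct.  `Rz_nodal`: `Finset.prod_union`, `prod_image`.
`Rz_sum`: split the sum over the union; for `ρ = z i` the product over `(Rz m x z).erase ρ` is the
product in `interlace_sign` (negative) and `φ (z i) ≥ 0`, so these terms are `≤ 0`; for `ρ = x i`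
the
product is `(∏ j ∈ (range (m + 1)).erase i, (x i - x j)) * ∏ j ∈ range m, (x i - z j)` and the last
factor is `P.eval (x i) / L`.
-/

open MeasureTheory FourierTransform Pointwise Set Finset Polynomial
open scoped RealInnerProductSpace

namespace Pool.Agent.MPbd65ca.Sp

open Pool.Agent.MPbd65ca.Oct Pool.Agent.MPbd65ca.Bp

private theorem zer_anti {m : ℕ} {x : ℕ → ℝ} (hx : ∀ i < m, x (i + 1) < x i) :
    ∀ i j : ℕ, i ≤ j → j ≤ m → x j ≤ x i := by
  intro i j hij
  induction j, hij using Nat.le_induction with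
  | base => exact fun _ => le_rfl
  | succ j _ ih => exact fun hj => (hx j hj).le.trans (ih (Nat.le_of_succ_le hj))

private theorem zer_injz {m : ℕ} {x z : ℕ → ℝ} (hx : ∀ i < m, x (i + 1) < z i ∧ z i < x i) :
    Set.InjOn z (Finset.range m : Set ℕ) := by
  have hanti := zer_anti (fun i hi => (hx i hi).1.trans (hx i hi).2)
  have key : ∀ i j : ℕ, i < j → j < m → z j < z i := by
    intro i j hij hj
    have h3 := hanti (i + 1) j hij hj.le
    have h1 := hx i (hij.trans hj)
    have h2 := hx j hj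
    linarith
  intro i hi j hj hij
  have hi' : i < m := Finset.mem_range.1 hi
  have hj' : j < m := Finset.mem_range.1 hj
  by_contra hne
  rcases lt_or_gt_of_ne hne with h | h
  · exact absurd hij (key i j h hj').ne'
  · exact absurd hij (key j i h hi').ne

private theorem zer_injx {m : ℕ} {x z : ℕ → ℝ} (hx : ∀ i < m, x (i + 1) < z i ∧ z i < x i) :
    Set.InjOn x (Finset.range (m + 1) : Set ℕ) := by
  have hanti := zer_anti (fun i hi => (hx i hi).1.trans (hx i hi).2)
  have key : ∀ i j : ℕ, i < j → j < m + 1 → x j < x i := by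
    intro i j hij hj
    have h3 := hanti (i + 1) j hij (Nat.lt_succ_iff.1 hj)
    have h1 := hx i (by omega)
    linarith
  intro i hi j hj hij
  have hi' : i < m + 1 := Finset.mem_range.1 hi
  have hj' : j < m + 1 := Finset.mem_range.1 hj
  by_contra hne
  rcases lt_or_gt_of_ne hne with h | h
  · exact absurd hij (key i j h hj').ne'
  · exact absurd hij (key j i h hi').ne

private theorem zer_disj {m : ℕ} {x z : ℕ → ℝ} (hx : ∀ i < m, x (i + 1) < z i ∧ z i < x i) :
    Disjoint (Finset.image x (Finset.range (m + 1))) (Finset.image z (Finset.range m)) := by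
  have hanti := zer_anti (fun i hi => (hx i hi).1.trans (hx i hi).2)
  rw [Finset.disjoint_left]
  intro q hq hq'
  obtain ⟨i, hi, rfl⟩ := Finset.mem_image.1 hq
  obtain ⟨j, hj, hji⟩ := Finset.mem_image.1 hq'
  have hi' : i < m + 1 := Finset.mem_range.1 hi
  have hj' : j < m := Finset.mem_range.1 hj
  have h1 := hx j hj'
  rcases le_or_gt i j with h | h
  · have h2 := hanti i j h hj'.le
    linarith
  · have h2 := hanti (j + 1) i h (Nat.lt_succ_iff.1 hi')
    linarith

private theorem zer_erase {s : Finset ℕ} {f : ℕ → ℝ} (hf : Set.InjOn f (s : Set ℕ)) {i : ℕ}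
    (hi : i ∈ s) (g : ℝ → ℝ) :
    ∏ q ∈ (s.image f).erase (f i), g q = ∏ j ∈ s.erase i, g (f j) := by
  have h : (s.image f).erase (f i) = (s.erase i).image f := by
    ext q
    simp only [Finset.mem_erase, Finset.mem_image]
    constructor
    · rintro ⟨hne, j, hj, rfl⟩
      exact ⟨j, ⟨fun h => hne (by rw [h]), hj⟩, rfl⟩
    · rintro ⟨j, ⟨hji, hj⟩, rfl⟩
      exact ⟨fun h => hji (hf hj hi h), j, hj, rfl⟩
  rw [h, Finset.prod_image (hf.mono (by
    intro j hj
    exact Finset.mem_of_mem_erase hj))]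

private theorem zer_prod {A B : Finset ℝ} (h : Disjoint A B) {a : ℝ} (ha : a ∈ A) :
    ∏ q ∈ (A ∪ B).erase a, (a - q) = (∏ q ∈ A.erase a, (a - q)) * ∏ q ∈ B, (a - q) := by
  have haB : a ∉ B := Finset.disjoint_left.1 h ha
  rw [Finset.erase_union_distrib, Finset.erase_eq_of_notMem haB, Finset.prod_union]
  exact h.mono_left (Finset.erase_subset _ _)

theorem interlace {m : ℕ} {x : ℕ → ℝ} (hx : ∀ i < m, x (i + 1) < x i) {P : ℝ[X]}
    (hd : P.natDegree ≤ m) (hL : 0 < P.coeff m) (hs : ∀ i ≤ m, 0 < (-1) ^ i * P.eval (x i)) :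
    ∃ z : ℕ → ℝ, (∀ i < m, x (i + 1) < z i ∧ z i < x i) ∧
      P = C (P.coeff m) * ∏ i ∈ range m, (X - C (z i)) := by
  have hanti := zer_anti hx
  have hex : ∀ i, ∃ t : ℝ, i < m → (x (i + 1) < t ∧ t < x i ∧ P.eval t = 0) := by
    intro i
    by_cases hi : i < m
    · have hc : ContinuousOn (fun t => (-1 : ℝ) ^ i * P.eval t) (Set.Icc (x (i + 1)) (x i)) :=
        (continuous_const.mul P.continuous).continuousOn
      have h1 := hs i hi.le
      have h2 := hs (i + 1) hi
      rw [pow_succ] at h2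
      have h3 : (0 : ℝ) ∈ Set.Ioo ((-1 : ℝ) ^ i * P.eval (x (i + 1)))
          ((-1 : ℝ) ^ i * P.eval (x i)) := ⟨by linarith, h1⟩
      obtain ⟨t, ht, ht0⟩ := intermediate_value_Ioo (hx i hi).le hc h3
      refine ⟨t, fun _ => ⟨ht.1, ht.2, ?_⟩⟩
      rcases mul_eq_zero.1 ht0 with h | h
      · exact absurd h (pow_ne_zero _ (by norm_num))
      · exact h
    · exact ⟨0, fun h => absurd h hi⟩
  choose z hz using hex
  have hz' : ∀ i < m, x (i + 1) < z i ∧ z i < x i := fun i hi => ⟨(hz i hi).1, (hz i hi).2.1⟩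
  refine ⟨z, hz', ?_⟩
  set Q : ℝ[X] := ∏ i ∈ Finset.range m, (X - C (z i)) with hQ
  have hQm : Q.Monic := monic_prod_X_sub_C _ _
  have hQd : Q.natDegree = m := by
    rw [hQ, natDegree_finsetProd_X_sub_C_eq_card, Finset.card_range]
  have hzero : P - C (P.coeff m) * Q = 0 := by
    refine Polynomial.eq_zero_of_degree_lt_of_eval_index_eq_zero (v := z) (Finset.range m)
      (zer_injz hz') ?_ ?_
    · rw [Finset.card_range, Polynomial.degree_lt_iff_coeff_zero]
      intro k hk
      rw [coeff_sub, coeff_C_mul]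
      rcases hk.eq_or_lt with h | h
      · subst h
        have h1 : Q.coeff m = 1 := by
          have h2 := hQm.coeff_natDegree
          rwa [hQd] at h2
        rw [h1, mul_one, sub_self]
      · have hQk : Q.coeff k = 0 := coeff_eq_zero_of_natDegree_lt (by rw [hQd]; exact h)
        rw [coeff_eq_zero_of_natDegree_lt (lt_of_le_of_lt hd h), hQk, mul_zero, sub_zero]
    · intro i hi
      have hi' : i < m := Finset.mem_range.1 hi
      rw [eval_sub, eval_mul, (hz i hi').2.2, hQ, eval_prod, Finset.prod_eq_zero hi, mul_zero,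
        sub_zero]
      rw [eval_sub, eval_X, eval_C, sub_self]
  exact sub_eq_zero.1 hzero

theorem interlace_sign {m : ℕ} {x z : ℕ → ℝ} (hx : ∀ i < m, x (i + 1) < z i ∧ z i < x i) {i : ℕ}
    (hi : i < m) :
    (∏ j ∈ (range m).erase i, (z i - z j)) * ∏ j ∈ range (m + 1), (z i - x j) < 0 := by
  have hanti := zer_anti (fun i hi => (hx i hi).1.trans (hx i hi).2)
  have hi' : i ∈ Finset.range m := Finset.mem_range.2 hi
  rw [Finset.prod_range_succ, ← Finset.mul_prod_erase _ _ hi']
  have hpos : 0 < ∏ j ∈ (Finset.range m).erase i, ((z i - z j) * (z i - x j)) := by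
    refine Finset.prod_pos fun j hj => ?_
    have hji := Finset.ne_of_mem_erase hj
    have hjm : j < m := Finset.mem_range.1 (Finset.mem_of_mem_erase hj)
    have h1 := hx i hi
    have h2 := hx j hjm
    rcases lt_or_gt_of_ne hji with h | h
    · have h3 := hanti (j + 1) i h hi.le
      exact mul_pos_of_neg_of_neg (by linarith) (by linarith)
    · have h3 := hanti (i + 1) j h hjm.le
      exact mul_pos (by linarith) (by linarith)
  rw [Finset.prod_mul_distrib] at hpos
  have h1 : z i - x i < 0 := by linarith [(hx i hi).2]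
  have h2 : 0 < z i - x m := by
    have h3 := hanti (i + 1) m hi le_rfl
    linarith [(hx i hi).1]
  have h4 : (z i - x i) * (z i - x m) < 0 := mul_neg_of_neg_of_pos h1 h2
  have h5 := mul_neg_of_pos_of_neg hpos h4
  calc _ = (∏ j ∈ (Finset.range m).erase i, (z i - z j)) *
        (∏ j ∈ (Finset.range m).erase i, (z i - x j)) * ((z i - x i) * (z i - x m)) := by ring
    _ < 0 := h5

theorem Rz_card {m : ℕ} {x z : ℕ → ℝ} (hx : ∀ i < m, x (i + 1) < z i ∧ z i < x i) :
    (Rz m x z).card = 2 * m + 1 := by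
  rw [Rz, Finset.card_union_of_disjoint (zer_disj hx), Finset.card_image_of_injOn (zer_injx hx),
    Finset.card_image_of_injOn (zer_injz hx), Finset.card_range, Finset.card_range]
  omega

theorem Rz_nodal {m : ℕ} {x z : ℕ → ℝ} (hx : ∀ i < m, x (i + 1) < z i ∧ z i < x i) :
    Lagrange.nodal (Rz m x z) id =
      (∏ i ∈ range (m + 1), (X - C (x i))) * ∏ i ∈ range m, (X - C (z i)) := by
  rw [Lagrange.nodal, Rz, Finset.prod_union (zer_disj hx), Finset.prod_image (zer_injx hx),
    Finset.prod_image (zer_injz hx)]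
  rfl

theorem Rz_sum {m : ℕ} {x z : ℕ → ℝ} (hx : ∀ i < m, x (i + 1) < z i ∧ z i < x i) {P : ℝ[X]}
    {L : ℝ} (hL : 0 < L) (hP : P = C L * ∏ i ∈ range m, (X - C (z i))) {φ : ℝ → ℝ}
    (hφ : ∀ i < m, 0 ≤ φ (z i)) :
    ∑ ρ ∈ Rz m x z, φ ρ / ∏ q ∈ (Rz m x z).erase ρ, (ρ - q) ≤
      ∑ i ∈ range (m + 1), φ (x i) * L /
        (P.eval (x i) * ∏ j ∈ (range (m + 1)).erase i, (x i - x j)) := by
  have hd := zer_disj hx
  rw [Rz, Finset.sum_union hd, Finset.sum_image (zer_injx hx), Finset.sum_image (zer_injz hx)]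
  have h1 : ∀ i ∈ Finset.range (m + 1), φ (x i) /
      ∏ q ∈ (Finset.image x (Finset.range (m + 1)) ∪ Finset.image z (Finset.range m)).erase (x i),
        (x i - q) = φ (x i) * L /
        (P.eval (x i) * ∏ j ∈ (Finset.range (m + 1)).erase i, (x i - x j)) := by
    intro i hi
    have hxi : x i ∈ Finset.image x (Finset.range (m + 1)) := Finset.mem_image_of_mem x hi
    rw [zer_prod hd hxi, zer_erase (zer_injx hx) hi (fun q => x i - q),
      Finset.prod_image (zer_injz hx), hP, eval_mul, eval_C, eval_prod]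
    have h2 : ∀ j ∈ Finset.range m, eval (x i) (X - C (z j)) = x i - z j := by
      intro j _
      rw [eval_sub, eval_X, eval_C]
    rw [Finset.prod_congr rfl h2]
    rw [mul_comm (∏ j ∈ (Finset.range (m + 1)).erase i, (x i - x j)), mul_assoc, mul_comm L,
      mul_div_mul_right _ _ hL.ne']
  have h2 : ∑ i ∈ Finset.range m, φ (z i) /
      ∏ q ∈ (Finset.image x (Finset.range (m + 1)) ∪ Finset.image z (Finset.range m)).erase (z i),
        (z i - q) ≤ 0 := by
    refine Finset.sum_nonpos fun i hi => ?_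
    have hi' : i < m := Finset.mem_range.1 hi
    have hzi : z i ∈ Finset.image z (Finset.range m) := Finset.mem_image_of_mem z hi
    refine div_nonpos_of_nonneg_of_nonpos (hφ i hi') ?_
    rw [Finset.union_comm, zer_prod hd.symm hzi, zer_erase (zer_injz hx) hi (fun q => z i - q),
      Finset.prod_image (zer_injx hx)]
    exact (interlace_sign hx hi').le
  rw [Finset.sum_congr rfl h1]
  linarith

end Pool.Agent.MPbd65ca.Sp
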