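import Pool.Agent.Lib.MP_bd65ca_an_S.Val
import Pool.Agent.Lib.MP_bd65ca_an_S.Zer
import Pool.Agent.Lib.MP_bd65ca_an_S.HTD

/-!
# The polynomial of the masses: its zeros

Let `W = ∑ k' with par N k' = c, M k'`.

PROOF. `xt N i = cos (π (i + 1) / N)`, `i < N - 1`, are the zeros of `UU N`
(`Polynomial.Chebyshev.roots_U_real`, `leadingCoeff_U_natCast`), so `UU_prod`; `xt_prod`:
differentiate
`UU_prod` at `xt N i`: the product is `U'(x) / 2 ^ (N - 1)`, and `N U'(x) = T''(x)` is given by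
`TT_two`
with `θ = π (i + 1) / N`, `cos (N θ) = (-1) ^ (i + 1)`.  `xt_sg`: `xt N i = cos (sg N (2 (i + 1)))`.
`hh_natDegree`, `hh_lead`, `hh_TD`: from `Hp_natDegree`, `Hp_lead`, `Hp_TD` (with `cos_sg_sub`:
`cos (sg N (k - k')) = cos (sg N k - sg N k')`, so `θ = sg N k'`).  `hh_grid`: `Hp_grid`, `k - k'`
is even.
`kbs_pos`: the term `k' = k - t` is `kb N t t * M (k - t) > 0`, the others are `≥ 0`.
`hh_zeros`: `interlace` with `m = N - 2`, `x = xt N`, `t = 2 (i + 1)`: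
`P (x i) = -cos (π (i + 1)) * (positive) = (-1) ^ i * (positive)`.
-/

open MeasureTheory FourierTransform Pointwise Set Finset Polynomial
open scoped RealInnerProductSpace

namespace Pool.Agent.MPbd65ca.Sp

open Pool.Agent.MPbd65ca.Oct Pool.Agent.MPbd65ca.Bp

variable {N : ℕ} [NeZero N]

private theorem Zh_val {i : ℕ} (hi : i < N - 1) :
    sg N ((2 * (i + 1) : ℕ) : ZMod (4 * N)) = Real.pi * ((i : ℝ) + 1) / N := by
  have h1 : ((2 * (i + 1) : ℕ) : ZMod (4 * N)).val = 2 * (i + 1) :=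
    ZMod.val_cast_of_lt (by omega)
  have hN : (N : ℝ) ≠ 0 := Nat.cast_ne_zero.2 (NeZero.ne N)
  rw [sg, h1]
  push_cast
  field_simp

private theorem Zh_range {i : ℕ} (hi : i < N - 1) :
    0 < Real.pi * ((i : ℝ) + 1) / N ∧ Real.pi * ((i : ℝ) + 1) / N < Real.pi := by
  have hN : (0 : ℝ) < N := Nat.cast_pos.2 (Nat.pos_of_ne_zero (NeZero.ne N))
  have h1 : ((i : ℝ) + 1) < N := by
    have : i + 1 < N := by omega
    exact_mod_cast this
  have hpi := Real.pi_pos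
  constructor
  · positivity
  · rw [div_lt_iff₀ hN]
    exact mul_lt_mul_of_pos_left h1 hpi

theorem xt_anti {i : ℕ} (hi : i < N - 2) : xt N (i + 1) < xt N i := by
  have hN : (0 : ℝ) < N := Nat.cast_pos.2 (Nat.pos_of_ne_zero (NeZero.ne N))
  obtain ⟨h1, h2⟩ := Zh_range (N := N) (i := i) (by omega)
  obtain ⟨h3, h4⟩ := Zh_range (N := N) (i := i + 1) (by omega)
  unfold xt
  refine Real.strictAntiOn_cos ⟨h1.le, h2.le⟩ ⟨h3.le, h4.le⟩ ?_
  rw [div_lt_div_iff_of_pos_right hN]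
  push_cast
  nlinarith [Real.pi_pos]

/-- The residue `2 (i + 1)`. -/
theorem xt_sg {i : ℕ} (hi : i < N - 1) :
    par N ((2 * (i + 1) : ℕ) : ZMod (4 * N)) = 0 ∧
    Real.cos (sg N ((2 * (i + 1) : ℕ) : ZMod (4 * N))) = xt N i ∧
    0 < Real.sin (sg N ((2 * (i + 1) : ℕ) : ZMod (4 * N))) ∧
    Real.cos (N * sg N ((2 * (i + 1) : ℕ) : ZMod (4 * N))) = (-1) ^ (i + 1) := by
  have hv := Zh_val (N := N) hi
  have hN : (N : ℝ) ≠ 0 := Nat.cast_ne_zero.2 (NeZero.ne N)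
  obtain ⟨h1, h2⟩ := Zh_range (N := N) hi
  refine ⟨?_, ?_, ?_, ?_⟩
  · have h3 : par N ((2 * (i + 1) : ℕ) : ZMod (4 * N)) = ((2 * (i + 1) : ℕ) : ZMod 2) :=
      map_natCast _ _
    have h4 : ((2 : ℕ) : ZMod 2) = 0 := by decide
    rw [h3, Nat.cast_mul, h4, zero_mul]
  · rw [hv]
    rfl
  · rw [hv]
    exact Real.sin_pos_of_pos_of_lt_pi h1 h2
  · rw [hv]
    have h5 : (N : ℝ) * (Real.pi * ((i : ℝ) + 1) / N) = ((i + 1 : ℕ) : ℝ) * Real.pi := by
      push_cast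
      field_simp
    rw [h5, Real.cos_nat_mul_pi]

theorem UU_prod (hN : 2 ≤ N) :
    UU N = C (2 ^ (N - 1)) * ∏ i ∈ range (N - 1), (X - C (xt N i)) := by
  have hN1 : ((N : ℤ) - 1) = ((N - 1 : ℕ) : ℤ) := by
    rw [Nat.cast_sub (by omega)]
    simp
  have h1 : UU N = Polynomial.Chebyshev.U ℝ ((N - 1 : ℕ) : ℤ) := by
    rw [UU, hN1]
  have hr := Polynomial.Chebyshev.roots_U_real (N - 1)
  have hinj : Set.InjOn (fun k : ℕ => Real.cos ((k + 1) * Real.pi / ((N - 1 : ℕ) + 1)))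
      (Finset.range (N - 1)) :=
    (Finset.range (N - 1)).nodup_map_iff_injOn.mp
      (Polynomial.Chebyshev.roots_U_real_nodup (N - 1))
  have hcard : (Polynomial.Chebyshev.U ℝ ((N - 1 : ℕ) : ℤ)).roots.card =
      (Polynomial.Chebyshev.U ℝ ((N - 1 : ℕ) : ℤ)).natDegree := by
    rw [hr, Polynomial.Chebyshev.natDegree_U_natCast]
    change (Finset.image _ _).card = _
    rw [Finset.card_image_of_injOn hinj, Finset.card_range]
  have h2 := Polynomial.C_leadingCoeff_mul_prod_multiset_X_sub_C hcard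
  rw [Polynomial.Chebyshev.leadingCoeff_U_natCast, hr] at h2
  rw [h1, ← h2]
  congr 1
  change ∏ a ∈ Finset.image (fun k : ℕ => Real.cos ((k + 1) * Real.pi / ((N - 1 : ℕ) + 1)))
      (Finset.range (N - 1)), (X - C a) = _
  rw [Finset.prod_image hinj]
  refine Finset.prod_congr rfl fun k _ => ?_
  have h3 : (((N - 1 : ℕ) : ℝ) + 1) = N := by
    rw [Nat.cast_sub (by omega)]
    simp
  rw [h3, xt, mul_comm ((k : ℝ) + 1) Real.pi]

theorem xt_prod (hN : 2 ≤ N) {i : ℕ} (hi : i < N - 1) :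
    ∏ j ∈ (range (N - 1)).erase i, (xt N i - xt N j) =
      (-1) ^ i * N / (2 ^ (N - 1) * Real.sin (sg N ((2 * (i + 1) : ℕ) : ZMod (4 * N))) ^ 2) := by
  obtain ⟨-, hx, hs, hc⟩ := xt_sg (N := N) hi
  obtain ⟨θ, hθ⟩ : ∃ θ, θ = sg N ((2 * (i + 1) : ℕ) : ZMod (4 * N)) := ⟨_, rfl⟩
  rw [← hθ] at hx hs hc ⊢
  have hsN : Real.sin (N * θ) = 0 := by
    rw [hθ, Zh_val hi]
    have hN : (N : ℝ) ≠ 0 := Nat.cast_ne_zero.2 (NeZero.ne N)
    have h5 : (N : ℝ) * (Real.pi * ((i : ℝ) + 1) / N) = ((i + 1 : ℕ) : ℝ) * Real.pi := by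
      push_cast
      field_simp
    rw [h5, Real.sin_nat_mul_pi]
  have h1 := TT_two N hs.ne' hsN
  have h2 : derivative (TT N) = (N : ℝ[X]) * UU N := by
    have h3 := Polynomial.Chebyshev.T_derivative_eq_U (R := ℝ) (N : ℤ)
    rw [TT, UU, h3]
    push_cast
    rfl
  have h4 : UU N = C (2 ^ (N - 1)) * ((X - C (xt N i)) *
      ∏ j ∈ (range (N - 1)).erase i, (X - C (xt N j))) := by
    rw [UU_prod hN, ← Finset.mul_prod_erase (range (N - 1)) (fun j => X - C (xt N j))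
      (Finset.mem_range.2 hi)]
  have h5 : (derivative (UU N)).eval (xt N i) =
      2 ^ (N - 1) * ∏ j ∈ (range (N - 1)).erase i, (xt N i - xt N j) := by
    rw [h4, derivative_C_mul, derivative_mul, derivative_sub, derivative_X, derivative_C]
    simp only [eval_mul, eval_C, eval_add, eval_sub, eval_X, sub_self, zero_mul, add_zero,
      sub_zero, one_mul, eval_prod]
  have h6 : derivative (derivative (TT N)) = (N : ℝ[X]) * derivative (UU N) := by
    rw [h2, derivative_mul]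
    simp
  rw [h6, eval_mul, eval_natCast, hx, h5, hc] at h1
  have hNr : (N : ℝ) ≠ 0 := Nat.cast_ne_zero.2 (NeZero.ne N)
  have h7 : (2 : ℝ) ^ (N - 1) * ∏ j ∈ (range (N - 1)).erase i, (xt N i - xt N j) =
      (-1) ^ i * N / Real.sin θ ^ 2 := by
    apply mul_left_cancel₀ hNr
    rw [h1, pow_succ]
    ring
  have h8 : (2 : ℝ) ^ (N - 1) ≠ 0 := by positivity
  rw [mul_comm ((2 : ℝ) ^ (N - 1)) (Real.sin θ ^ 2), ← div_div, eq_div_iff h8, ← h7]
  ring

theorem hh_natDegree (c : ZMod 2) (M : ZMod (4 * N) → ℝ) (k : ZMod (4 * N)) :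
    (hh N c M k).natDegree ≤ N - 2 := by
  unfold hh
  refine Polynomial.natDegree_sum_le_of_forall_le _ _ fun k' _ => ?_
  exact (Polynomial.natDegree_C_mul_le _ _).trans (Hp_natDegree _ _)

theorem hh_lead (hN : 2 ≤ N) (c : ZMod 2) (M : ZMod (4 * N) → ℝ) (k : ZMod (4 * N)) :
    (hh N c M k).coeff (N - 2) = (N - 1) * 2 ^ (N - 1) * ∑ k' with par N k' = c, M k' := by
  unfold hh
  rw [Polynomial.finsetSum_coeff, Finset.mul_sum]
  refine Finset.sum_congr rfl fun k' _ => ?_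
  rw [Polynomial.coeff_C_mul, Hp_lead hN]
  ring

theorem hh_TD (c : ZMod 2) (M : ZMod (4 * N) → ℝ) (i : ℕ) :
    (fun a : Cl N c => (((hh N c M a.1).coeff i : ℝ) : ℂ)) ∈
      TD (ph (c := c)) ((N : ℤ) - 2 - i) := by
  have h : (fun a : Cl N c => (((hh N c M a.1).coeff i : ℝ) : ℂ)) =
      ∑ k' with par N k' = c, ((M k' : ℝ) : ℂ) •
        (fun a : Cl N c => (((Hp N (Real.cos (ph a - sg N k'))).coeff i : ℝ) : ℂ)) := by
    funext a
    rw [Finset.sum_apply, hh, Polynomial.finsetSum_coeff, Complex.ofReal_sum]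
    refine Finset.sum_congr rfl fun k' _ => ?_
    rw [Polynomial.coeff_C_mul, Complex.ofReal_mul, cos_sg_sub]
    rfl
  rw [h]
  exact Submodule.sum_mem _ fun k' _ => Submodule.smul_mem _ _ (Hp_TD N (sg N k') i)

theorem hh_grid {c : ZMod 2} (M : ZMod (4 * N) → ℝ) {t k : ZMod (4 * N)} (ht : par N t = 0)
    (h : Real.sin (sg N t) ≠ 0) (hk : par N k = c) :
    (hh N c M k).eval (Real.cos (sg N t)) =
      -Real.cos (N * sg N t) * ∑ k' with par N k' = c, kb N t (k - k') * M k' := by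
  unfold hh
  rw [Polynomial.eval_finsetSum, Finset.mul_sum]
  refine Finset.sum_congr rfl fun k' hk' => ?_
  have h1 : par N (k - k') = 0 := by
    rw [map_sub, hk, (Finset.mem_filter.1 hk').2, sub_self]
  rw [eval_mul, eval_C, Hp_grid ht h h1]
  ring

theorem kbs_pos {c : ZMod 2} {M : ZMod (4 * N) → ℝ} (hM : ∀ k, par N k = c → 0 < M k)
    {t k : ZMod (4 * N)} (ht : par N t = 0) (h : Real.sin (sg N t) ≠ 0) (hk : par N k = c) :
    0 < ∑ k' with par N k' = c, kb N t (k - k') * M k' := by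
  have h1 : par N (k - t) = c := by rw [map_sub, hk, ht, sub_zero]
  refine Finset.sum_pos' (fun k' hk' => ?_) ⟨k - t, ?_, ?_⟩
  · exact mul_nonneg (kb_nonneg _ _) (hM k' (Finset.mem_filter.1 hk').2).le
  · exact Finset.mem_filter.2 ⟨Finset.mem_univ _, h1⟩
  · rw [sub_sub_cancel]
    exact mul_pos (kb_self_pos h) (hM _ h1)

theorem hh_zeros (hN : 3 ≤ N) {c : ZMod 2} {M : ZMod (4 * N) → ℝ}
    (hM : ∀ k, par N k = c → 0 < M k) {k : ZMod (4 * N)} (hk : par N k = c) :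
    ∃ z : ℕ → ℝ, (∀ i < N - 2, xt N (i + 1) < z i ∧ z i < xt N i) ∧
      hh N c M k = C ((N - 1) * 2 ^ (N - 1) * ∑ k' with par N k' = c, M k') *
        ∏ i ∈ range (N - 2), (X - C (z i)) := by
  have hsum : 0 < ∑ k' with par N k' = c, M k' :=
    Finset.sum_pos (fun k' hk' => hM k' (Finset.mem_filter.1 hk').2)
      ⟨k, Finset.mem_filter.2 ⟨Finset.mem_univ _, hk⟩⟩
  have hN1 : (0 : ℝ) < (N : ℝ) - 1 := by
    have : (3 : ℝ) ≤ N := by exact_mod_cast hN
    linarith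
  have hlead := hh_lead (N := N) (by omega) c M k
  obtain ⟨z, hz1, hz2⟩ := interlace (m := N - 2) (x := xt N) (P := hh N c M k)
    (fun i hi => xt_anti hi) (hh_natDegree c M k) (by
      rw [hlead]
      positivity) (by
      intro i hi
      obtain ⟨h1, h2, h3, h4⟩ := xt_sg (N := N) (i := i) (by omega)
      have h5 := kbs_pos hM h1 h3.ne' hk
      rw [← h2, hh_grid M h1 h3.ne' hk, h4, pow_succ]
      have h6 : (-1 : ℝ) ^ i * (-((-1) ^ i * -1) *
          ∑ k' with par N k' = c, kb N ((2 * (i + 1) : ℕ) : ZMod (4 * N)) (k - k') * M k') =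
          ((-1 : ℝ) ^ i * (-1) ^ i) *
          ∑ k' with par N k' = c, kb N ((2 * (i + 1) : ℕ) : ZMod (4 * N)) (k - k') * M k' := by
        ring
      rw [h6, ← mul_pow]
      simpa using h5)
  refine ⟨z, hz1, ?_⟩
  rw [hlead] at hz2
  exact hz2

end Pool.Agent.MPbd65ca.Sp
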